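import Pool.Agent.H7.GH.Nm

/-!
# GH-CN: countability of the types of names

`Nd`, `Pa`, `Ed`, `Bs`, `Pt`, `Ix` are countable and infinite.  Use injections into products and sums
(`Function.Injective.countable`), e.g. `Nd -> Bool × List ℕ × ℕ`.  `Ix` gets the discrete topology.
-/

set_option autoImplicit false
set_option linter.unusedVariables false
set_option linter.unusedSectionVars false
set_option linter.unusedSimpArgs false
set_option linter.unusedTactic false
set_option linter.unreachableTactic false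

namespace Pool.Agent.H7.GH

open Pool.Agent.H82.GH Filter Topology
open scoped Ordinal ENNReal

instance : Countable Nd := by
  refine Function.Injective.countable
    (f := fun x : Nd => ((x.i, x.a, x.m) : Bool × List ℕ × ℕ)) ?_
  rintro ⟨i, a, m⟩ ⟨i', a', m'⟩ h
  simp only [Prod.mk.injEq] at h
  obtain ⟨h1, h2, h3⟩ := h
  subst h1 h2 h3
  rfl

instance : Countable Pa := by
  refine Function.Injective.countable
    (f := fun x : Pa => ((x.i, x.c, x.a, x.m) : Bool × ℕ × List ℕ × ℕ)) ?_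
  rintro ⟨i, c, a, m⟩ ⟨i', c', a', m'⟩ h
  simp only [Prod.mk.injEq] at h
  obtain ⟨h1, h2, h3, h4⟩ := h
  subst h1 h2 h3 h4
  rfl

instance : Countable Ed := by
  refine Function.Injective.countable
    (f := fun x : Ed => ((x.i, x.j, x.l, x.m, x.n, x.s, x.q, x.k) :
      Bool × Bool × List (ℕ × ℕ) × ℕ × ℕ × ℚ × ℚ × ℕ)) ?_
  rintro ⟨i, j, l, m, n, s, q, k, hs, hq⟩ ⟨i', j', l', m', n', s', q', k', hs', hq'⟩ h
  simp only [Prod.mk.injEq] at h
  obtain ⟨h1, h2, h3, h4, h5, h6, h7, h8⟩ := h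
  subst h1 h2 h3 h4 h5 h6 h7 h8
  rfl

instance : Countable Bs := by
  refine Function.Injective.countable
    (f := fun x : Bs => (match x with
      | .nd y => Sum.inl y
      | .pa y => Sum.inr (Sum.inl y)
      | .ed y => Sum.inr (Sum.inr y) : Nd ⊕ Pa ⊕ Ed)) ?_
  rintro (x | x | x) (y | y | y) h <;> simp_all

instance : Countable Pt := by
  refine Function.Injective.countable
    (f := fun x : Pt => ((x.A, x.S, x.m) : List (Bs × ℚ) × St × ℕ)) ?_
  rintro ⟨i, a, m⟩ ⟨i', a', m'⟩ h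
  simp only [Prod.mk.injEq] at h
  obtain ⟨h1, h2, h3⟩ := h
  subst h1 h2 h3
  rfl

instance : Countable Ix := by
  refine Function.Injective.countable
    (f := fun x : Ix => (match x with
      | .bs y => Sum.inl y
      | .st => Sum.inr (Sum.inl ())
      | .un n => Sum.inr (Sum.inr (Sum.inl n))
      | .lb y k l => Sum.inr (Sum.inr (Sum.inr (Sum.inl (y, k, l))))
      | .pt p => Sum.inr (Sum.inr (Sum.inr (Sum.inr (Sum.inl p))))
      | .vx p t => Sum.inr (Sum.inr (Sum.inr (Sum.inr (Sum.inr (p, t))))) :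
        Bs ⊕ Unit ⊕ ℕ ⊕ (Nd × ℕ × ℕ) ⊕ Pt ⊕ (Pt × List (St × ℕ)))) ?_
  rintro (x | _ | x | ⟨x, k, l⟩ | x | ⟨x, t⟩) (y | _ | y | ⟨y, k', l'⟩ | y | ⟨y, t'⟩) h <;>
    simp_all

instance : TopologicalSpace Ix := ⊥

instance : DiscreteTopology Ix := ⟨rfl⟩

end Pool.Agent.H7.GH
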