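import Pool.Agent.H7.GH.LD

/-!
# GH-L1: the toolkit for `l^1(ι; F)`

`El ι F = lp (fun _ : ι => F) 1`, `Ll ι = El ι ℝ`, total functions `mk1`, `ex`, `mp`, `sh` of `LD.lean`.

* `norm_eq_tsum` from `lp.norm_eq_tsum_rpow` (`ENNReal.toReal_one`, `Real.rpow_one`), summability from
  `lp.memℓp` and `memℓp_gen_iff`.
* `mk1_apply`: the `if` in `mk1` is decided by `memℓp_gen_iff`.
* `hasSum_e1`: `lp.hasSum_single` (with `1 ≠ ∞`) and `lp.single 1 i (x i) = x i • e1 i`.
* `clm_ext`: a continuous linear map commutes with `HasSum`; uniqueness of sums.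
* `exists_ex`: `A x := ∑' i, x i • v i` (summable in norm because `‖x i • v i‖ ≤ C * |x i|`),
  `LinearMap.mkContinuous`.  `ex_e1`: the `if` in `ex` is decided, `choose_spec`.
  `hasSum_ex`: apply `ex v` to `hasSum_e1`.  `norm_ex_le`: from `hasSum_ex`,
  `‖ex v x‖ ≤ ∑' ‖x i • v i‖ ≤ C * ‖x‖`.
-/

set_option autoImplicit false
set_option linter.unusedVariables false
set_option linter.unusedSectionVars false
set_option linter.unusedSimpArgs false
set_option linter.unusedTactic false
set_option linter.unreachableTactic false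

namespace Pool.Agent.H7.GH

open Filter Topology
open scoped Ordinal ENNReal

variable {ι F F' F'' : Type} [NormedAddCommGroup F] [NormedAddCommGroup F'] [NormedAddCommGroup F'']

theorem summable_norm_coe (x : El ι F) : Summable fun i => ‖x i‖ := by
  have h := (lp.memℓp x).summable (by simp)
  simpa using h

theorem norm_eq_tsum (x : El ι F) : ‖x‖ = ∑' i, ‖x i‖ := by
  have h := lp.norm_eq_tsum_rpow (p := 1) (by simp) x
  simpa using h

theorem norm_coe_le (x : El ι F) (i : ι) : ‖x i‖ ≤ ‖x‖ := by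
  exact lp.norm_apply_le_norm one_ne_zero x i

theorem mk1_apply {v : ι → F} (h : Summable fun i => ‖v i‖) (i : ι) : mk1 v i = v i := by
  have hm : Memℓp v 1 := memℓp_gen (by simpa using h)
  unfold mk1
  rw [dif_pos hm]

theorem norm_e1 (i : ι) : ‖(e1 i : Ll ι)‖ = 1 := by
  classical
  unfold e1
  rw [lp.norm_single (by norm_num)]
  simp

theorem e1_self (i : ι) : (e1 i : Ll ι) i = 1 := by
  classical
  unfold e1
  exact lp.single_apply_self (E := fun _ : ι => ℝ) 1 i 1

theorem e1_ne {i j : ι} (h : j ≠ i) : (e1 i : Ll ι) j = 0 := by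
  classical
  unfold e1
  exact lp.single_apply_ne (E := fun _ : ι => ℝ) 1 i 1 h

theorem hasSum_e1 (x : Ll ι) : HasSum (fun i => x i • (e1 i : Ll ι)) x := by
  classical
  have h := lp.hasSum_single (p := 1) (by simp) x
  have e : (fun i => x i • (e1 i : Ll ι)) = fun i => lp.single 1 i (x i) := by
    funext i
    ext j
    by_cases hj : j = i
    · subst hj
      rw [lp.single_apply_self (E := fun _ : ι => ℝ) 1 j (x j)]
      change x j • (e1 j : Ll ι) j = x j
      rw [e1_self, smul_eq_mul, mul_one]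
    · rw [lp.single_apply_ne (E := fun _ : ι => ℝ) 1 i (x i) hj]
      change x i • (e1 i : Ll ι) j = 0
      rw [e1_ne hj, smul_zero]
  rw [e]
  exact h

theorem sh_apply (π : Equiv.Perm ι) (x : El ι F) (i : ι) : sh π x i = x (π i) := by
  unfold sh
  rw [mk1_apply]
  exact (summable_norm_coe x).comp_injective π.injective

theorem norm_sh (π : Equiv.Perm ι) (x : El ι F) : ‖sh π x‖ = ‖x‖ := by
  rw [norm_eq_tsum, norm_eq_tsum]
  simp only [sh_apply]
  exact π.tsum_eq (fun i => ‖x i‖)

theorem sh_add (π : Equiv.Perm ι) (x y : El ι F) : sh π (x + y) = sh π x + sh π y := by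
  ext i
  simp [sh_apply]

theorem sh_sub (π : Equiv.Perm ι) (x y : El ι F) : sh π (x - y) = sh π x - sh π y := by
  ext i
  simp [sh_apply]

theorem sh_zero (π : Equiv.Perm ι) : sh π (0 : El ι F) = 0 := by
  ext i
  simp [sh_apply]

theorem sh_one (x : El ι F) : sh 1 x = x := by
  ext i
  simp [sh_apply]

theorem sh_mul (π π' : Equiv.Perm ι) (x : El ι F) : sh (π * π') x = sh π' (sh π x) := by
  ext i
  simp [sh_apply]

theorem sh_symm_e1 (π : Equiv.Perm ι) (i : ι) : sh π.symm (e1 i : Ll ι) = e1 (π i) := by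
  ext j
  rw [sh_apply]
  by_cases h : j = π i
  · subst h
    rw [Equiv.symm_apply_apply, e1_self, e1_self]
  · rw [e1_ne h, e1_ne]
    intro h2
    apply h
    rw [← h2, Equiv.apply_symm_apply]

variable [NormedSpace ℝ F] [NormedSpace ℝ F'] [NormedSpace ℝ F'']

theorem clm_ext {A B : Ll ι →L[ℝ] F} (h : ∀ i, A (e1 i) = B (e1 i)) : A = B := by
  ext x
  have h1 := (hasSum_e1 x).mapL A
  have h2 := (hasSum_e1 x).mapL B
  simp only [map_smul] at h1 h2
  simp only [h] at h1
  exact h1.unique h2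

private theorem mp_summable (A : F →L[ℝ] F') (x : El ι F) : Summable fun i => ‖A (x i)‖ :=
  Summable.of_nonneg_of_le (fun _ => norm_nonneg _) (fun i => A.le_opNorm (x i))
    ((summable_norm_coe x).mul_left _)

theorem mp_apply (A : F →L[ℝ] F') (x : El ι F) (i : ι) : mp A x i = A (x i) := by
  unfold mp
  rw [mk1_apply]
  exact mp_summable A x

theorem norm_mp_le (A : F →L[ℝ] F') (x : El ι F) : ‖mp A x‖ ≤ ‖A‖ * ‖x‖ := by
  rw [norm_eq_tsum, norm_eq_tsum, ← tsum_mul_left]
  simp only [mp_apply]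
  exact (mp_summable A x).tsum_le_tsum (fun i => A.le_opNorm _)
    ((summable_norm_coe x).mul_left _)

theorem mp_add (A : F →L[ℝ] F') (x y : El ι F) : mp A (x + y) = mp A x + mp A y := by
  ext i
  simp [mp_apply]

theorem mp_sub (A : F →L[ℝ] F') (x y : El ι F) : mp A (x - y) = mp A x - mp A y := by
  ext i
  simp [mp_apply]

theorem mp_zero (A : F →L[ℝ] F') : mp A (0 : El ι F) = 0 := by
  ext i
  simp [mp_apply]

theorem mp_id (x : El ι F) : mp (ContinuousLinearMap.id ℝ F) x = x := by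
  ext i
  simp [mp_apply]

theorem mp_comp (A : F' →L[ℝ] F'') (B : F →L[ℝ] F') (x : El ι F) :
    mp (A.comp B) x = mp A (mp B x) := by
  ext i
  simp [mp_apply]

theorem mp_sh (A : F →L[ℝ] F') (π : Equiv.Perm ι) (x : El ι F) :
    mp A (sh π x) = sh π (mp A x) := by
  ext i
  simp [mp_apply, sh_apply]

variable [CompleteSpace F] {v : ι → F} {C : ℝ}

theorem exists_ex (h : ∀ i, ‖v i‖ ≤ C) : ∃ A : Ll ι →L[ℝ] F, ∀ i, A (e1 i) = v i := by
  have hC : ∀ x : Ll ι, ∀ i, ‖x i • v i‖ ≤ |C| * ‖x i‖ := by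
    intro x i
    rw [norm_smul, mul_comm]
    exact mul_le_mul_of_nonneg_right ((h i).trans (le_abs_self C)) (norm_nonneg _)
  have hs : ∀ x : Ll ι, Summable fun i => ‖x i • v i‖ := fun x =>
    Summable.of_nonneg_of_le (fun _ => norm_nonneg _) (hC x) ((summable_norm_coe x).mul_left _)
  let A0 : Ll ι →ₗ[ℝ] F :=
    { toFun := fun x => ∑' i, x i • v i
      map_add' := fun x y => by
        rw [← (hs x).of_norm.tsum_add (hs y).of_norm]
        refine tsum_congr fun i => ?_
        rw [← add_smul]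
        rfl
      map_smul' := fun c x => by
        simp only [RingHom.id_apply]
        rw [← tsum_const_smul'']
        refine tsum_congr fun i => ?_
        rw [smul_smul]
        rfl }
  refine ⟨A0.mkContinuous |C| ?_, ?_⟩
  · intro x
    change ‖∑' i, x i • v i‖ ≤ _
    refine (norm_tsum_le_tsum_norm (hs x)).trans ?_
    rw [norm_eq_tsum x, ← tsum_mul_left]
    exact (hs x).tsum_le_tsum (hC x) ((summable_norm_coe x).mul_left _)
  · intro i
    change ∑' j, (e1 i : Ll ι) j • v j = v i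
    rw [tsum_eq_single i, e1_self, one_smul]
    intro j hj
    rw [e1_ne hj, zero_smul]

theorem ex_e1 (h : ∀ i, ‖v i‖ ≤ C) (i : ι) : ex v (e1 i) = v i := by
  have hx := exists_ex h
  unfold ex
  rw [dif_pos hx]
  exact hx.choose_spec i

theorem hasSum_ex (h : ∀ i, ‖v i‖ ≤ C) (x : Ll ι) : HasSum (fun i => x i • v i) (ex v x) := by
  have h1 := (hasSum_e1 x).mapL (ex v)
  simpa only [map_smul, ex_e1 h] using h1

theorem norm_ex_le (hC : 0 ≤ C) (h : ∀ i, ‖v i‖ ≤ C) : ‖ex v‖ ≤ C := by
  refine ContinuousLinearMap.opNorm_le_bound _ hC fun x => ?_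
  have hb : ∀ i, ‖x i • v i‖ ≤ C * ‖x i‖ := by
    intro i
    rw [norm_smul, mul_comm]
    exact mul_le_mul_of_nonneg_right (h i) (norm_nonneg _)
  have hs : Summable fun i => ‖x i • v i‖ :=
    Summable.of_nonneg_of_le (fun _ => norm_nonneg _) hb ((summable_norm_coe x).mul_left _)
  rw [← (hasSum_ex h x).tsum_eq]
  refine (norm_tsum_le_tsum_norm hs).trans ?_
  rw [norm_eq_tsum x, ← tsum_mul_left]
  exact hs.tsum_le_tsum hb ((summable_norm_coe x).mul_left _)

end Pool.Agent.H7.GH
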