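import Pool.Agent.H7.GH.Df
import Pool.Agent.H82.GH.Rho

/-!
# GH-VI: elementary facts about infinite rank `VI` and the relation `Cr`

Toolkit: `W_iff`, `W_anti`, `W_mono`, `W_right`, `W_of_corr`, `W_ext_left`, `W_ext_right`, `corr_of_W`
(H82/GH/Rank.lean), `W_comp`, `W_swap` (H82/GH/RankInv.lean), `Corr.comp`, `Corr.swap`, `corr_self`,
`Corr.mono` (H82/GH/Rho.lean; import it if you need it).

* `W_sub`: induction on `α` (or `W_comp` with `W_of_corr (corr_self ..)` and error `0`).
* `VI_left`, `VI_right`: `VI` gives `W` for all `α < ω₁`, `W_ext_left` gives `y` good for all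
  `α < ω₁`; then `corr_of_W` (any slightly larger error) and `W_of_corr` make it good for all ordinals
  (use an intermediate error `ε < ε'' < ε'`).
* `VI_corr` : `corr_of_W`.  `VI_of_corr` : `W_of_corr`.
* `VI_of_cr` : `W_right`, `W_of_corr`.
* `VI_ext`: induction on `a` is possible, but simpler: take a correspondence `R` of distortion at most
  `ε` (`Cr`), choose `F` with `R x (F x)`, `b = a.map F`, `Corr f g ε (List.zip a b)`.
* `exists_profile`: if for all `ε'` in `(ε, q)` there was `α` with `W α ε' L` and not `W α ε L`: let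
  `B` be the set of ordinals `α` with not `W f g α ε L`.  If `B` is empty any `ε'` works.  Otherwise let
  `α₀` be its minimum.  By `W_right` there is `ε₁ > ε` with not `W α₀ ε₁ L`; put
  `ε' = min ε₁ ((ε + q) / 2)`; if `W α ε' L` then `W α ε₁ L`, so `α < α₀` (`W_anti`), so
  `W α ε L` by minimality.
-/

set_option autoImplicit false
set_option linter.unusedVariables false
set_option linter.unusedSectionVars false
set_option linter.unusedSimpArgs false
set_option linter.unusedTactic false
set_option linter.unreachableTactic false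

namespace Pool.Agent.H7.GH

open Pool.Agent.H82.GH Filter Topology
open scoped Ordinal ENNReal

variable {f g k : Fn} {ε ε' δ : ℝ} {L L' L1 L2 L3 : List (ℕ × ℕ)} {α : Ordinal.{0}}
  {a b c : List ℕ}

theorem W_sub (h : W f g α ε L) (hL : ∀ p ∈ L', p ∈ L) : W f g α ε L' := by
  have h2 : W g g α 0 (L.map (fun p => (p.2, p.2))) :=
    W_of_corr (corr_self g (by
      intro p hp
      obtain ⟨q, hq, rfl⟩ := List.mem_map.1 hp
      rfl)) α
  have := W_comp (L3 := L') h h2 (fun p hp =>
    ⟨p.2, hL p hp, List.mem_map.2 ⟨p, hL p hp, rfl⟩⟩)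
  rwa [add_zero] at this

theorem VI_mono (h : ε ≤ ε') (hV : VI f g ε L) : VI f g ε' L :=
  fun α => W_mono h (hV α)

theorem VI_lim (h : ∀ ε' > ε, VI f g ε' L) : VI f g ε L :=
  fun α => W_right (fun ε' h' => h ε' h' α)

theorem VI_sub (h : VI f g ε L) (hL : ∀ p ∈ L', p ∈ L) : VI f g ε L' :=
  fun α => W_sub (h α) hL

theorem VI_swap (h : VI f g ε L) : VI g f ε (L.map Prod.swap) :=
  fun α => W_swap (h α)

theorem VI_refl (f : Fn) (hε : 0 ≤ ε) (hL : ∀ p ∈ L, p.1 = p.2) : VI f f ε L :=
  fun α => W_mono hε (W_of_corr (corr_self f hL) α)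

theorem VI_comp (h1 : VI f g ε L1) (h2 : VI g k δ L2)
    (h : ∀ p ∈ L3, ∃ y, (p.1, y) ∈ L1 ∧ (y, p.2) ∈ L2) : VI f k (ε + δ) L3 :=
  fun α => W_comp (h1 α) (h2 α) h

theorem VI_of_corr (h : Corr f g ε L) : VI f g ε L := fun α => W_of_corr h α

theorem VI_left (h : VI f g ε L) (hε : ε < ε') (x : ℕ) : ∃ y, VI f g ε' ((x, y) :: L) := by
  obtain ⟨m, hm1, hm2⟩ := exists_between hε
  obtain ⟨y, hy⟩ := W_ext_left (fun α _ => h α) hm1 x
  exact ⟨y, VI_of_corr (corr_of_W hy hm2)⟩

theorem VI_right (h : VI f g ε L) (hε : ε < ε') (y : ℕ) : ∃ x, VI f g ε' ((x, y) :: L) := by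
  obtain ⟨m, hm1, hm2⟩ := exists_between hε
  obtain ⟨x, hx⟩ := W_ext_right (fun α _ => h α) hm1 y
  exact ⟨x, VI_of_corr (corr_of_W hx hm2)⟩

theorem VI_corr (h : VI f g ε L) (hε : ε < ε') : Corr f g ε' L :=
  corr_of_W (fun α _ => h α) hε

theorem VI_of_cr (h : Cr f g) : VI f g 0 [] :=
  VI_lim (fun ε' h' => VI_of_corr (h ε' h'))

theorem cr_of_VI (h : ∀ ε > 0, VI f g ε []) : Cr f g := by
  intro ε hε
  exact VI_corr (h (ε / 2) (by linarith [show (0 : ℝ) < ε from hε]))
    (by linarith [show (0 : ℝ) < ε from hε])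

theorem VI_leg (h : VI f g ε L) {p q : ℕ × ℕ} (hp : p ∈ L) (hq : q ∈ L) :
    |f p.1 q.1 - g p.2 q.2| ≤ ε :=
  (W_iff.1 (h 0)).1 p hp q hq

theorem Cr_refl (f : Fn) : Cr f f := by
  intro ε hε
  exact (corr_self f (L := []) (by simp)).mono (le_of_lt hε) (by simp)

theorem Cr_symm (h : Cr f g) : Cr g f := by
  intro ε hε
  simpa using (h ε hε).swap

theorem Cr_trans (h : Cr f g) (h' : Cr g k) : Cr f k := by
  intro ε hε
  have hε' : (0 : ℝ) < ε / 2 := half_pos hε
  have := (h (ε / 2) hε').comp (h' (ε / 2) hε') (L3 := []) (by simp)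
  rwa [add_halves] at this

/-- extension of the empty position -/
theorem VI_ext (h : Cr f g) (a : List ℕ) (hε : 0 < ε) :
    ∃ b : List ℕ, b.length = a.length ∧ VI f g ε (List.zip a b) := by
  obtain ⟨R, h1, h2, h3, -⟩ := h ε hε
  choose F hF using h1
  refine ⟨a.map F, by simp, VI_of_corr ⟨R, fun x => ⟨F x, hF x⟩, h2, h3, ?_⟩⟩
  have key : ∀ l : List ℕ, ∀ p ∈ List.zip l (l.map F), R p.1 p.2 := by
    intro l
    induction l with
    | nil => intro p hp; simp at hp
    | cons x l ih =>
      intro p hp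
      simp only [List.map_cons, List.zip_cons_cons, List.mem_cons] at hp
      rcases hp with rfl | hp
      · exact hF x
      · exact ih p hp
  exact key a

theorem VI_zip_refl (f : Fn) (a : List ℕ) (hε : 0 ≤ ε) : VI f f ε (List.zip a a) := by
  refine VI_refl f hε ?_
  induction a with
  | nil => intro p hp; simp at hp
  | cons x l ih =>
    intro p hp
    simp only [List.zip_cons_cons, List.mem_cons] at hp
    rcases hp with rfl | hp
    · rfl
    · exact ih p hp

theorem VI_zip_swap (h : VI f g ε (List.zip a b)) : VI g f ε (List.zip b a) := by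
  have := VI_swap h
  rwa [List.zip_swap] at this

theorem zip_cov (hab : a.length = b.length) (hbc : b.length = c.length) :
    ∀ p ∈ List.zip a c, ∃ y, (p.1, y) ∈ List.zip a b ∧ (y, p.2) ∈ List.zip b c := by
  intro p hp
  obtain ⟨i, hi, rfl⟩ := List.mem_iff_getElem.1 hp
  rw [List.length_zip] at hi
  have hia : i < a.length := lt_of_lt_of_le hi (min_le_left _ _)
  have hic : i < c.length := lt_of_lt_of_le hi (min_le_right _ _)
  have hib : i < b.length := hab ▸ hia
  refine ⟨b[i], ?_, ?_⟩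
  · refine List.mem_iff_getElem.2 ⟨i, by simp [hia, hib], by simp⟩
  · refine List.mem_iff_getElem.2 ⟨i, by simp [hic, hib], by simp⟩

theorem VI_zip_comp (hab : a.length = b.length) (hbc : b.length = c.length)
    (h1 : VI f g ε (List.zip a b)) (h2 : VI g k δ (List.zip b c)) :
    VI f k (ε + δ) (List.zip a c) :=
  VI_comp h1 h2 (zip_cov hab hbc)

theorem W_zip_comp (hab : a.length = b.length) (hbc : b.length = c.length)
    (h1 : W f g α ε (List.zip a b)) (h2 : VI g k δ (List.zip b c)) :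
    W f k α (ε + δ) (List.zip a c) :=
  W_comp h1 (h2 α) (zip_cov hab hbc)

theorem W_zip_comp' (hab : a.length = b.length) (hbc : b.length = c.length)
    (h1 : VI f g ε (List.zip a b)) (h2 : W g k α δ (List.zip b c)) :
    W f k α (ε + δ) (List.zip a c) :=
  W_comp (h1 α) h2 (zip_cov hab hbc)

/-- legality of a zipped position -/
theorem VI_zip_leg (h : VI f g ε (List.zip a b)) {i j : ℕ} (hi : i < a.length) (hj : j < a.length)
    (hab : a.length = b.length) :
    |f (a.getD i 0) (a.getD j 0) - g (b.getD i 0) (b.getD j 0)| ≤ ε := by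
  have key : ∀ i, i < a.length → (a.getD i 0, b.getD i 0) ∈ List.zip a b := by
    intro i hi
    have hib : i < b.length := hab ▸ hi
    refine List.mem_iff_getElem.2 ⟨i, by simp [hi, hib], ?_⟩
    simp [List.getD_eq_getElem, hi, hib]
  exact VI_leg h (key i hi) (key j hj)

theorem exists_profile (f g : Fn) (L : List (ℕ × ℕ)) {ε q : ℝ} (h : ε < q) :
    ∃ ε' > ε, ε' < q ∧ ∀ α : Ordinal.{0}, W f g α ε' L → W f g α ε L := by
  by_cases hB : ∃ α : Ordinal.{0}, ¬ W f g α ε L
  · have hmin : ∃ α₀ : Ordinal.{0}, ¬ W f g α₀ ε L ∧ ∀ α < α₀, W f g α ε L := by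
      classical
      obtain ⟨α₀, h0, h1⟩ := WellFounded.has_min (wellFounded_lt (α := Ordinal.{0}))
        {α | ¬ W f g α ε L} hB
      exact ⟨α₀, h0, fun α hα => by_contra fun hc => h1 α hc hα⟩
    obtain ⟨α₀, h0, h1⟩ := hmin
    have hex : ∃ ε₁ > ε, ¬ W f g α₀ ε₁ L := by
      by_contra hc
      push Not at hc
      exact h0 (W_right hc)
    obtain ⟨ε₁, he1, he2⟩ := hex
    refine ⟨min ε₁ ((ε + q) / 2), lt_min he1 (by linarith), lt_of_le_of_lt (min_le_right _ _)
      (by linarith), fun α hα => h1 α ?_⟩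
    by_contra hc
    push Not at hc
    exact he2 (W_anti hc (W_mono (min_le_left _ _) hα))
  · push Not at hB
    exact ⟨(ε + q) / 2, by linarith, by linarith, fun α _ => hB α⟩

end Pool.Agent.H7.GH
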