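import Pool.Agent.H7.GH.Nm
import Pool.Agent.H7.GH.L1
import Pool.Agent.H7.GH.Vi

/-!
# GH-N1: elementary facts about the relations `R`, `NN`, and the edges

* `NN H` is a closed submodule (`Submodule.isClosed_topologicalClosure`), `R_mem` from
  `Submodule.subset_span` and `Submodule.le_topologicalClosure`.
* `clm_NN`: a continuous linear map which maps the valid relations into a closed submodule `P` maps
  `NN H` into `P` (`Submodule.topologicalClosure_minimal`, `Submodule.map_le_iff_le_comap` /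
  `Submodule.span_le`, preimage of a closed set is closed).
* `exists_edge`: `s` rational with `δ < s < q` (`exists_rat_btwn`), `s ≥ 0`; the edge
  `⟨i, j, List.zip a b, m, n, s, q, k, _, _⟩`, `List.map_fst_zip`, `List.map_snd_zip`, `VI_mono`.
* `edge_NN`: `R (ed e) ∈ NN H` multiplied by `-q` (`q > 0`).
* `exists_approx`: the set of the `uA B`, `B` a list of valid names with rational coefficients, is dense in
  `NN H`: elements of the span are finite real combinations (`Submodule.span_induction`: prove that the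
  property `P x := ∀ ε > 0, ∃ B, .. ‖x - uA B‖ < ε` holds for the generators (`B = [(b, 1)]`), `0`
  (`B = []`), sums (`uA_append`), real multiples: for `c • x` with `‖x - uA B‖ < ε'` take a rational
  `c'` close to `c` and `B' = B.map (fun y => (y.1, c' * y.2))`, `uA B' = c' • uA B`), then closure
  (`Metric.mem_closure_iff`).
-/

set_option autoImplicit false
set_option linter.unusedVariables false
set_option linter.unusedSectionVars false
set_option linter.unusedSimpArgs false
set_option linter.unusedTactic false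
set_option linter.unreachableTactic false

namespace Pool.Agent.H7.GH

open Pool.Agent.H82.GH Filter Topology
open scoped Ordinal ENNReal

variable {H : Pr} {f g : Fn}

theorem isClosed_NN (H : Pr) : IsClosed ((NN H : Submodule ℝ L) : Set L) :=
  Submodule.isClosed_topologicalClosure _

theorem R_mem {b : Bs} (h : Vl H b) : R b ∈ NN H :=
  Submodule.le_topologicalClosure _ (Submodule.subset_span ⟨b, h, rfl⟩)

theorem clm_NN {F : Type} [NormedAddCommGroup F] [NormedSpace ℝ F] (A : L →L[ℝ] F)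
    (P : Submodule ℝ F) (hP : IsClosed (P : Set F)) (h : ∀ b, Vl H b → A (R b) ∈ P) {x : L}
    (hx : x ∈ NN H) : A x ∈ P := by
  have h1 : NN H ≤ P.comap (A : L →ₗ[ℝ] F) := by
    refine Submodule.topologicalClosure_minimal _ (Submodule.span_le.2 ?_)
      (hP.preimage A.continuous)
    rintro y ⟨b, hb, rfl⟩
    exact h b hb
  exact h1 hx

theorem Vl_nd (y : Nd) : Vl H (.nd y) := by
  intro p hp
  simp [ps] at hp

theorem Vl_pa (x : Pa) : Vl H (.pa x) := by
  intro p hp
  simp [ps] at hp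

theorem Vl_ed (e : Ed) : Vl H (.ed e) ↔ PI H e.p := by
  simp [Vl, ps]

theorem uA_nil : uA [] = 0 := by
  simp [uA]

theorem uA_cons (x : Bs × ℚ) (A : List (Bs × ℚ)) : uA (x :: A) = (x.2 : ℝ) • R x.1 + uA A := by
  simp [uA]

theorem uA_append (A B : List (Bs × ℚ)) : uA (A ++ B) = uA A + uA B := by
  simp [uA]

theorem uA_mem {A : List (Bs × ℚ)} (h : ∀ x ∈ A, Vl H x.1) : uA A ∈ NN H := by
  induction A with
  | nil =>
    rw [uA_nil]
    exact Submodule.zero_mem _
  | cons x A ih =>
    rw [uA_cons]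
    exact Submodule.add_mem _ (Submodule.smul_mem _ _ (R_mem (h x List.mem_cons_self)))
      (ih fun y hy => h y (List.mem_cons_of_mem _ hy))

theorem exists_edge (H : Pr) (i j : Bool) {a b : List ℕ} (hab : a.length = b.length) (m n k : ℕ)
    {δ : ℝ} (h0 : 0 ≤ δ) {q : ℚ} (hq : δ < q) (hV : VI (H i) (H j) δ (List.zip a b)) :
    ∃ e : Ed, e.x = ⟨i, a, m⟩ ∧ e.y = ⟨j, b, n⟩ ∧ e.l = List.zip a b ∧ e.q = q ∧ e.k = k ∧
      PI H e.p := by
  obtain ⟨s, hs1, hs2⟩ := exists_rat_btwn hq
  have hs0 : (0 : ℚ) ≤ s := by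
    have h1 : (0 : ℝ) < s := lt_of_le_of_lt h0 hs1
    have h2 : (0 : ℚ) < s := by exact_mod_cast h1
    exact h2.le
  have hsq : s < q := by exact_mod_cast hs2
  refine ⟨⟨i, j, List.zip a b, m, n, s, q, k, hs0, hsq⟩, ?_, ?_, rfl, rfl, rfl, ?_⟩
  · unfold Ed.x
    dsimp only
    rw [List.map_fst_zip hab.le]
  · unfold Ed.y
    dsimp only
    rw [List.map_snd_zip hab.ge]
  · exact VI_mono hs1.le hV

theorem edge_NN {e : Ed} (h : PI H e.p) :
    en e.x - en e.y - (e.q : ℝ) • e1 (Ix.bs (.ed e)) ∈ NN H := by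
  have h1 := Submodule.smul_mem (NN H) (-(e.q : ℝ)) (R_mem ((Vl_ed e).2 h))
  have hq : (e.q : ℝ) ≠ 0 := by
    have h2 : (0 : ℚ) < e.q := lt_of_le_of_lt e.hs e.hq
    have h3 : (0 : ℝ) < e.q := by exact_mod_cast h2
    exact h3.ne'
  have e1' : (-(e.q : ℝ)) • R (.ed e) =
      en e.x - en e.y - (e.q : ℝ) • e1 (Ix.bs (.ed e)) := by
    unfold R
    rw [smul_sub, smul_smul, neg_mul, mul_inv_cancel₀ hq, neg_smul, neg_smul, one_smul]
    abel
  rwa [e1'] at h1

/-- names of the same tuple are equal modulo `NN` if the structures of the copies agree -/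
theorem twin (f : Fn) (i j : Bool) (a : List ℕ) (m n : ℕ) :
    en ⟨i, a, m⟩ - en ⟨j, a, n⟩ ∈ NN (dg f) := by
  have hcl := isClosed_NN (dg f)
  rw [← SetLike.mem_coe, ← hcl.closure_eq, Metric.mem_closure_iff]
  intro ε hε
  obtain ⟨q, hq1, hq2⟩ := exists_rat_btwn hε
  obtain ⟨e, h1, h2, -, h4, -, h6⟩ := exists_edge (dg f) i j (a := a) (b := a) rfl m n 0 le_rfl hq1
    (VI_zip_refl f a le_rfl)
  have h7 := edge_NN h6
  rw [h1, h2, h4] at h7
  refine ⟨_, h7, ?_⟩
  rw [dist_eq_norm, sub_sub_cancel, norm_smul, norm_e1, mul_one, Real.norm_of_nonneg hq1.le]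
  exact hq2

private theorem n1_scale (c : ℚ) (B : List (Bs × ℚ)) :
    uA (B.map fun y => (y.1, c * y.2)) = (c : ℝ) • uA B := by
  induction B with
  | nil => simp [uA_nil]
  | cons x B ih =>
    rw [List.map_cons, uA_cons, uA_cons, ih, smul_add, smul_smul]
    push_cast
    rfl

private theorem n1_span {x : L} (hx : x ∈ Submodule.span ℝ {x | ∃ b, Vl H b ∧ x = R b}) :
    ∀ ε > (0 : ℝ), ∃ B : List (Bs × ℚ), (∀ y ∈ B, Vl H y.1) ∧ ‖x - uA B‖ < ε := by
  induction hx using Submodule.span_induction with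
  | mem x h =>
    obtain ⟨b, hb, rfl⟩ := h
    intro ε hε
    refine ⟨[(b, 1)], ?_, ?_⟩
    · intro y hy
      rw [List.mem_singleton] at hy
      rw [hy]
      exact hb
    · rw [uA_cons, uA_nil]
      simpa using hε
  | zero =>
    intro ε hε
    refine ⟨[], by simp, ?_⟩
    rw [uA_nil]
    simpa using hε
  | add x y _ _ hx hy =>
    intro ε hε
    obtain ⟨B1, h1, h2⟩ := hx (ε / 2) (half_pos hε)
    obtain ⟨B2, h3, h4⟩ := hy (ε / 2) (half_pos hε)
    refine ⟨B1 ++ B2, ?_, ?_⟩
    · intro z hz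
      rcases List.mem_append.1 hz with hz | hz
      · exact h1 z hz
      · exact h3 z hz
    · rw [uA_append]
      calc ‖x + y - (uA B1 + uA B2)‖ = ‖(x - uA B1) + (y - uA B2)‖ := by
            congr 1
            abel
        _ ≤ ‖x - uA B1‖ + ‖y - uA B2‖ := norm_add_le _ _
        _ < ε := by linarith
  | smul c x _ hx =>
    intro ε hε
    have hc : 0 < |c| + 1 := by positivity
    obtain ⟨B, h1, h2⟩ := hx (ε / (2 * (|c| + 1))) (by positivity)
    have hB : 0 < ‖uA B‖ + 1 := by positivity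
    obtain ⟨c', h3, h4⟩ := exists_rat_btwn (show c < c + ε / (2 * (‖uA B‖ + 1)) by
      have : 0 < ε / (2 * (‖uA B‖ + 1)) := by positivity
      linarith)
    refine ⟨B.map fun y => (y.1, c' * y.2), ?_, ?_⟩
    · intro y hy
      obtain ⟨z, hz, rfl⟩ := List.mem_map.1 hy
      exact h1 z hz
    · rw [n1_scale]
      have h5 : c • x - (c' : ℝ) • uA B = c • (x - uA B) + (c - c') • uA B := by
        rw [smul_sub, sub_smul]
        abel
      have h6 : |c - c'| ≤ ε / (2 * (‖uA B‖ + 1)) := by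
        rw [abs_le]
        constructor <;> linarith
      have h7 : ‖c • (x - uA B)‖ < ε / 2 := by
        rw [norm_smul, Real.norm_eq_abs]
        have h8 : |c| * ‖x - uA B‖ ≤ |c| * (ε / (2 * (|c| + 1))) :=
          mul_le_mul_of_nonneg_left h2.le (abs_nonneg _)
        have h9 : |c| * (ε / (2 * (|c| + 1))) < ε / 2 := by
          rw [← mul_div_assoc, div_lt_div_iff₀ (by positivity) (by norm_num)]
          nlinarith [abs_nonneg c]
        linarith
      have h8 : ‖(c - c') • uA B‖ ≤ ε / 2 := by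
        rw [norm_smul, Real.norm_eq_abs]
        have h9 : |c - c'| * ‖uA B‖ ≤ ε / (2 * (‖uA B‖ + 1)) * ‖uA B‖ :=
          mul_le_mul_of_nonneg_right h6 (norm_nonneg _)
        have h10 : ε / (2 * (‖uA B‖ + 1)) * ‖uA B‖ ≤ ε / 2 := by
          rw [div_mul_eq_mul_div, div_le_div_iff₀ (by positivity) (by norm_num)]
          nlinarith [norm_nonneg (uA B)]
        linarith
      rw [h5]
      calc _ ≤ ‖c • (x - uA B)‖ + ‖(c - c') • uA B‖ := norm_add_le _ _
        _ < ε := by linarith

theorem exists_approx {x : L} (hx : x ∈ NN H) {ε : ℝ} (hε : 0 < ε) :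
    ∃ B : List (Bs × ℚ), (∀ y ∈ B, Vl H y.1) ∧ ‖x - uA B‖ < ε := by
  have h1 : x ∈ closure ((Submodule.span ℝ {x | ∃ b, Vl H b ∧ x = R b} : Submodule ℝ L) :
      Set L) := hx
  obtain ⟨y, hy, h2⟩ := Metric.mem_closure_iff.1 h1 (ε / 2) (half_pos hε)
  obtain ⟨B, h3, h4⟩ := n1_span hy (ε / 2) (half_pos hε)
  refine ⟨B, h3, ?_⟩
  rw [dist_eq_norm] at h2
  calc ‖x - uA B‖ = ‖(x - y) + (y - uA B)‖ := by
        congr 1
        abel
    _ ≤ ‖x - y‖ + ‖y - uA B‖ := norm_add_le _ _
    _ < ε := by linarith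

end Pool.Agent.H7.GH
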