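import Pool.Agent.H7.GH.Nm
import Pool.Agent.H7.GH.N1
import Pool.Agent.H7.GH.Cn

/-!
# GH-B0: definitions for the backward direction

`dd g`: the truncated pseudometric on the tuples of one length; `phi g b` the distance from `b`;
`evv`, `ev`: the functional on `L` given by a function on tuples; `Bk f g`: an isomorphism of the codings of
`f` and `g`.

* `dd` is like `rho` in H82/GH/Rho.lean.  `dd_tri`: `le_csInf`, `csInf_le`; if one of the two errors is
  `≥ 1` the sum is, otherwise `VI_zip_comp`.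
* `VI_of_dd_lt`: `exists_lt_of_csInf_lt`, the member `r' < r ≤ 1` has `VI`, `VI_mono`.
-/

set_option autoImplicit false
set_option linter.unusedVariables false
set_option linter.unusedSectionVars false
set_option linter.unusedSimpArgs false
set_option linter.unusedTactic false
set_option linter.unreachableTactic false

namespace Pool.Agent.H7.GH

open Pool.Agent.H82.GH Filter Topology
open scoped Ordinal ENNReal

variable {f g : Fn} {a b c : List ℕ} {r : ℝ}

/-- the truncated distance of two tuples of the same length -/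
noncomputable def dd (g : Fn) (a b : List ℕ) : ℝ :=
  sInf {r | 0 ≤ r ∧ (1 ≤ r ∨ VI g g r (List.zip a b))}

private theorem B0_bdd (g : Fn) (a b : List ℕ) :
    BddBelow {r : ℝ | 0 ≤ r ∧ (1 ≤ r ∨ VI g g r (List.zip a b))} := ⟨0, fun _ h => h.1⟩

private theorem B0_one (g : Fn) (a b : List ℕ) :
    (1 : ℝ) ∈ {r : ℝ | 0 ≤ r ∧ (1 ≤ r ∨ VI g g r (List.zip a b))} :=
  ⟨zero_le_one, Or.inl le_rfl⟩

private theorem B0_le {x : ℝ}
    (h : ∀ r : ℝ, 0 ≤ r → (1 ≤ r ∨ VI g g r (List.zip a b)) → x ≤ r) : x ≤ dd g a b :=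
  le_csInf ⟨1, B0_one g a b⟩ fun r hr => h r hr.1 hr.2

theorem dd_nonneg (g : Fn) (a b : List ℕ) : 0 ≤ dd g a b :=
  le_csInf ⟨1, B0_one g a b⟩ fun _ h => h.1

theorem dd_le_one (g : Fn) (a b : List ℕ) : dd g a b ≤ 1 :=
  csInf_le (B0_bdd g a b) (B0_one g a b)

theorem dd_le (h0 : 0 ≤ r) (h : VI g g r (List.zip a b)) : dd g a b ≤ r :=
  csInf_le (B0_bdd g a b) ⟨h0, Or.inr h⟩

theorem dd_self (g : Fn) (a : List ℕ) : dd g a a = 0 :=
  le_antisymm (dd_le le_rfl (VI_zip_refl g a le_rfl)) (dd_nonneg g a a)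

private theorem B0_symm_le (g : Fn) (a b : List ℕ) : dd g a b ≤ dd g b a := by
  refine B0_le fun r h0 h => ?_
  rcases h with h | h
  · exact (dd_le_one g a b).trans h
  · exact dd_le h0 (VI_zip_swap h)

theorem dd_symm (g : Fn) (a b : List ℕ) : dd g a b = dd g b a :=
  le_antisymm (B0_symm_le g a b) (B0_symm_le g b a)

theorem VI_of_dd_lt (h : dd g a b < r) (h1 : r ≤ 1) : VI g g r (List.zip a b) := by
  obtain ⟨r', ⟨h0, h2⟩, h3⟩ := exists_lt_of_csInf_lt ⟨1, B0_one g a b⟩ h
  rcases h2 with h2 | h2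
  · exact absurd (h3.trans_le h1) (not_lt.2 h2)
  · exact VI_mono h3.le h2

theorem dd_tri (g : Fn) (hab : a.length = b.length) (hbc : b.length = c.length) :
    dd g a c ≤ dd g a b + dd g b c := by
  rw [← sub_le_iff_le_add]
  refine B0_le fun r h0 h1 => ?_
  rw [sub_le_iff_le_add, ← sub_le_iff_le_add']
  refine B0_le fun s h2 h3 => ?_
  rw [sub_le_iff_le_add']
  rcases h3 with h3 | h3
  · exact (dd_le_one g a c).trans (by linarith)
  rcases h1 with h1 | h1
  · exact (dd_le_one g a c).trans (by linarith)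
  exact dd_le (by linarith) (VI_zip_comp hab hbc h1 h3)

/-- the distance from `b`, on tuples of the same length -/
noncomputable def phi (g : Fn) (b x : List ℕ) : ℝ := if x.length = b.length then dd g x b else 0

open Classical in
/-- the values of the functional of `φ` on the basis -/
noncomputable def evv (g : Fn) (φ : List ℕ → ℝ) : Ix → ℝ
  | .bs (.nd y) => φ y.a
  | .bs (.pa x) => φ (x.c :: x.a) - φ x.a
  | .bs (.ed e) => if VI g g (e.s : ℝ) e.l then
      (e.q : ℝ)⁻¹ * (φ (e.l.map Prod.fst) - φ (e.l.map Prod.snd)) else 0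
  | _ => 0

/-- the functional of `φ` -/
noncomputable def ev (g : Fn) (φ : List ℕ → ℝ) : L →L[ℝ] ℝ := ex (evv g φ)

/-- `φ` has values in `[0, 1]` and is Lipschitz for `dd` -/
structure Lp (g : Fn) (φ : List ℕ → ℝ) : Prop where
  nn : ∀ a, 0 ≤ φ a
  le : ∀ a, φ a ≤ 1
  lip : ∀ a b, a.length = b.length → |φ a - φ b| ≤ dd g a b

/-- an isomorphism of the codings of `f` and `g` (with its inverse) -/
structure Bk (f g : Fn) where
  /-- the permutation -/
  π : Equiv.Perm Ix
  /-- the linear map -/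
  M : L →L[ℝ] L
  /-- its inverse -/
  M' : L →L[ℝ] L
  /-- the corrections on the basis -/
  W : Ix → L
  /-- the corrections of the inverse -/
  W' : Ix → L
  /-- the translations -/
  w : Ix → L
  /-- the translations of the inverse -/
  w' : Ix → L
  hM : ∀ x, M' (M x) = x
  hM' : ∀ x, M (M' x) = x
  hW : ∀ q, M (e1 q) = e1 (π q) + W q
  hW' : ∀ q, M' (e1 q) = e1 (π.symm q) + W' q
  tW : Tendsto W cofinite (𝓝 0)
  tW' : Tendsto W' cofinite (𝓝 0)
  tw : Tendsto w cofinite (𝓝 0)
  tw' : Tendsto w' cofinite (𝓝 0)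
  hs : ∀ q, srt (π q) = srt q
  hr : ∀ q q', rel (dg g) (π q) (π q') = rel (dg f) q q'
  hl : ∀ q, loc (dg g) (π q) = M (loc (dg f) q) + w q
  hl' : ∀ q, loc (dg f) (π.symm q) = M' (loc (dg g) q) + w' q

/-- the inverse isomorphism -/
def Bk.symm (B : Bk f g) : Bk g f where
  π := B.π.symm
  M := B.M'
  M' := B.M
  W := B.W'
  W' := B.W
  w := B.w'
  w' := B.w
  hM := B.hM'
  hM' := B.hM
  hW := B.hW'
  hW' := B.hW
  tW := B.tW'
  tW' := B.tW
  tw := B.tw'
  tw' := B.tw
  hs := fun q => by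
    have := B.hs (B.π.symm q)
    rw [Equiv.apply_symm_apply] at this
    exact this.symm
  hr := fun q q' => by
    have := B.hr (B.π.symm q) (B.π.symm q')
    rw [Equiv.apply_symm_apply, Equiv.apply_symm_apply] at this
    exact this.symm
  hl := B.hl'
  hl' := B.hl

end Pool.Agent.H7.GH
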