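import Pool.Agent.H7.GH.B0

/-!
# GH-B1: the functionals

* `phi_lp`: `dd_nonneg`, `dd_le_one`; for `|a| = |a'| = |b|`: `|dd a b - dd a' b| ≤ dd a a'` by `dd_tri`,
  `dd_symm`; otherwise both values are `0`.
* `evv_le`: `|evv g φ q| ≤ 1`: an edge with `VI g g e.s e.l` has
  `dd g (l.map fst) (l.map snd) ≤ e.s < e.q` (`dd_le`, `zip (map fst) (map snd) = l`,
  `0 ≤ e.s`), so `|φ _ - φ _| ≤ e.q`.
* `ev_e1`: `ex_e1`.
* `ev_NN`: `clm_NN` with `P = ⊥` (closed), `ev (R b) = 0` for valid `b`: `map_sub`, `map_smul`, `ev_e1`;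
  `Pa.x`, `Pa.y`, `Ed.x`, `Ed.y` unfold to the tuples; `Vl_ed`: `PI (dg g) e.p` is
  `VI g g e.s e.l`.
* `abs_ev_le`: `|ev g φ x| ≤ ‖x‖` (`norm_ex_le`).
-/

set_option autoImplicit false
set_option linter.unusedVariables false
set_option linter.unusedSectionVars false
set_option linter.unusedSimpArgs false
set_option linter.unusedTactic false
set_option linter.unreachableTactic false

namespace Pool.Agent.H7.GH

open Pool.Agent.H82.GH Filter Topology
open scoped Ordinal ENNReal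

variable {f g : Fn} {φ : List ℕ → ℝ} {a b : List ℕ}

theorem phi_lp (g : Fn) (b : List ℕ) : Lp g (phi g b) := by
  refine ⟨fun a => ?_, fun a => ?_, fun a a' h => ?_⟩
  · unfold phi
    split_ifs
    · exact dd_nonneg g a b
    · exact le_rfl
  · unfold phi
    split_ifs
    · exact dd_le_one g a b
    · exact zero_le_one
  · unfold phi
    by_cases ha : a.length = b.length
    · have ha' : a'.length = b.length := h ▸ ha
      rw [if_pos ha, if_pos ha', abs_le]
      have h1 := dd_tri g h ha'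
      have h2 := dd_tri g h.symm ha
      have h3 := dd_symm g a' a
      constructor <;> linarith
    · have ha' : ¬ a'.length = b.length := h ▸ ha
      rw [if_neg ha, if_neg ha', sub_zero, abs_zero]
      exact dd_nonneg g a a'

private theorem ab_le (h : Lp g φ) (a b : List ℕ) : |φ a - φ b| ≤ 1 := by
  rw [abs_le]
  have h1 := h.nn a
  have h2 := h.nn b
  have h3 := h.le a
  have h4 := h.le b
  constructor <;> linarith

private theorem zip_fs (l : List (ℕ × ℕ)) : List.zip (l.map Prod.fst) (l.map Prod.snd) = l := by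
  induction l with
  | nil => rfl
  | cons x l ih => rw [List.map_cons, List.map_cons, List.zip_cons_cons, ih]

theorem evv_le (h : Lp g φ) (q : Ix) : ‖evv g φ q‖ ≤ 1 := by
  classical
  rw [Real.norm_eq_abs]
  rcases q with (y | x | e) | _ | n | ⟨y, k, l⟩ | p | ⟨p, t⟩
  · show |φ y.a| ≤ 1
    rw [abs_of_nonneg (h.nn _)]
    exact h.le _
  · show |φ (x.c :: x.a) - φ x.a| ≤ 1
    exact ab_le h _ _
  · show |if VI g g (e.s : ℝ) e.l then
      (e.q : ℝ)⁻¹ * (φ (e.l.map Prod.fst) - φ (e.l.map Prod.snd)) else 0| ≤ 1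
    split_ifs with hv
    · have hs0 : (0 : ℝ) ≤ (e.s : ℝ) := by exact_mod_cast e.hs
      have hsq : (e.s : ℝ) < (e.q : ℝ) := by exact_mod_cast e.hq
      have hq0 : (0 : ℝ) < (e.q : ℝ) := lt_of_le_of_lt hs0 hsq
      have hd : dd g (e.l.map Prod.fst) (e.l.map Prod.snd) ≤ (e.s : ℝ) := by
        refine dd_le hs0 ?_
        rw [zip_fs]
        exact hv
      have hl := h.lip (e.l.map Prod.fst) (e.l.map Prod.snd) (by simp)
      rw [abs_mul, abs_inv, abs_of_pos hq0, inv_mul_le_iff₀ hq0, mul_one]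
      linarith
    · simp
  all_goals
    show |(0 : ℝ)| ≤ 1
    simp

theorem ev_e1 (h : Lp g φ) (q : Ix) : ev g φ (e1 q) = evv g φ q :=
  ex_e1 (evv_le h) q

theorem ev_en (h : Lp g φ) (y : Nd) : ev g φ (en y) = φ y.a :=
  ev_e1 h _

theorem abs_ev_le (h : Lp g φ) (x : L) : |ev g φ x| ≤ ‖x‖ := by
  have h1 := (ev g φ).le_opNorm x
  have h2 : ‖ev g φ‖ ≤ 1 := norm_ex_le zero_le_one (evv_le h)
  rw [Real.norm_eq_abs] at h1
  calc |ev g φ x| ≤ ‖ev g φ‖ * ‖x‖ := h1
    _ ≤ 1 * ‖x‖ := mul_le_mul_of_nonneg_right h2 (norm_nonneg _)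
    _ = ‖x‖ := one_mul _

theorem ev_NN (h : Lp g φ) {x : L} (hx : x ∈ NN (dg g)) : ev g φ x = 0 := by
  classical
  have key : ev g φ x ∈ (⊥ : Submodule ℝ ℝ) := by
    refine clm_NN (ev g φ) ⊥ ?_ ?_ hx
    · rw [Submodule.bot_coe]
      exact isClosed_singleton
    · intro b hb
      rw [Submodule.mem_bot]
      rcases b with y | p | e
      · show ev g φ 0 = 0
        rw [map_zero]
      · show ev g φ (e1 (Ix.bs (.pa p)) - (en p.x - en p.y)) = 0
        rw [map_sub, map_sub, ev_e1 h, ev_en h, ev_en h]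
        show φ (p.c :: p.a) - φ p.a - (φ (p.c :: p.a) - φ p.a) = 0
        ring
      · show ev g φ (e1 (Ix.bs (.ed e)) - ((e.q : ℝ)⁻¹) • (en e.x - en e.y)) = 0
        rw [map_sub, map_smul, map_sub, ev_e1 h, ev_en h, ev_en h]
        have hv : VI g g (e.s : ℝ) e.l := Vl_ed e |>.1 hb
        show (if VI g g (e.s : ℝ) e.l then
          (e.q : ℝ)⁻¹ * (φ (e.l.map Prod.fst) - φ (e.l.map Prod.snd)) else 0) -
          (e.q : ℝ)⁻¹ • (φ (e.l.map Prod.fst) - φ (e.l.map Prod.snd)) = 0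
        rw [if_pos hv, smul_eq_mul, sub_self]
  exact (Submodule.mem_bot ℝ).1 key

end Pool.Agent.H7.GH
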