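import Pool.Agent.H7.GH.Rg2b
import Pool.Agent.H7.GH.Vi

/-!
# GH-RG3: states of infinite rank

* `rg_inf_iff`: `→`: if not `PI H p`, there is `α` with not `PV H α p`, so not `PV H (α + 1) p`, and
  `rg_upper` bounds the ranks.  `←`: `rg_lower` with `β = τ`.
* `exists_inf_child`: by `rg_inf_iff` and the definition: for every `γ` there is `T` with `Tr H S T` and
  `rg H γ T`; if no child has infinite rank, choose for each `T : St` with not all ranks an ordinal
  `b T` with not `rg H (b T) T`; `St` is countable, so `⨆ T, b T` exists and bounds all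
  (`Ordinal.le_iSup`), apply with `γ = ⨆ T, b T`.
* `inf_path`: from an infinite `Tr`-path: by induction on `τ` for all `k`.
* `exists_path`: iterate `exists_inf_child` (dependent choice, e.g. a function on the subtype of states of
  infinite rank, `Nat.rec`).
* `PV_max`: if `PV H 0 p` and not `PI H p` then there is `β` with `PV H β p` and not `PV H (β + 1) p`
  (least ordinal `σ` with not `PV H σ p`; not `0`; not a limit because of `W_iff`: for `γ < σ` use
  `γ + 1 < σ`).
-/

set_option autoImplicit false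
set_option linter.unusedVariables false
set_option linter.unusedSectionVars false
set_option linter.unusedSimpArgs false
set_option linter.unusedTactic false
set_option linter.unreachableTactic false

namespace Pool.Agent.H7.GH

open Pool.Agent.H82.GH Filter Topology
open scoped Ordinal ENNReal

variable {H : Pr} {S T : St} {β γ τ : Ordinal.{0}} {p : Pos} {v n : ℕ}

theorem rg_inf_iff : (∀ τ, rg H τ S) ↔ ∀ o ∈ S, PI H o.1 := by
  constructor
  · intro h o ho
    by_contra hn
    have h1 : ∃ α, ¬ PV H α o.1 := by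
      unfold PI VI at hn
      push Not at hn
      exact hn
    obtain ⟨α, hα⟩ := h1
    have h2 : ¬ PV H (α + 1) o.1 := fun h3 => hα (W_anti (le_of_lt (Order.lt_succ α)) h3)
    have h4 : (o.1, o.2.1, o.2.2) ∈ S := ho
    exact absurd (rg_upper h4 h2 (h (α + ω ^ ω))) (lt_irrefl _)
  · intro h τ
    refine rg_lower τ S fun o ho => ⟨τ, h o ho τ, ?_⟩
    exact le_self_add

theorem exists_inf_child (h : ∀ τ, rg H τ S) : ∃ T, Tr H S T ∧ ∀ τ, rg H τ T := by
  by_contra hcon
  push Not at hcon
  have h1 : ∀ T : St, ∃ b : Ordinal.{0}, Tr H S T → ¬ rg H b T := by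
    intro T
    by_cases hT : Tr H S T
    · obtain ⟨b, hb⟩ := hcon T hT
      exact ⟨b, fun _ => hb⟩
    · exact ⟨0, fun h => absurd h hT⟩
  choose b hb using h1
  obtain ⟨T, hT, hr⟩ := (rg_iff.1 (h ((⨆ T, b T) + 1))).2 (⨆ T, b T) (Order.lt_succ _)
  exact hb T hT (rg_anti (Ordinal.le_iSup b T) hr)

theorem exists_path (h : ∀ τ, rg H τ S) : ∃ P : ℕ → St, P 0 = S ∧ ∀ k, Tr H (P k) (P (k + 1)) := by
  have hstep : ∀ x : {S : St // ∀ τ, rg H τ S}, ∃ y : {S : St // ∀ τ, rg H τ S},
      Tr H x.1 y.1 := by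
    intro x
    obtain ⟨T, hT, hr⟩ := exists_inf_child x.2
    exact ⟨⟨T, hr⟩, hT⟩
  choose f hf using hstep
  let P : ℕ → {S : St // ∀ τ, rg H τ S} := fun k => Nat.rec ⟨S, h⟩ (fun _ x => f x) k
  exact ⟨fun k => (P k).1, rfl, fun k => hf (P k)⟩

theorem inf_path {P : ℕ → St} (h0 : Lg H (P 0)) (h : ∀ k, Tr H (P k) (P (k + 1))) (k : ℕ)
    (τ : Ordinal.{0}) : rg H τ (P k) := by
  have hL : ∀ k, Lg H (P k) := by
    intro k
    cases k with
    | zero => exact h0
    | succ k => exact (h k).1
  have key : ∀ τ : Ordinal.{0}, ∀ k, rg H τ (P k) := by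
    intro τ
    induction τ using WellFoundedLT.induction with
    | _ τ ih =>
      intro k
      rw [rg_iff]
      exact ⟨hL k, fun γ hγ => ⟨P (k + 1), h k, ih γ hγ (k + 1)⟩⟩
  exact key τ k

theorem PL_iff : PL H p ↔ PV H 0 p := by
  unfold PL PV
  rw [W_iff]
  constructor
  · intro h
    refine ⟨h, fun β hβ => ?_⟩
    exact absurd hβ (not_lt_of_ge zero_le)
  · intro h
    exact h.1

theorem PV_max (h0 : PL H p) (hn : ¬ PI H p) : ∃ β, PV H β p ∧ ¬ PV H (β + 1) p := by
  by_contra hcon
  push Not at hcon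
  apply hn
  have key : ∀ σ : Ordinal.{0}, PV H σ p := by
    intro σ
    induction σ using WellFoundedLT.induction with
    | _ σ ih =>
      have hleg := (W_iff.1 (PL_iff.1 h0)).1
      unfold PV
      rw [W_iff]
      refine ⟨hleg, fun γ hγ => ?_⟩
      exact (W_iff.1 (hcon γ (ih γ hγ))).2 γ (Order.lt_succ γ)
  exact key

end Pool.Agent.H7.GH
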