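import Pool.Agent.H7.GH.B0
import Pool.Agent.H7.GH.Rg3

/-!
# GH-B2: `M` maps `NN (dg f)` into `NN (dg g)`

Let `B : Bk f g`.
* `tendsto_inj`: if `t : ℕ → Ix` is injective then `W (t j) → 0` (`Function.Injective.tendsto_cofinite`,
  `Nat.cofinite_eq_atTop`).
* `pi_pt`: `B.π (pt p)` is some `pt p'` (`srt`: the sorts of the constructors have different first
  components of `Nat.pair`; `Nat.pair_eq_pair`), similarly `vx`.
* `inf_point`: if `p` is alive in `dg f` and its state has all ranks, then for `p'` with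
  `B.π (pt p) = pt p'`: `loc (dg g) (pt p') ∈ NN (dg g)`.
  Proof: `exists_path` gives `P : ℕ → St`, `P 0 = p.S`, `Tr (P k) (P (k+1))`.  Let `t k` be the list
  `[(P k, 0), .., (P 1, 0)]` (`t 0 = []`, `t (k+1) = (P (k+1), 0) :: t k`), `cur p.S (t k) = P k`,
  `Chn (dg f) p.S (t k)`.  `rel (pt p) (vx p []) = 1`, `rel (vx p (t k)) (vx p (t (k+1))) = 1`.
  The images: `B.π (vx p (t 0))` is a `vx` related to `pt p'`, so it is `vx p' []`; by induction
  `B.π (vx p (t k)) = vx p' (t' k)` with `t' (k+1) = x k :: t' k`, `Chn (dg g) p'.S (t' (k+1))` and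
  `Al (dg g) p'`.  So `P' k := cur p'.S (t' k)` is an infinite `Tr`-path of `dg g` starting with `p'.S`,
  which is legal; `inf_path`: `p'.S` has all ranks; `rg_inf_iff`: all its positions are `PI (dg g)`; since
  `p'` is alive all positions of the names in `p'.A` are dominated, so all names of `p'.A` are valid;
  `uA_mem`; `loc (dg g) (pt p') = uA p'.A`.
* `M_R`: `b` valid for `dg f`: for `m : ℕ` the point `p m = ⟨[(b, 1)], (ps b).map (fun p => (p, 0, 0)), m⟩` is
  alive (`PL` from `PI`), its state has all ranks (`rg_inf_iff`), `loc (dg f) (pt (p m)) = uA [(b,1)] = R b`,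
  `B.π (pt (p m)) = pt p'`, so `M (R b) + w (pt (p m)) ∈ NN (dg g)` by `B.hl`; `w (pt (p m)) → 0`,
  `isClosed_NN`.
* `M_NN`: `clm_NN`.
-/

set_option autoImplicit false
set_option linter.unusedVariables false
set_option linter.unusedSectionVars false
set_option linter.unusedSimpArgs false
set_option linter.unusedTactic false
set_option linter.unreachableTactic false

namespace Pool.Agent.H7.GH

open Pool.Agent.H82.GH Filter Topology
open scoped Ordinal ENNReal

variable {f g : Fn}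

theorem tendsto_inj {W : Ix → L} (hW : Tendsto W cofinite (𝓝 0)) {t : ℕ → Ix}
    (ht : Function.Injective t) : Tendsto (fun j => W (t j)) atTop (𝓝 0) := by
  have h := hW.comp ht.tendsto_cofinite
  rwa [Nat.cofinite_eq_atTop] at h

theorem srt_pt {x : Ix} (h : srt x = Nat.pair 6 0) : ∃ p, x = .pt p := by
  cases x with
  | bs b =>
    cases b <;> simp only [srt, sb, Nat.pair_eq_pair] at h <;> omega
  | st => simp only [srt, Nat.pair_eq_pair] at h; omega
  | un n => simp only [srt, Nat.pair_eq_pair] at h; omega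
  | lb y k l => simp only [srt, Nat.pair_eq_pair] at h; omega
  | pt p => exact ⟨p, rfl⟩
  | vx p t => simp only [srt, Nat.pair_eq_pair] at h; omega

theorem srt_vx {x : Ix} (h : srt x = Nat.pair 7 0) : ∃ p t, x = .vx p t := by
  cases x with
  | bs b =>
    cases b <;> simp only [srt, sb, Nat.pair_eq_pair] at h <;> omega
  | st => simp only [srt, Nat.pair_eq_pair] at h; omega
  | un n => simp only [srt, Nat.pair_eq_pair] at h; omega
  | lb y k l => simp only [srt, Nat.pair_eq_pair] at h; omega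
  | pt p => simp only [srt, Nat.pair_eq_pair] at h; omega
  | vx p t => exact ⟨p, t, rfl⟩

theorem rel_pt_vx {H : Pr} {p p' : Pt} {t : List (St × ℕ)} :
    rel H (.pt p) (.vx p' t) = 1 ↔ p = p' ∧ t = [] := by
  unfold rel
  by_cases h : p = p' ∧ t = [] <;> simp [h]

theorem rel_vx_vx {H : Pr} {p p' : Pt} {t t' : List (St × ℕ)} :
    rel H (.vx p t) (.vx p' t') = 1 ↔ p = p' ∧ Ch H p t t' := by
  unfold rel
  by_cases h : p = p' ∧ Ch H p t t' <;> simp [h]

theorem loc_pt {H : Pr} {p : Pt} (h : Al H p) : loc H (.pt p) = uA p.A := by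
  unfold loc
  simp [h]

/-- the branch given by a sequence of states -/
def brn (P : ℕ → St) : ℕ → List (St × ℕ)
  | 0 => []
  | k + 1 => (P (k + 1), 0) :: brn P k

theorem cur_brn {S : St} {P : ℕ → St} (h0 : P 0 = S) (k : ℕ) : cur S (brn P k) = P k := by
  cases k with
  | zero => exact h0.symm
  | succ k => rfl

theorem Chn_brn {H : Pr} {S : St} {P : ℕ → St} (h0 : P 0 = S)
    (h : ∀ k, Tr H (P k) (P (k + 1))) (k : ℕ) : Chn H S (brn P k) := by
  induction k with
  | zero => trivial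
  | succ k ih =>
    refine ⟨?_, ih⟩
    rw [cur_brn h0]
    exact h k

namespace Bk

variable (B : Bk f g)

theorem pi_pt (p : Pt) : ∃ p', B.π (.pt p) = .pt p' :=
  srt_pt (B.hs (.pt p))

theorem pi_vx (p : Pt) (t : List (St × ℕ)) : ∃ p' t', B.π (.vx p t) = .vx p' t' :=
  srt_vx (B.hs (.vx p t))

theorem inf_point {p p' : Pt} (hp : Al (dg f) p) (hr : ∀ τ, rg (dg f) τ p.S)
    (h : B.π (.pt p) = .pt p') : loc (dg g) (.pt p') ∈ NN (dg g) := by
  obtain ⟨P, hP0, hP⟩ := exists_path hr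
  have hq : ∀ k, ∃ q : Pt × List (St × ℕ), B.π (.vx p (brn P k)) = .vx q.1 q.2 := by
    intro k
    obtain ⟨p1, t1, h1⟩ := B.pi_vx p (brn P k)
    exact ⟨(p1, t1), h1⟩
  choose q hq using hq
  -- the first vertex
  have h0 : p' = (q 0).1 ∧ (q 0).2 = [] := by
    have h1 : rel (dg f) (.pt p) (.vx p (brn P 0)) = 1 := rel_pt_vx.2 ⟨rfl, rfl⟩
    rw [← B.hr, h, hq 0] at h1
    exact rel_pt_vx.1 h1
  have hstep : ∀ k, (q k).1 = (q (k + 1)).1 ∧ Ch (dg g) (q k).1 (q k).2 (q (k + 1)).2 := by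
    intro k
    have h1 : rel (dg f) (.vx p (brn P k)) (.vx p (brn P (k + 1))) = 1 :=
      rel_vx_vx.2 ⟨rfl, hp, Chn_brn hP0 hP (k + 1), (P (k + 1), 0), rfl⟩
    rw [← B.hr, hq k, hq (k + 1)] at h1
    exact rel_vx_vx.1 h1
  have hall : ∀ k, (q k).1 = p' := by
    intro k
    induction k with
    | zero => exact h0.1.symm
    | succ k ih => rw [← (hstep k).1, ih]
  have hch : ∀ k, Ch (dg g) p' (q k).2 (q (k + 1)).2 := by
    intro k
    have := (hstep k).2
    rwa [hall k] at this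
  have hal : Al (dg g) p' := (hch 0).1
  have hP' : ∀ k, Tr (dg g) (cur p'.S (q k).2) (cur p'.S (q (k + 1)).2) := by
    intro k
    obtain ⟨-, h1, x, hx⟩ := hch k
    rw [hx] at h1 ⊢
    exact h1.1
  have hc0 : cur p'.S (q 0).2 = p'.S := by
    rw [h0.2]
    rfl
  have hinf : ∀ τ, rg (dg g) τ p'.S := by
    intro τ
    have := inf_path (H := dg g) (P := fun k => cur p'.S (q k).2) (by
      show Lg (dg g) (cur p'.S (q 0).2)
      rw [hc0]
      exact hal.1) hP' 0 τ
    simpa only [hc0] using this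
  have hPI := rg_inf_iff.1 hinf
  rw [loc_pt hal]
  refine uA_mem fun x hx r hr' => ?_
  obtain ⟨v, n, hm⟩ := hal.2 x hx r hr'
  exact hPI _ hm

theorem M_R {b : Bs} (hb : Vl (dg f) b) : B.M (R b) ∈ NN (dg g) := by
  let p : ℕ → Pt := fun m => ⟨[(b, 1)], (ps b).map (fun p => (p, 0, 0)), m⟩
  have hPI : ∀ m, ∀ o ∈ (p m).S, PI (dg f) o.1 := by
    intro m o ho
    obtain ⟨r, hr, rfl⟩ := List.mem_map.1 ho
    exact hb r hr
  have hal : ∀ m, Al (dg f) (p m) := by
    intro m
    refine ⟨fun o ho => PL_iff.2 (hPI m o ho 0), fun x hx r hr => ?_⟩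
    have hx' : x = (b, 1) := List.mem_singleton.1 hx
    subst hx'
    exact ⟨0, 0, List.mem_map.2 ⟨r, hr, rfl⟩⟩
  have hinf : ∀ m τ, rg (dg f) τ (p m).S := fun m => rg_inf_iff.2 (hPI m)
  have hloc : ∀ m, loc (dg f) (.pt (p m)) = R b := by
    intro m
    rw [loc_pt (hal m)]
    show uA [(b, 1)] = R b
    rw [uA_cons, uA_nil]
    simp
  have hmem : ∀ m, B.M (R b) + B.w (.pt (p m)) ∈ (NN (dg g) : Submodule ℝ L) := by
    intro m
    obtain ⟨p', hp'⟩ := B.pi_pt (p m)
    have h1 := B.inf_point (hal m) (hinf m) hp'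
    rw [← hp', B.hl, hloc] at h1
    exact h1
  have hinj : Function.Injective (fun m => Ix.pt (p m)) := by
    intro m n hmn
    have h1 : p m = p n := Ix.pt.inj hmn
    exact congrArg Pt.m h1
  have hlim : Tendsto (fun m => B.M (R b) + B.w (.pt (p m))) atTop (𝓝 (B.M (R b) + 0)) :=
    tendsto_const_nhds.add (tendsto_inj B.tw hinj)
  rw [add_zero] at hlim
  exact (isClosed_NN (dg g)).mem_of_tendsto hlim (Eventually.of_forall hmem)

theorem M_NN {x : L} (hx : x ∈ NN (dg f)) : B.M x ∈ NN (dg g) :=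
  clm_NN B.M (NN (dg g)) (isClosed_NN _) (fun _ hb => B.M_R hb) hx

end Bk

end Pool.Agent.H7.GH
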