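import Pool.Agent.H7.GH.B1
import Pool.Agent.H7.GH.B2

/-!
# GH-B3: the function `T` of an isomorphism

`B.T a b := ev g (phi g b) (B.M (en ⟨false, a, 0⟩))`.

* `pi_nd`: the image of a node is a node of a tuple of the same length; `nu` is defined by choice.
* `T_eq`: `twin` and `M_NN`, `ev_NN`, `phi_lp`: `T` can be computed with any name of the tuple.
* `T_lim_gen`: for a node `y j = ⟨false, a, j⟩`:
  `T a b = ev (phi b) (M (en (y j))) = ev (phi b) (e1 (π _)) + ev (phi b) (W _) =
  phi g b (nu (y j)).a + ev (phi b) (W _)` and the last term tends to `0` (`abs_ev_le`, `tendsto_inj`).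
* `T_lim`, `T_ne`: `phi g b x = dd g x b` if the lengths agree and `0` otherwise.
-/

set_option autoImplicit false
set_option linter.unusedVariables false
set_option linter.unusedSectionVars false
set_option linter.unusedSimpArgs false
set_option linter.unusedTactic false
set_option linter.unreachableTactic false

namespace Pool.Agent.H7.GH

open Pool.Agent.H82.GH Filter Topology
open scoped Ordinal ENNReal

variable {f g : Fn}

namespace Bk

/-- the function `T` -/
noncomputable def T (B : Bk f g) (a b : List ℕ) : ℝ := ev g (phi g b) (B.M (en ⟨false, a, 0⟩))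

variable (B : Bk f g)

theorem pi_nd (y : Nd) : ∃ y' : Nd, B.π (.bs (.nd y)) = .bs (.nd y') ∧ y'.a.length = y.a.length := by
  have h := B.hs (.bs (.nd y))
  rcases hq : B.π (.bs (.nd y)) with (y' | x | e) | _ | n | ⟨y', k, l⟩ | p | ⟨p, t⟩ <;>
    rw [hq] at h <;> simp only [srt, Pool.Agent.H7.GH.sb, Nat.pair_eq_pair] at h
  · exact ⟨y', rfl, h.2⟩
  all_goals exact absurd h.1 (by norm_num)

theorem pi_pa (x : Pa) : ∃ x' : Pa, B.π (.bs (.pa x)) = .bs (.pa x') ∧ x'.a.length = x.a.length := by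
  have h := B.hs (.bs (.pa x))
  rcases hq : B.π (.bs (.pa x)) with (y' | x' | e) | _ | n | ⟨y', k, l⟩ | p | ⟨p, t⟩ <;>
    rw [hq] at h <;> simp only [srt, Pool.Agent.H7.GH.sb, Nat.pair_eq_pair] at h
  · exact absurd h.1 (by norm_num)
  · exact ⟨x', rfl, h.2⟩
  all_goals exact absurd h.1 (by norm_num)

/-- the image of a node -/
noncomputable def nu (y : Nd) : Nd := (B.pi_nd y).choose

theorem pi_nu (y : Nd) : B.π (.bs (.nd y)) = .bs (.nd (B.nu y)) := (B.pi_nd y).choose_spec.1

theorem nu_len (y : Nd) : (B.nu y).a.length = y.a.length := (B.pi_nd y).choose_spec.2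

theorem T_eq (y : Nd) (b : List ℕ) : ev g (phi g b) (B.M (en y)) = B.T y.a b := by
  have h1 : en y - en ⟨false, y.a, 0⟩ ∈ NN (dg f) := twin f y.i false y.a y.m 0
  have h2 := ev_NN (phi_lp g b) (B.M_NN h1)
  rw [map_sub, map_sub, sub_eq_zero] at h2
  exact h2

theorem T_lim_gen (a b : List ℕ) :
    Tendsto (fun j => phi g b (B.nu ⟨false, a, j⟩).a) atTop (𝓝 (B.T a b)) := by
  have hinj : Function.Injective (fun j : ℕ => Ix.bs (.nd ⟨false, a, j⟩)) := by
    intro j j' h
    simpa using h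
  have h1 := tendsto_inj B.tW hinj
  have h2 : Tendsto (fun j => ev g (phi g b) (B.W (Ix.bs (.nd ⟨false, a, j⟩)))) atTop (𝓝 0) := by
    refine squeeze_zero_norm (fun j => ?_) (tendsto_zero_iff_norm_tendsto_zero.1 h1)
    rw [Real.norm_eq_abs]
    exact abs_ev_le (phi_lp g b) _
  have h3 := (tendsto_const_nhds (x := B.T a b)).sub h2
  rw [sub_zero] at h3
  refine h3.congr (fun j => ?_)
  have h4 := B.T_eq ⟨false, a, j⟩ b
  have h5 : B.M (en ⟨false, a, j⟩) = en (B.nu ⟨false, a, j⟩) + B.W (Ix.bs (.nd ⟨false, a, j⟩)) := by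
    have := B.hW (Ix.bs (.nd ⟨false, a, j⟩))
    rw [B.pi_nu] at this
    exact this
  rw [h5, map_add, ev_en (phi_lp g b)] at h4
  have h6 : B.T (Nd.mk false a j).a b = B.T a b := rfl
  rw [h6] at h4
  linarith

theorem T_lim {a b : List ℕ} (h : a.length = b.length) :
    Tendsto (fun j => dd g (B.nu ⟨false, a, j⟩).a b) atTop (𝓝 (B.T a b)) := by
  refine (B.T_lim_gen a b).congr (fun j => ?_)
  have h1 : (B.nu ⟨false, a, j⟩).a.length = b.length := (B.nu_len ⟨false, a, j⟩).trans h
  rw [phi, if_pos h1]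

theorem T_ne {a b : List ℕ} (h : a.length ≠ b.length) : B.T a b = 0 := by
  refine tendsto_nhds_unique (B.T_lim_gen a b) ?_
  refine tendsto_const_nhds.congr (fun j => ?_)
  have h1 : ¬ (B.nu ⟨false, a, j⟩).a.length = b.length := fun h2 =>
    h ((B.nu_len ⟨false, a, j⟩).symm.trans h2)
  rw [phi, if_neg h1]

theorem T_nonneg (a b : List ℕ) : 0 ≤ B.T a b :=
  ge_of_tendsto' (B.T_lim_gen a b) (fun _ => (phi_lp g b).nn _)

theorem T_le_one (a b : List ℕ) : B.T a b ≤ 1 :=
  le_of_tendsto' (B.T_lim_gen a b) (fun _ => (phi_lp g b).le _)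

theorem T_nil : B.T [] [] = 0 := by
  refine tendsto_nhds_unique (B.T_lim rfl) ?_
  refine tendsto_const_nhds.congr (fun j => ?_)
  have h1 : (B.nu ⟨false, [], j⟩).a.length = 0 := B.nu_len ⟨false, [], j⟩
  rw [List.length_eq_zero_iff.1 h1, dd_self]

end Bk

end Pool.Agent.H7.GH
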