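import Pool.Agent.H7.GH.B3

/-!
# GH-B4: the triangle inequalities for `T`

* `T_lip`: `|T a b - T a' b| ≤ dd f a a'` for `|a| = |a'|`.  If `dd f a a' = 1`: both values are in `[0, 1]`.
  Otherwise let `q` be rational with `dd f a a' < q ≤ 1`; `VI_of_dd_lt` gives
  `VI f f δ (zip a a')` for some `δ < q`, `δ ≥ 0` (take `δ` between `dd f a a'` and `q`); `exists_edge (dg f) false false`
  gives for every `k` an edge `e k` with endpoints `⟨false, a, 0⟩`, `⟨false, a', 0⟩`, `e.q = q`, `e.k = k`,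
  position `PI (dg f)`.  `edge_NN` and `M_NN`, `ev_NN` (with `φ = phi g b`):
  `T a b - T a' b = q * ev φ (M (e1 (ed (e k)))) = q * (evv φ (π _) + ev φ (W _))`,
  `|evv| ≤ 1`, and the last term tends to `0` as `k → ∞` (`e k` are pairwise different).  So
  `|T a b - T a' b| ≤ q` for all such `q`.
* `T_nu`: `B.symm.T (nu ⟨false, a, j⟩).a a → 0`: with `y = nu ⟨false, a, j⟩`:
  `B.symm.T y.a a = ev f (phi f a) (M' (en y))` (`T_eq` for `B.symm`), `en y = e1 (π _) = M (en ⟨false, a, j⟩) - W _`,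
  so `M' (en y) = en ⟨false, a, j⟩ - M' (W _)`, `ev f (phi f a) (en ⟨false, a, j⟩) = dd f a a = 0`,
  and `|ev (M' (W _))| ≤ ‖M'‖ * ‖W _‖ → 0`.
* `T_symm_le`: `B.symm.T b a ≤ B.symm.T (nu ..).a a + dd g b (nu ..).a` (`T_lip` for `B.symm`), take the
  limit (`T_lim`, `dd_symm`).  `T_symm`: also for `B.symm` (`B.symm.symm = B`).
* `T_tri1`: `T a b' ≤ T a b + dd g b b'`, `T_tri2`: `dd g b b' ≤ T a b + T a b'`: limits of `dd_tri`.
* `T_tri3`: `dd f a a' ≤ T a b + T a' b`: `T_tri2` for `B.symm` and `T_symm`.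
-/

set_option autoImplicit false
set_option linter.unusedVariables false
set_option linter.unusedSectionVars false
set_option linter.unusedSimpArgs false
set_option linter.unusedTactic false
set_option linter.unreachableTactic false

namespace Pool.Agent.H7.GH

open Pool.Agent.H82.GH Filter Topology
open scoped Ordinal ENNReal

variable {f g : Fn}

namespace Bk

variable (B : Bk f g) {a a' b b' : List ℕ}

private theorem T_lip_aux (h : a.length = a'.length) (b : List ℕ) {q : ℚ}
    (hq : dd f a a' < (q : ℝ)) (hq1 : (q : ℝ) ≤ 1) : |B.T a b - B.T a' b| ≤ (q : ℝ) := by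
  obtain ⟨δ, hδ, hδq⟩ := exists_between hq
  have h0 : 0 ≤ δ := (dd_nonneg f a a').trans hδ.le
  have hV : VI f f δ (List.zip a a') := VI_of_dd_lt hδ (hδq.le.trans hq1)
  have hE := fun k : ℕ => exists_edge (dg f) false false h 0 0 k h0 hδq hV
  choose e hx hy hl hqe hk hP using hE
  have hinj : Function.Injective (fun k => Ix.bs (.ed (e k))) := by
    intro k k' hkk
    have h1 : e k = e k' := by
      have := hkk
      simp only [Ix.bs.injEq, Bs.ed.injEq] at this
      exact this
    rw [← hk k, ← hk k', h1]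
  have hW := tendsto_inj B.tW hinj
  have hφ : Lp g (phi g b) := phi_lp g b
  have hq0 : (0 : ℝ) ≤ q := (dd_nonneg f a a').trans hq.le
  have key : ∀ k, |B.T a b - B.T a' b| ≤ (q : ℝ) * (1 + ‖B.W (Ix.bs (.ed (e k)))‖) := by
    intro k
    have h1 := ev_NN hφ (B.M_NN (edge_NN (hP k)))
    rw [map_sub, map_sub, map_smul, map_sub, map_sub, map_smul, hx k, hy k, hqe k, B.hW,
      map_add, ev_e1 hφ, smul_eq_mul] at h1
    have h2 : B.T a b - B.T a' b = (q : ℝ) * (evv g (phi g b) (B.π (Ix.bs (.ed (e k)))) +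
        ev g (phi g b) (B.W (Ix.bs (.ed (e k))))) := by
      unfold T
      linarith
    rw [h2, abs_mul, abs_of_nonneg hq0]
    refine mul_le_mul_of_nonneg_left ((abs_add_le _ _).trans (add_le_add ?_ ?_)) hq0
    · have := evv_le hφ (B.π (Ix.bs (.ed (e k))))
      rwa [Real.norm_eq_abs] at this
    · exact abs_ev_le hφ _
  have hlim : Tendsto (fun k => (q : ℝ) * (1 + ‖B.W (Ix.bs (.ed (e k)))‖)) atTop
      (𝓝 ((q : ℝ) * (1 + 0))) := by
    refine Tendsto.const_mul _ (Tendsto.const_add _ ?_)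
    have := hW.norm
    rwa [norm_zero] at this
  have := ge_of_tendsto' hlim key
  linarith

theorem T_lip (h : a.length = a'.length) (b : List ℕ) : |B.T a b - B.T a' b| ≤ dd f a a' := by
  by_contra hc
  push Not at hc
  by_cases h1 : 1 ≤ dd f a a'
  · have ha := B.T_nonneg a b
    have hb := B.T_nonneg a' b
    have ha' := B.T_le_one a b
    have hb' := B.T_le_one a' b
    have : |B.T a b - B.T a' b| ≤ 1 := abs_le.2 ⟨by linarith, by linarith⟩
    linarith
  · push Not at h1
    obtain ⟨q, hq, hq'⟩ := exists_rat_btwn (lt_min hc h1)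
    have := B.T_lip_aux h b hq (hq'.le.trans (min_le_right _ _))
    have h3 := lt_of_lt_of_le hq' (min_le_left _ _)
    linarith

theorem T_nu (a : List ℕ) :
    Tendsto (fun j => B.symm.T (B.nu ⟨false, a, j⟩).a a) atTop (𝓝 0) := by
  have hinj : Function.Injective (fun j : ℕ => Ix.bs (.nd ⟨false, a, j⟩)) := by
    intro j j' hjj
    simp only [Ix.bs.injEq, Bs.nd.injEq, Nd.mk.injEq, true_and] at hjj
    exact hjj
  have hφ : Lp f (phi f a) := phi_lp f a
  have hW := tendsto_inj B.tW hinj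
  have key : ∀ j : ℕ, B.symm.T (B.nu ⟨false, a, j⟩).a a =
      -(ev f (phi f a) (B.M' (B.W (Ix.bs (.nd ⟨false, a, j⟩))))) := by
    intro j
    rw [← B.symm.T_eq (B.nu ⟨false, a, j⟩) a]
    change ev f (phi f a) (B.M' (e1 (Ix.bs (Bs.nd (B.nu ⟨false, a, j⟩))))) = _
    have h1 : e1 (Ix.bs (Bs.nd (B.nu ⟨false, a, j⟩))) =
        B.M (e1 (Ix.bs (.nd ⟨false, a, j⟩))) - B.W (Ix.bs (.nd ⟨false, a, j⟩)) := by
      rw [← B.pi_nu, B.hW, add_sub_cancel_right]
    have h2 : ev f (phi f a) (e1 (Ix.bs (.nd ⟨false, a, j⟩))) = 0 := by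
      have := ev_en hφ ⟨false, a, j⟩
      rw [en] at this
      rw [this, phi, if_pos rfl, dd_self]
    rw [h1, map_sub, B.hM, map_sub, h2, zero_sub]
  simp_rw [key]
  have hc : Continuous fun x : L => -(ev f (phi f a) (B.M' x)) :=
    ((ev f (phi f a)).continuous.comp B.M'.continuous).neg
  have := (hc.tendsto 0).comp hW
  simp only [map_zero, neg_zero] at this
  exact this

theorem T_symm_le (h : a.length = b.length) : B.symm.T b a ≤ B.T a b := by
  have hl := fun j : ℕ => B.nu_len ⟨false, a, j⟩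
  have key : ∀ j : ℕ, B.symm.T b a ≤ B.symm.T (B.nu ⟨false, a, j⟩).a a +
      dd g (B.nu ⟨false, a, j⟩).a b := by
    intro j
    have h1 := B.symm.T_lip (a := b) (a' := (B.nu ⟨false, a, j⟩).a) (h.symm.trans (hl j).symm) a
    have h2 := le_abs_self (B.symm.T b a - B.symm.T (B.nu ⟨false, a, j⟩).a a)
    rw [dd_symm] at h1
    linarith
  have hlim := (B.T_nu a).add (B.T_lim h)
  have := ge_of_tendsto' hlim key
  linarith

theorem T_symm (h : a.length = b.length) : B.symm.T b a = B.T a b :=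
  le_antisymm (B.T_symm_le h) (B.symm.T_symm_le h.symm)

theorem T_tri1 (h : a.length = b.length) (h' : b.length = b'.length) :
    B.T a b' ≤ B.T a b + dd g b b' := by
  have hl := fun j : ℕ => B.nu_len ⟨false, a, j⟩
  have key : ∀ j : ℕ, dd g (B.nu ⟨false, a, j⟩).a b' ≤
      dd g (B.nu ⟨false, a, j⟩).a b + dd g b b' := fun j => dd_tri g ((hl j).trans h) h'
  exact le_of_tendsto_of_tendsto' (B.T_lim (h.trans h'))
    ((B.T_lim h).add_const _) key

theorem T_tri2 (h : a.length = b.length) (h' : b.length = b'.length) :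
    dd g b b' ≤ B.T a b + B.T a b' := by
  have hl := fun j : ℕ => B.nu_len ⟨false, a, j⟩
  have key : ∀ j : ℕ, dd g b b' ≤ dd g (B.nu ⟨false, a, j⟩).a b +
      dd g (B.nu ⟨false, a, j⟩).a b' := fun j => by
    rw [dd_symm g (B.nu ⟨false, a, j⟩).a b]
    exact dd_tri g (h.symm.trans (hl j).symm) ((hl j).trans (h.trans h'))
  exact ge_of_tendsto' ((B.T_lim h).add (B.T_lim (h.trans h'))) key

theorem T_tri3 (h : a.length = b.length) (h' : a.length = a'.length) :
    dd f a a' ≤ B.T a b + B.T a' b := by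
  have h1 := B.symm.T_tri2 (a := b) (b := a) (b' := a') h.symm h'
  rwa [B.T_symm h, B.T_symm (h'.symm.trans h)] at h1

theorem T_tri1' (h : a.length = b.length) (h' : a.length = a'.length) :
    B.T a' b ≤ B.T a b + dd f a a' := by
  have h1 := B.T_lip h' b
  have h2 := neg_abs_le (B.T a b - B.T a' b)
  linarith

end Bk

end Pool.Agent.H7.GH
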