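import Pool.Agent.H7.GH.B4

/-!
# GH-B5: extensions

* `ext_left`: for `c`, `a`, `ε > 0` there are `d`, `b'` with `|b'| = |a|`, `T (c :: a) (d :: b') < ε`,
  `T a b' < ε`.
  Proof: `x j = ⟨false, c, a, j⟩ : Pa`, `π (pa (x j)) = pa x'` with `|x'.a| = |a|` (`pi_pa`).
  `R (pa x') ∈ NN (dg g)` (`Vl_pa`), so (`B.symm.M_NN`)
  `M' (e1 (pa x')) - (M' (en x'.x) - M' (en x'.y)) ∈ NN (dg f)`.
  `e1 (pa x') = M (e1 (pa (x j))) - W _`, so `M' (e1 (pa x')) = e1 (pa (x j)) - M' (W _)`; and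
  `e1 (pa (x j)) - (en (x j).x - en (x j).y) ∈ NN (dg f)`.  Hence
  `M' (en x'.x) - M' (en x'.y) - (en (x j).x - en (x j).y) + M' (W _) ∈ NN (dg f)`.
  Apply `ev f (phi f (c :: a))`: `ev (M' (en x'.x)) = B.symm.T (x'.c :: x'.a) (c :: a)` (`T_eq`),
  `ev (M' (en x'.y)) = B.symm.T x'.a (c :: a) = 0` (`T_ne`: lengths), `ev (en (x j).x) = dd f (c::a) (c::a) = 0`,
  `ev (en (x j).y) = phi f (c :: a) a = 0`.  So `|B.symm.T (x'.c :: x'.a) (c :: a)| ≤ ‖M' (W _)‖ → 0`.
  Apply `ev f (phi f a)`: `ev (M' (en x'.x)) = 0` (`T_ne`), `ev (M' (en x'.y)) = B.symm.T x'.a a`,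
  `ev (en (x j).x) = 0`, `ev (en (x j).y) = dd f a a = 0`.  So `B.symm.T x'.a a → 0`.
  `T_symm`; choose `j` large.
* `move_left`: if `|a| = |b|`, `T a b < r ≤ 1` and `c` is given there is `d` with `T (c :: a) (d :: b) < r`.
  Proof: let `η = (r - T a b) / 4`, `d'`, `b'` from `ext_left` with `η`.
  `dd g b' b ≤ T a b' + T a b < T a b + η =: ρ` (`T_tri2`, `dd_symm`), `ρ < 1`, `VI g g ρ (zip b' b)`
  (`VI_of_dd_lt`), `VI_left` gives `d` with `VI g g (ρ + η) ((d', d) :: zip b' b)`, so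
  `dd g (d' :: b') (d :: b) ≤ ρ + η`, and `T (c :: a) (d :: b) ≤ η + ρ + η < r` (`T_tri1`).
* `move_right`: the same for `B.symm` with `T_symm`.
-/

set_option autoImplicit false
set_option linter.unusedVariables false
set_option linter.unusedSectionVars false
set_option linter.unusedSimpArgs false
set_option linter.unusedTactic false
set_option linter.unreachableTactic false

namespace Pool.Agent.H7.GH

open Pool.Agent.H82.GH Filter Topology
open scoped Ordinal ENNReal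

variable {f g : Fn}

namespace Bk

variable (B : Bk f g) {a b : List ℕ}

/-- the equation behind `ext_left` -/
private theorem ext_eq (c : ℕ) (a : List ℕ) (j : ℕ) {x' : Pa}
    (hx : B.π (.bs (.pa ⟨false, c, a, j⟩)) = .bs (.pa x')) (b : List ℕ) :
    B.symm.T (x'.c :: x'.a) b - B.symm.T x'.a b =
      phi f b (c :: a) - phi f b a - ev f (phi f b) (B.M' (B.W (.bs (.pa ⟨false, c, a, j⟩)))) := by
  have h1 : B.symm.M (R (.pa x')) ∈ NN (dg f) := B.symm.M_NN (R_mem (Vl_pa x'))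
  have h2 : R (.pa ⟨false, c, a, j⟩) ∈ NN (dg f) := R_mem (Vl_pa _)
  have e1' := ev_NN (phi_lp f b) h1
  have e2' := ev_NN (phi_lp f b) h2
  have hM : B.M (e1 (Ix.bs (.pa ⟨false, c, a, j⟩))) =
      e1 (Ix.bs (.pa x')) + B.W (.bs (.pa ⟨false, c, a, j⟩)) := by
    rw [B.hW, hx]
  have hM' : B.M' (e1 (Ix.bs (.pa x'))) =
      e1 (Ix.bs (.pa ⟨false, c, a, j⟩)) - B.M' (B.W (.bs (.pa ⟨false, c, a, j⟩))) := by
    have := congrArg B.M' hM
    rw [B.hM, map_add] at this
    rw [this, add_sub_cancel_right]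
  have t1 := B.symm.T_eq x'.x b
  have t2 := B.symm.T_eq x'.y b
  have hs : B.symm.M = B.M' := rfl
  rw [hs] at t1 t2 e1'
  simp only [R, map_sub, hM'] at e1' e2'
  rw [t1, t2] at e1'
  rw [ev_en (phi_lp f b), ev_en (phi_lp f b)] at e2'
  simp only [Pa.x, Pa.y] at e1' e2'
  linarith

theorem ext_left (c : ℕ) (a : List ℕ) {ε : ℝ} (hε : 0 < ε) :
    ∃ (d : ℕ) (b' : List ℕ), b'.length = a.length ∧ B.T (c :: a) (d :: b') < ε ∧
      B.T a b' < ε := by
  have hinj : Function.Injective (fun j : ℕ => Ix.bs (.pa ⟨false, c, a, j⟩)) := by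
    intro i j h
    simpa using h
  have ht := tendsto_inj B.tW hinj
  have ht2 : Tendsto (fun j : ℕ => ‖B.M' (B.W (Ix.bs (.pa ⟨false, c, a, j⟩)))‖) atTop (𝓝 0) := by
    have := ((B.M'.continuous.norm).tendsto 0).comp ht
    simpa [Function.comp_def] using this
  obtain ⟨j, hj⟩ := (ht2.eventually_lt_const hε).exists
  obtain ⟨x', hx, hlen⟩ := B.pi_pa ⟨false, c, a, j⟩
  have hlen' : x'.a.length = a.length := hlen
  refine ⟨x'.c, x'.a, hlen', ?_, ?_⟩
  · have h := B.ext_eq c a j hx (c :: a)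
    rw [B.symm.T_ne (a := x'.a) (b := c :: a) (by simp [hlen'])] at h
    have p1 : phi f (c :: a) (c :: a) = 0 := by
      unfold phi
      rw [if_pos rfl, dd_self]
    have p2 : phi f (c :: a) a = 0 := by
      unfold phi
      rw [if_neg (by simp)]
    rw [p1, p2] at h
    rw [← B.T_symm (a := c :: a) (b := x'.c :: x'.a) (by simp [hlen'])]
    have hb := abs_ev_le (phi_lp f (c :: a)) (B.M' (B.W (Ix.bs (.pa ⟨false, c, a, j⟩))))
    have := (abs_le.1 hb).1
    linarith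
  · have h := B.ext_eq c a j hx a
    rw [B.symm.T_ne (a := x'.c :: x'.a) (b := a) (by simp [hlen'])] at h
    have p1 : phi f a (c :: a) = 0 := by
      unfold phi
      rw [if_neg (by simp)]
    have p2 : phi f a a = 0 := by
      unfold phi
      rw [if_pos rfl, dd_self]
    rw [p1, p2] at h
    rw [← B.T_symm (a := a) (b := x'.a) hlen'.symm]
    have hb := abs_ev_le (phi_lp f a) (B.M' (B.W (Ix.bs (.pa ⟨false, c, a, j⟩))))
    have := (abs_le.1 hb).2
    linarith

theorem move_left (h : a.length = b.length) {r : ℝ} (hr : B.T a b < r) (h1 : r ≤ 1) (c : ℕ) :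
    ∃ d, B.T (c :: a) (d :: b) < r := by
  have hη : 0 < (r - B.T a b) / 4 := by linarith
  set η : ℝ := (r - B.T a b) / 4 with hηd
  have h0 : 0 ≤ B.T a b := B.T_nonneg a b
  obtain ⟨d', b', hl, hd1, hd2⟩ := B.ext_left c a hη
  have hl' : b'.length = b.length := hl.trans h
  have hdd : dd g b' b < B.T a b + η := by
    have := B.T_tri2 (a := a) (b := b') (b' := b) hl.symm hl'
    linarith
  have hV : VI g g (B.T a b + η) (List.zip b' b) :=
    VI_of_dd_lt hdd (by linarith)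
  obtain ⟨d, hd⟩ := VI_left hV (ε' := B.T a b + η + η) (by linarith) d'
  have hdd2 : dd g (d' :: b') (d :: b) ≤ B.T a b + η + η := by
    apply dd_le (by linarith)
    rw [List.zip_cons_cons]
    exact hd
  refine ⟨d, ?_⟩
  have := B.T_tri1 (a := c :: a) (b := d' :: b') (b' := d :: b) (by simp [hl]) (by simp [hl'])
  linarith

theorem move_right (h : a.length = b.length) {r : ℝ} (hr : B.T a b < r) (h1 : r ≤ 1) (d : ℕ) :
    ∃ c, B.T (c :: a) (d :: b) < r := by
  have hs := B.T_symm h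
  obtain ⟨c, hc⟩ := B.symm.move_left (a := b) (b := a) h.symm (r := r) (by rw [hs]; exact hr) h1 d
  refine ⟨c, ?_⟩
  rw [← B.T_symm (a := c :: a) (b := d :: b) (by simp [h])]
  exact hc

end Bk

end Pool.Agent.H7.GH
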