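import Pool.Agent.H7.GH.B5

/-!
# GH-B6: labels and the backward direction

* `M_st`: `M (e1 st) = e1 st`: the image of `un n` is some `un n'` (`srt`), `loc` is `e1 st` for both, so
  `e1 st = M (e1 st) + w (un n)`, and `w (un n) → 0`.
* `pi_lb`: `B.π (lb y k l) = lb (nu y) k l`: the image is a `lb y'' k'' l''` (`srt`), and
  `rel (lb y k l) (bs (nd y)) = Nat.pair k l + 1`, so
  `rel (dg g) (lb y'' k'' l'') (bs (nd (nu y))) = Nat.pair k l + 1 ≠ 0`: `y'' = nu y` and
  `Nat.pair k'' l'' = Nat.pair k l`.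
* `lab_lim`: with `y j = ⟨false, a, j⟩`: `B.hl (lb (y j) k l)`:
  `((1/2)^(k+l) * lab (dg g) (nu (y j)) k l) • e1 st = ((1/2)^(k+l) * lab (dg f) (y j) k l) • e1 st + w _`,
  and `w _ → 0`, so the scalars converge (`norm_e1`, `norm_smul`), divide by `(1/2)^(k+l)`.
* `W_of_T`: if `|a| = |b|`, `T a b < r ≤ 1` then `W f g α r (zip a b)` for all `α`.  Induction on `α`
  (for all `a, b, r`... `r` may stay fixed).  `W_iff`.  Distortion: pairs in `zip a b` are
  `(a.getD i 0, b.getD i 0)`, `(a.getD j 0, b.getD j 0)` with `i, j < |a|`.  `T_lim`: for large `m`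
  `dd g (nu ⟨false, a, m⟩).a b < r`, so `VI g g r (zip (nu ..).a b)` (`VI_of_dd_lt`) and `VI_zip_leg` gives
  `|g ((nu ..).a i) ((nu ..).a j) - g (b i) (b j)| ≤ r`; limit with `lab_lim`
  (`lab` is `g _ _` because `i, j <` the length, `nu_len`).
  Moves: `β < α`, `ε' > r`, `x`: `move_left` gives `d` with `T (x :: a) (d :: b) < r`, the induction
  hypothesis gives `W f g β r (zip (x :: a) (d :: b))`, `W_mono`; symmetric with `move_right`.
* `Cr_of_Bk`: `T_nil`, `cr_of_VI` (for `ε > 1` use `VI_mono`).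
* `exists_Bk`: from `γ : (Mo Ix)ˣ` with `γ • ob (dg f) = ob (dg g)`: `π = γ.val.π`, `M = γ.val.M`,
  `M' = (γ⁻¹).val.M`, `W = γ.val.V`, ..., `Mo.M_mul`, `Mo.M_one`, `Mo.M_e1`, `Mo.smul_fst`, ...;
  `(γ⁻¹).val.π = γ.val.π.symm` from `Mo.mul_π`; elements of `l^1` tend to `0` along `cofinite`
  (`summable_norm_coe`, `Summable.tendsto_cofinite_zero`).
-/

set_option autoImplicit false
set_option linter.unusedVariables false
set_option linter.unusedSectionVars false
set_option linter.unusedSimpArgs false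
set_option linter.unusedTactic false
set_option linter.unreachableTactic false

namespace Pool.Agent.H7.GH

open Pool.Agent.H82.GH Filter Topology
open scoped Ordinal ENNReal

variable {f g : Fn}

private lemma b6_un {q : Ix} (h : srt q = Nat.pair 4 0) : ∃ n, q = .un n := by
  rcases q with (b | b | b) | _ | n | _ | _ | _
  all_goals
    first
    | exact ⟨_, rfl⟩
    | (exfalso; simp [srt, sb, Nat.pair_eq_pair] at h)

private lemma b6_lb {q : Ix} (h : srt q = Nat.pair 5 0) : ∃ y k l, q = .lb y k l := by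
  rcases q with (b | b | b) | _ | n | _ | _ | _
  all_goals
    first
    | exact ⟨_, _, _, rfl⟩
    | (exfalso; simp [srt, sb, Nat.pair_eq_pair] at h)

namespace Bk

variable (B : Bk f g) {a b : List ℕ}

theorem M_st : B.M (e1 Ix.st) = e1 Ix.st := by
  have h1 : ∀ n : ℕ, e1 Ix.st - B.M (e1 Ix.st) = B.w (.un n) := by
    intro n
    obtain ⟨n', hn'⟩ := b6_un (q := B.π (.un n)) (by rw [B.hs]; rfl)
    have h := B.hl (.un n)
    rw [hn'] at h
    have h' : (e1 Ix.st : L) = B.M (e1 Ix.st) + B.w (.un n) := h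
    rw [sub_eq_iff_eq_add, add_comm]
    exact h'
  have h2 : Tendsto (fun n : ℕ => B.w (.un n)) atTop (𝓝 0) :=
    tendsto_inj B.tw (t := fun n => Ix.un n) (fun m n h => by
      simpa using h)
  have h3 : Tendsto (fun _ : ℕ => (e1 Ix.st - B.M (e1 Ix.st) : L)) atTop (𝓝 0) :=
    h2.congr (fun n => (h1 n).symm)
  have h4 := tendsto_nhds_unique h3 tendsto_const_nhds
  exact (sub_eq_zero.1 h4.symm).symm

theorem pi_lb (y : Nd) (k l : ℕ) : B.π (.lb y k l) = .lb (B.nu y) k l := by
  obtain ⟨y', k', l', h⟩ := b6_lb (q := B.π (.lb y k l)) (by rw [B.hs]; rfl)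
  have h1 := B.hr (.lb y k l) (.bs (.nd y))
  rw [h, B.pi_nu] at h1
  have e1' : rel (dg f) (.lb y k l) (.bs (.nd y)) = Nat.pair k l + 1 := by
    simp [rel]
  rw [e1'] at h1
  have h3 : B.nu y = y' := by
    by_contra hne
    have e2 : rel (dg g) (.lb y' k' l') (.bs (.nd (B.nu y))) = 0 := by
      simp [rel, hne]
    rw [e2] at h1
    exact absurd h1.symm (Nat.succ_ne_zero _)
  have h4 : Nat.pair k' l' = Nat.pair k l := by
    have e2 : rel (dg g) (.lb y' k' l') (.bs (.nd (B.nu y))) = Nat.pair k' l' + 1 := by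
      simp [rel, h3]
    rw [e2] at h1
    omega
  rw [Nat.pair_eq_pair] at h4
  rw [h, h3, h4.1, h4.2]

theorem lab_lim (a : List ℕ) (k l : ℕ) :
    Tendsto (fun j => lab (dg g) (B.nu ⟨false, a, j⟩) k l) atTop
      (𝓝 (lab (dg f) ⟨false, a, 0⟩ k l)) := by
  have hc : (0 : ℝ) < (1 / 2 : ℝ) ^ (k + l) := by positivity
  have h1 : ∀ j : ℕ, ‖lab (dg g) (B.nu ⟨false, a, j⟩) k l - lab (dg f) ⟨false, a, 0⟩ k l‖ =
      ((1 / 2 : ℝ) ^ (k + l))⁻¹ * ‖B.w (.lb ⟨false, a, j⟩ k l)‖ := by
    intro j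
    have h := B.hl (.lb ⟨false, a, j⟩ k l)
    rw [B.pi_lb] at h
    have h' : ((1 / 2 : ℝ) ^ (k + l) * lab (dg g) (B.nu ⟨false, a, j⟩) k l) • (e1 Ix.st : L) =
        B.M (((1 / 2 : ℝ) ^ (k + l) * lab (dg f) ⟨false, a, j⟩ k l) • (e1 Ix.st : L)) +
          B.w (.lb ⟨false, a, j⟩ k l) := h
    have hl : lab (dg f) ⟨false, a, j⟩ k l = lab (dg f) ⟨false, a, 0⟩ k l := rfl
    rw [map_smul, B.M_st, hl] at h'
    have h2 : B.w (.lb ⟨false, a, j⟩ k l) = ((1 / 2 : ℝ) ^ (k + l) *
        (lab (dg g) (B.nu ⟨false, a, j⟩) k l - lab (dg f) ⟨false, a, 0⟩ k l)) •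
          (e1 Ix.st : L) := by
      rw [mul_sub, sub_smul, h']
      abel
    rw [h2, norm_smul, norm_e1, mul_one, norm_mul, Real.norm_of_nonneg hc.le,
      inv_mul_cancel_left₀ hc.ne']
  rw [tendsto_iff_norm_sub_tendsto_zero]
  simp only [h1]
  have h2 : Tendsto (fun j : ℕ => B.w (.lb ⟨false, a, j⟩ k l)) atTop (𝓝 0) :=
    tendsto_inj B.tw (t := fun j => Ix.lb ⟨false, a, j⟩ k l) (fun m n h => by
      simpa using h)
  have h3 := (tendsto_norm_zero.comp h2).const_mul (((1 / 2 : ℝ) ^ (k + l))⁻¹)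
  simpa using h3

theorem W_of_T (α : Ordinal.{0}) (h : a.length = b.length) {r : ℝ} (hr : B.T a b < r)
    (h1 : r ≤ 1) : _root_.Pool.Agent.H82.GH.W f g α r (List.zip a b) := by
  induction α using WellFoundedLT.induction generalizing a b with
  | ind α ih =>
    rw [W_iff]
    refine ⟨?_, ?_⟩
    · -- distortion
      have key : ∀ i j, i < a.length → j < a.length →
          |f (a.getD i 0) (a.getD j 0) - g (b.getD i 0) (b.getD j 0)| ≤ r := by
        intro i j hi hj
        have e1' : lab (dg f) ⟨false, a, 0⟩ i j = f (a.getD i 0) (a.getD j 0) := by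
          unfold lab
          rw [if_pos ⟨hi, hj⟩]
          rfl
        have h2 := ((B.lab_lim a i j).sub_const (g (b.getD i 0) (b.getD j 0))).abs
        rw [e1'] at h2
        refine le_of_tendsto h2 ?_
        have h3 := (B.T_lim h).eventually (gt_mem_nhds hr)
        filter_upwards [h3] with m hm
        have hlen := B.nu_len ⟨false, a, m⟩
        have hlen' : (B.nu ⟨false, a, m⟩).a.length = a.length := hlen
        have e2 : lab (dg g) (B.nu ⟨false, a, m⟩) i j =
            g ((B.nu ⟨false, a, m⟩).a.getD i 0) ((B.nu ⟨false, a, m⟩).a.getD j 0) := by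
          unfold lab
          rw [if_pos ⟨by rw [hlen']; exact hi, by rw [hlen']; exact hj⟩]
          rfl
        rw [e2]
        exact VI_zip_leg (VI_of_dd_lt hm h1) (by rw [hlen']; exact hi) (by rw [hlen']; exact hj)
          (hlen'.trans h)
      have hz : ∀ p ∈ List.zip a b, ∃ i, i < a.length ∧ p = (a.getD i 0, b.getD i 0) := by
        intro p hp
        obtain ⟨i, hi, rfl⟩ := List.mem_iff_getElem.1 hp
        rw [List.length_zip] at hi
        have hia : i < a.length := lt_of_lt_of_le hi (min_le_left _ _)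
        have hib : i < b.length := h ▸ hia
        refine ⟨i, hia, ?_⟩
        simp [List.getD_eq_getElem, hia, hib]
      intro p hp q hq
      obtain ⟨i, hi, rfl⟩ := hz p hp
      obtain ⟨j, hj, rfl⟩ := hz q hq
      exact key i j hi hj
    · intro β hβ ε' hε'
      refine ⟨fun x => ?_, fun y => ?_⟩
      · obtain ⟨d, hd⟩ := B.move_left h hr h1 x
        refine ⟨d, ?_⟩
        have := ih β hβ (a := x :: a) (b := d :: b) (by simp [h]) hd
        rw [List.zip_cons_cons] at this
        exact W_mono hε'.le this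
      · obtain ⟨c, hc⟩ := B.move_right h hr h1 y
        refine ⟨c, ?_⟩
        have := ih β hβ (a := c :: a) (b := y :: b) (by simp [h]) hc
        rw [List.zip_cons_cons] at this
        exact W_mono hε'.le this

end Bk

theorem Cr_of_Bk (B : Bk f g) : Cr f g := by
  refine cr_of_VI fun ε hε => ?_
  have h1 : VI f g (min ε 1) [] := fun α => by
    have := B.W_of_T α (a := []) (b := []) rfl (r := min ε 1) (by
      rw [B.T_nil]
      exact lt_min hε one_pos) (min_le_right _ _)
    simpa using this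
  exact VI_mono (min_le_left _ _) h1

end Pool.Agent.H7.GH
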