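import Pool.Agent.H7.GH.LD

/-!
# GH-SP: `l^1(ι; F)` is Polish

`ι` countable, `F` separable: the set of the finitely supported elements with coordinates in a countable
dense set is countable and dense; or: the closed span of the union of the separable sets
`Set.range (lp.single 1 i)` (`TopologicalSpace.IsSeparable`, `isSeparable_range`,
`IsSeparable.iUnion`, `IsSeparable.span`, `IsSeparable.closure`) is everything by
`lp.hasSum_single`.  Then second countable (`UniformSpace.secondCountable_of_separable`), complete
(`lp` is complete), so Polish.
-/

set_option autoImplicit false
set_option linter.unusedVariables false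
set_option linter.unusedSectionVars false
set_option linter.unusedSimpArgs false
set_option linter.unusedTactic false
set_option linter.unreachableTactic false

namespace Pool.Agent.H7.GH

open Filter Topology
open scoped Ordinal ENNReal

variable {ι F : Type} [NormedAddCommGroup F] [NormedSpace ℝ F] [Countable ι]

instance El_separable [TopologicalSpace.SeparableSpace F] :
    TopologicalSpace.SeparableSpace (El ι F) := by
  classical
  have h1 : ∀ i : ι, TopologicalSpace.IsSeparable
      (Set.range (fun x : F => (lp.single (E := fun _ : ι => F) 1 i x : El ι F))) := by
    intro i
    exact TopologicalSpace.isSeparable_range (lp.isometry_single (p := 1) (E := fun _ : ι => F) i).continuous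
  have h2 := (TopologicalSpace.IsSeparable.iUnion h1).span (R := ℝ)
  have h3 := h2.closure
  have h4 : closure ((Submodule.span ℝ (⋃ i : ι,
      Set.range (fun x : F => (lp.single (E := fun _ : ι => F) 1 i x : El ι F)))
      : Submodule ℝ (El ι F)) : Set (El ι F)) = Set.univ := by
    refine Set.eq_univ_of_forall fun f => ?_
    have hs := lp.hasSum_single (p := 1) ENNReal.one_ne_top f
    refine mem_closure_of_tendsto hs (Filter.Eventually.of_forall fun s => ?_)
    refine Submodule.sum_mem _ fun i _ => ?_
    exact Submodule.subset_span (Set.mem_iUnion.2 ⟨i, ⟨f i, rfl⟩⟩)
  rw [h4] at h3
  exact TopologicalSpace.isSeparable_univ_iff.1 h3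

instance El_polish [CompleteSpace F] [TopologicalSpace.SeparableSpace F] :
    PolishSpace (El ι F) := by
  have : SecondCountableTopology (El ι F) := UniformSpace.secondCountable_of_separable _
  infer_instance

instance Ell_polish : PolishSpace (El ι (Ll ι)) := by
  infer_instance

end Pool.Agent.H7.GH
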