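import Pool.Agent.H7.GH.Mo2
import Pool.Agent.H7.GH.Sp

/-!
# GH-MO3: `Mo ι` is a Polish topological monoid which acts continuously on `Xs ι`

`ι` countable and discrete.  The topology of `Mo ι` is induced by
`g ↦ (g.π, g.π.symm, g.V, g.w)` in `(ι → ι) × (ι → ι) × El ι (Ll ι) × El ι (Ll ι)`.

* `emb_closed`: injective, inducing by definition, the range is
  `{(a, b, V, w) | a ∘ b = id, b ∘ a = id}`, an intersection of clopen conditions
  (`a (b i) = i`: `{(a, b) | a (b i) = i}` is open and closed since `ι` is discrete: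
  `(a, b) ↦ a (b i)` is continuous, e.g. `continuous_iff_continuousAt`, or write it as the union over
  `j` of `{b i = j, a j = i}`).  `IsClosedEmbedding.polishSpace`.
* `ContinuousMul`: `continuous_iff_continuousAt`; with `l = 𝓝 (g₀, h₀)`: coordinates converge;
  permutations: `∀ j, ∀ᶠ (g, h), (g * h).π j = (g₀ * h₀).π j` because eventually `h.π j = h₀.π j` and
  `g.π (h₀.π j) = g₀.π (h₀.π j)`; similarly for the inverses.  The vector parts: `tendsto_mpM`,
  `tendsto_sh`.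
* `ContinuousSMul`: coordinates of the result: locally constant resp. `tendsto_M`; the index
  `g.π.symm p` is eventually constant.
-/

set_option autoImplicit false
set_option linter.unusedVariables false
set_option linter.unusedSectionVars false
set_option linter.unusedSimpArgs false
set_option linter.unusedTactic false
set_option linter.unreachableTactic false

namespace Pool.Agent.H7.GH

open Filter Topology
open scoped Ordinal ENNReal

variable {ι : Type} [Countable ι] [TopologicalSpace ι] [DiscreteTopology ι]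

/-- the embedding which defines the topology -/
def emb (g : Mo ι) : (ι → ι) × (ι → ι) × El ι (Ll ι) × El ι (Ll ι) :=
  (fun i => g.π i, fun i => g.π.symm i, g.V, g.w)

noncomputable instance moTop : TopologicalSpace (Mo ι) := TopologicalSpace.induced emb inferInstance

theorem cont_eval2 (i : ι) : Continuous fun p : (ι → ι) × (ι → ι) × El ι (Ll ι) × El ι (Ll ι) =>
    p.1 (p.2.1 i) := by
  rw [continuous_iff_continuousAt]
  intro p0
  rw [ContinuousAt, nhds_discrete ι, tendsto_pure]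
  have h1 : ∀ᶠ p in 𝓝 p0, p.2.1 i = p0.2.1 i := by
    have : Tendsto (fun p : (ι → ι) × (ι → ι) × El ι (Ll ι) × El ι (Ll ι) => p.2.1 i) (𝓝 p0)
        (𝓝 (p0.2.1 i)) :=
      ((continuous_apply i).comp (continuous_fst.comp continuous_snd)).continuousAt
    rwa [nhds_discrete ι, tendsto_pure] at this
  have h2 : ∀ᶠ p in 𝓝 p0, p.1 (p0.2.1 i) = p0.1 (p0.2.1 i) := by
    have : Tendsto (fun p : (ι → ι) × (ι → ι) × El ι (Ll ι) × El ι (Ll ι) => p.1 (p0.2.1 i)) (𝓝 p0)
        (𝓝 (p0.1 (p0.2.1 i))) :=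
      ((continuous_apply (p0.2.1 i)).comp continuous_fst).continuousAt
    rwa [nhds_discrete ι, tendsto_pure] at this
  filter_upwards [h1, h2] with p a b
  rw [a, b]

theorem cont_eval2' (i : ι) : Continuous fun p : (ι → ι) × (ι → ι) × El ι (Ll ι) × El ι (Ll ι) =>
    p.2.1 (p.1 i) := by
  have h : Continuous fun p : (ι → ι) × (ι → ι) × El ι (Ll ι) × El ι (Ll ι) =>
      ((p.2.1, p.1, p.2.2) : (ι → ι) × (ι → ι) × El ι (Ll ι) × El ι (Ll ι)) := by
    fun_prop
  exact (cont_eval2 i).comp h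

theorem emb_closed : IsClosedEmbedding (emb : Mo ι → _) := by
  refine ⟨⟨⟨rfl⟩, ?_⟩, ?_⟩
  · intro g h e
    simp only [emb, Prod.mk.injEq] at e
    obtain ⟨e1, e2, e3, e4⟩ := e
    apply Mo.ext
    · exact Equiv.ext fun i => congrFun e1 i
    · exact e3
    · exact e4
  · have : Set.range (emb : Mo ι → _) =
        (⋂ i, {p : (ι → ι) × (ι → ι) × El ι (Ll ι) × El ι (Ll ι) | p.1 (p.2.1 i) = i}) ∩
        (⋂ i, {p : (ι → ι) × (ι → ι) × El ι (Ll ι) × El ι (Ll ι) | p.2.1 (p.1 i) = i}) := by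
      ext p
      simp only [Set.mem_range, Set.mem_inter_iff, Set.mem_iInter, Set.mem_ofPred_eq]
      constructor
      · rintro ⟨g, rfl⟩
        exact ⟨fun i => by simp [emb], fun i => by simp [emb]⟩
      · rintro ⟨h1, h2⟩
        exact ⟨⟨⟨p.1, p.2.1, h2, h1⟩, p.2.2.1, p.2.2.2⟩, rfl⟩
    rw [this]
    refine IsClosed.inter (isClosed_iInter fun i => ?_) (isClosed_iInter fun i => ?_)
    · exact isClosed_eq (cont_eval2 i) continuous_const
    · exact isClosed_eq (cont_eval2' i) continuous_const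

instance moPolish : PolishSpace (Mo ι) := by
  have : PolishSpace ι := inferInstance
  exact (emb_closed (ι := ι)).polishSpace

/-- convergence in `Mo ι` -/
theorem tendsto_mo {α : Type} {l : Filter α} {g : α → Mo ι} {g₀ : Mo ι} :
    Tendsto g l (𝓝 g₀) ↔ (∀ j, ∀ᶠ a in l, (g a).π j = g₀.π j) ∧
      (∀ j, ∀ᶠ a in l, (g a).π.symm j = g₀.π.symm j) ∧
      Tendsto (fun a => (g a).V) l (𝓝 g₀.V) ∧ Tendsto (fun a => (g a).w) l (𝓝 g₀.w) := by
  rw [(emb_closed (ι := ι)).isInducing.tendsto_nhds_iff]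
  rw [show emb g₀ = (fun i => g₀.π i, fun i => g₀.π.symm i, g₀.V, g₀.w) from rfl]
  rw [nhds_prod_eq, nhds_prod_eq, nhds_prod_eq, tendsto_prod_iff', tendsto_prod_iff',
    tendsto_prod_iff', tendsto_pi_nhds, tendsto_pi_nhds]
  simp only [nhds_discrete, tendsto_pure]
  rfl

theorem tendsto_xs {α : Type} {l : Filter α} {x : α → Xs ι} {x₀ : Xs ι} :
    Tendsto x l (𝓝 x₀) ↔ (∀ j, ∀ᶠ a in l, (x a).1 j = x₀.1 j) ∧
      (∀ i j, ∀ᶠ a in l, (x a).2.1 i j = x₀.2.1 i j) ∧
      (∀ j, Tendsto (fun a => (x a).2.2 j) l (𝓝 (x₀.2.2 j))) := by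
  rw [show x₀ = (x₀.1, x₀.2.1, x₀.2.2) from rfl]
  rw [nhds_prod_eq, nhds_prod_eq, tendsto_prod_iff', tendsto_prod_iff', tendsto_pi_nhds,
    tendsto_pi_nhds, tendsto_pi_nhds]
  simp only [tendsto_pi_nhds, nhds_discrete, tendsto_pure]

instance moMul : ContinuousMul (Mo ι) := by
  refine ⟨continuous_iff_continuousAt.2 ?_⟩
  rintro ⟨g₀, h₀⟩
  rw [ContinuousAt, tendsto_mo]
  have hg : Tendsto (fun p : Mo ι × Mo ι => p.1) (𝓝 (g₀, h₀)) (𝓝 g₀) := continuousAt_fst
  have hh : Tendsto (fun p : Mo ι × Mo ι => p.2) (𝓝 (g₀, h₀)) (𝓝 h₀) := continuousAt_snd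
  rw [tendsto_mo] at hg hh
  obtain ⟨g1, g2, g3, g4⟩ := hg
  obtain ⟨h1, h2, h3, h4⟩ := hh
  refine ⟨?_, ?_, ?_, ?_⟩
  · intro j
    filter_upwards [h1 j, g1 (h₀.π j)] with p a b
    simp only [Mo.mul_π, Equiv.Perm.mul_apply]
    rw [a, b]
  · intro j
    filter_upwards [g2 j, h2 (g₀.π.symm j)] with p a b
    have e : ∀ g h : Mo ι, (g * h).π.symm j = h.π.symm (g.π.symm j) := fun g h => rfl
    rw [e, e, a, b]
  · simp only [Mo.mul_V]
    exact (tendsto_mpM g1 g3 h3).add (tendsto_sh h2 g3)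
  · simp only [Mo.mul_w]
    exact (tendsto_mpM g1 g3 h4).add (tendsto_sh h2 g4)

instance moSMul : ContinuousSMul (Mo ι) (Xs ι) := by
  refine ⟨continuous_iff_continuousAt.2 ?_⟩
  rintro ⟨g₀, x₀⟩
  rw [ContinuousAt, tendsto_xs]
  have hg : Tendsto (fun p : Mo ι × Xs ι => p.1) (𝓝 (g₀, x₀)) (𝓝 g₀) := continuousAt_fst
  have hx : Tendsto (fun p : Mo ι × Xs ι => p.2) (𝓝 (g₀, x₀)) (𝓝 x₀) := continuousAt_snd
  rw [tendsto_mo] at hg
  rw [tendsto_xs] at hx
  obtain ⟨g1, g2, g3, g4⟩ := hg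
  obtain ⟨x1, x2, x3⟩ := hx
  refine ⟨?_, ?_, ?_⟩
  · intro j
    filter_upwards [g2 j, x1 (g₀.π.symm j)] with p a b
    show p.2.1 (p.1.π.symm j) = x₀.1 (g₀.π.symm j)
    rw [a, b]
  · intro i j
    filter_upwards [g2 i, g2 j, x2 (g₀.π.symm i) (g₀.π.symm j)] with p a a' b
    show p.2.2.1 (p.1.π.symm i) (p.1.π.symm j) = x₀.2.1 (g₀.π.symm i) (g₀.π.symm j)
    rw [a, a', b]
  · intro j
    show Tendsto (fun p : Mo ι × Xs ι => p.1.M (p.2.2.2 (p.1.π.symm j)) + p.1.w (p.1.π.symm j))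
      (𝓝 (g₀, x₀)) (𝓝 (g₀.M (x₀.2.2 (g₀.π.symm j)) + g₀.w (g₀.π.symm j)))
    have hw : Tendsto (fun p : Mo ι × Xs ι => p.1.w (g₀.π.symm j)) (𝓝 (g₀, x₀))
        (𝓝 (g₀.w (g₀.π.symm j))) := by
      rw [tendsto_iff_norm_sub_tendsto_zero] at g4 ⊢
      refine squeeze_zero (fun _ => norm_nonneg _) (fun p => ?_) g4
      exact norm_coe_le (p.1.w - g₀.w) (g₀.π.symm j)
    have hm := tendsto_M g1 g3 (x3 (g₀.π.symm j))
    refine (hm.add hw).congr' ?_
    filter_upwards [g2 j] with p a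
    rw [a]

end Pool.Agent.H7.GH
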