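import Pool.Agent.H7.GH.B6
import Pool.Agent.H7.GH.Mo3

/-!
# GH-B7: the backward direction

* `exists_Bk`: from `γ : (Mo Ix)ˣ` with `γ • ob (dg f) = ob (dg g)`: `π = γ.val.π`, `M = γ.val.M`,
  `M' = (γ⁻¹).val.M`, `W = γ.val.V`, `W' = (γ⁻¹).val.V`, `w = γ.val.w`, ..., `Mo.M_mul`, `Mo.M_one`, `Mo.M_e1`,
  `Mo.smul_fst`, ...; `(γ⁻¹).val.π = γ.val.π.symm` from `Mo.mul_π`, `Mo.one_π`; elements of `l^1` tend to `0`
  along `cofinite` (`summable_norm_coe`, `Summable.tendsto_cofinite_zero`,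
  `tendsto_zero_iff_norm_tendsto_zero`).  `γ⁻¹ • ob (dg g) = ob (dg f)` by `inv_smul_smul`.
  (`Units` act by `Units.smul_def`.)
-/

set_option autoImplicit false
set_option linter.unusedVariables false
set_option linter.unusedSectionVars false
set_option linter.unusedSimpArgs false
set_option linter.unusedTactic false
set_option linter.unreachableTactic false

namespace Pool.Agent.H7.GH

open Pool.Agent.H82.GH Filter Topology
open scoped Ordinal ENNReal

variable {f g : Fn}

private theorem b7_tends (x : El Ix L) : Tendsto (fun q => x q) cofinite (𝓝 0) := by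
  have h := (summable_norm_coe x).tendsto_cofinite_zero
  exact tendsto_zero_iff_norm_tendsto_zero.2 h

theorem exists_Bk (γ : (Mo Ix)ˣ) (h : γ • ob (dg f) = ob (dg g)) : Nonempty (Bk f g) := by
  have h' : γ⁻¹ • ob (dg g) = ob (dg f) := by
    rw [← h, inv_smul_smul]
  have e1 : (γ.val * (γ⁻¹).val) = 1 := by
    rw [← Units.val_mul, mul_inv_cancel, Units.val_one]
  have e2 : ((γ⁻¹).val * γ.val) = 1 := by
    rw [← Units.val_mul, inv_mul_cancel, Units.val_one]
  have hπ : (γ⁻¹).val.π = γ.val.π.symm := by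
    have := congrArg Mo.π e2
    rw [Mo.mul_π, Mo.one_π] at this
    exact mul_eq_one_iff_eq_inv.1 this
  have hMM : ∀ x, (γ⁻¹).val.M (γ.val.M x) = x := by
    intro x
    have := congrArg Mo.M e2
    rw [Mo.M_mul, Mo.M_one] at this
    exact DFunLike.congr_fun this x
  have hMM' : ∀ x, γ.val.M ((γ⁻¹).val.M x) = x := by
    intro x
    have := congrArg Mo.M e1
    rw [Mo.M_mul, Mo.M_one] at this
    exact DFunLike.congr_fun this x
  have hv : γ.val • ob (dg f) = ob (dg g) := h
  have hv' : (γ⁻¹).val • ob (dg g) = ob (dg f) := h'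
  refine ⟨⟨γ.val.π, γ.val.M, (γ⁻¹).val.M, fun q => γ.val.V q, fun q => (γ⁻¹).val.V q,
    fun q => γ.val.w q, fun q => (γ⁻¹).val.w q, hMM, hMM', fun q => γ.val.M_e1 q, ?_,
    b7_tends _, b7_tends _, b7_tends _, b7_tends _, ?_, ?_, ?_, ?_⟩⟩
  · intro q
    rw [(γ⁻¹).val.M_e1 q, hπ]
  · intro q
    have := Mo.smul_fst γ.val (ob (dg f)) q
    rw [hv] at this
    exact this
  · intro q q'
    have := Mo.smul_snd γ.val (ob (dg f)) q q'
    rw [hv] at this
    exact this
  · intro q
    have := Mo.smul_trd γ.val (ob (dg f)) q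
    rw [hv] at this
    exact this
  · intro q
    have := Mo.smul_trd (γ⁻¹).val (ob (dg g)) q
    rw [hv', hπ] at this
    exact this

theorem backward (γ : (Mo Ix)ˣ) (h : γ • ob (dg f) = ob (dg g)) : Cr f g := by
  obtain ⟨B⟩ := exists_Bk γ h
  exact Cr_of_Bk B

end Pool.Agent.H7.GH
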