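import Mathlib

/-!
# GH-CB1: colour preserving bijections

* `exists_col_equiv`: `A`, `B` countable, colourings `c`, `c'` with the same range and with infinite
  fibres over every point of the range: there is a colour preserving bijection.
  (`Equiv.sigmaFiberEquiv`, `nonempty_equiv_of_countable` for infinite countable types, both fibres empty
  outside of the range; `Equiv.sigmaCongrRight`.)
-/

set_option autoImplicit false
set_option linter.unusedVariables false
set_option linter.unusedSectionVars false
set_option linter.unusedSimpArgs false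
set_option linter.unusedTactic false
set_option linter.unreachableTactic false

namespace Pool.Agent.H7.GH

open Filter Topology
open scoped Ordinal ENNReal

theorem exists_col_equiv {A B γ : Type*} [Countable A] [Countable B] (c : A → γ) (c' : B → γ)
    (h1 : ∀ a, ∃ b, c' b = c a) (h2 : ∀ b, ∃ a, c a = c' b)
    (h3 : ∀ a, {x | c x = c a}.Infinite) (h4 : ∀ b, {x | c' x = c' b}.Infinite) :
    ∃ e : A ≃ B, ∀ a, c' (e a) = c a := by
  classical
  have hE : ∀ y : γ, Nonempty ({a // c a = y} ≃ {b // c' b = y}) := by
    intro y
    by_cases hy : ∃ a, c a = y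
    · obtain ⟨a, rfl⟩ := hy
      obtain ⟨b, hb⟩ := h1 a
      haveI : Infinite {x // c x = c a} := (h3 a).to_subtype
      haveI : Infinite {x // c' x = c a} := by
        have h := (h4 b).to_subtype
        rw [hb] at h
        exact h
      haveI : Countable {x // c x = c a} := inferInstance
      haveI : Countable {x // c' x = c a} := inferInstance
      exact nonempty_equiv_of_countable
    · have hy' : ¬ ∃ b, c' b = y := by
        rintro ⟨b, hb⟩
        obtain ⟨a, ha⟩ := h2 b
        exact hy ⟨a, ha.trans hb⟩
      haveI : IsEmpty {a // c a = y} := ⟨fun a => hy ⟨a.1, a.2⟩⟩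
      haveI : IsEmpty {b // c' b = y} := ⟨fun b => hy' ⟨b.1, b.2⟩⟩
      exact ⟨Equiv.equivOfIsEmpty _ _⟩
  let E : ∀ y : γ, {a // c a = y} ≃ {b // c' b = y} := fun y => Classical.choice (hE y)
  refine ⟨(Equiv.sigmaFiberEquiv c).symm.trans
    ((Equiv.sigmaCongrRight E).trans (Equiv.sigmaFiberEquiv c')), fun a => ?_⟩
  exact (E (c a) ⟨a, rfl⟩).2

end Pool.Agent.H7.GH
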