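import Mathlib

/-!
# GH-CB2: back and forth with summable errors

* `exists_baf`: back and forth.  `A`, `B` countable.  Construct an increasing sequence of finite partial
  bijections (lists of triples `(a, b, ε)` or finsets) where the `n`-th new pair has error `2^{-n}`:
  alternate between the least (w.r.t. fixed encodings) element of `A` not yet used and of `B`.  Every
  element of `A` gets exactly one partner and one error; the errors are pairwise different powers
  `2^{-n}` so they are summable: `δ a = 2^{-n}` with `a ↦ n` injective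
  (`Summable.comp_injective`).  Another possibility: use the proof of
  `Order.PartialIso` / `Order.iso_of_countable_dense` type arguments, or build by recursion a function
  `ℕ → Finset (A × B)`.
-/

set_option autoImplicit false
set_option linter.unusedVariables false
set_option linter.unusedSectionVars false
set_option linter.unusedSimpArgs false
set_option linter.unusedTactic false
set_option linter.unreachableTactic false

namespace Pool.Agent.H7.GH

open Filter Topology
open scoped Ordinal ENNReal

/-- least unused element -/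
private theorem cb2_least {A : Type} [Infinite A] (enc : A → ℕ) (l : List A) :
    ∃ a, a ∉ l ∧ ∀ a', a' ∉ l → enc a ≤ enc a' := by
  classical
  have hne : {a : A | a ∉ l}.Nonempty := by
    have hf : (l.toFinset : Set A).Finite := l.toFinset.finite_toSet
    obtain ⟨a, ha⟩ := hf.exists_notMem
    refine ⟨a, ?_⟩
    simpa using ha
  obtain ⟨a, ha, hmin⟩ := WellFounded.has_min (measure enc).wf _ hne
  refine ⟨a, ha, fun a' ha' => ?_⟩
  have := hmin a' ha'
  exact not_lt.1 this

private theorem cb2_surj {A : Type} (enc : A → ℕ) (f : ℕ → A) (hf : Function.Injective f)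
    (g : ℕ → ℕ) (hg : Function.Injective g)
    (h : ∀ n a, (∀ m, m < g n → f m ≠ a) → enc (f (g n)) ≤ enc a) (henc : Function.Injective enc) :
    Function.Surjective f := by
  intro a
  by_contra hcon
  push Not at hcon
  have hinj : Function.Injective (fun n => enc (f (g n))) := henc.comp (hf.comp hg)
  have hinf := Set.infinite_range_of_injective hinj
  apply hinf
  refine (Set.finite_Iic (enc a)).subset ?_
  rintro _ ⟨n, rfl⟩
  exact h n a (fun m _ => hcon m)

theorem exists_baf {A B : Type} [Countable A] [Countable B] (Rel : ℝ → A → B → Prop)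
    (h1 : ∀ (a : A) (ε : ℝ), 0 < ε → ∀ F : Set B, F.Finite → ∃ b, b ∉ F ∧ Rel ε a b)
    (h2 : ∀ (b : B) (ε : ℝ), 0 < ε → ∀ F : Set A, F.Finite → ∃ a, a ∉ F ∧ Rel ε a b) :
    ∃ (e : A ≃ B) (δ : A → ℝ), (∀ a, 0 < δ a) ∧ Summable δ ∧ ∀ a, Rel (δ a) a (e a) := by
  classical
  rcases isEmpty_or_nonempty A with hA | hA
  · have hB : IsEmpty B := by
      refine ⟨fun b => ?_⟩
      obtain ⟨a, -, -⟩ := h2 b 1 one_pos ∅ Set.finite_empty
      exact hA.elim a
    refine ⟨Equiv.equivOfIsEmpty A B, fun _ => 1, fun a => hA.elim a, summable_of_hasFiniteSupport (Set.toFinite _),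
      fun a => hA.elim a⟩
  · obtain ⟨a0⟩ := hA
    have hBinf : Infinite B := by
      refine Infinite.of_not_fintype (fun hfin => ?_)
      obtain ⟨b, hb, -⟩ := h1 a0 1 one_pos Set.univ (Set.toFinite _)
      exact hb (Set.mem_univ _)
    have hBne : Nonempty B := inferInstance
    obtain ⟨b0⟩ := hBne
    have hAinf : Infinite A := by
      refine Infinite.of_not_fintype (fun hfin => ?_)
      obtain ⟨a, ha, -⟩ := h2 b0 1 one_pos Set.univ (Set.toFinite _)
      exact ha (Set.mem_univ _)
    obtain ⟨eA, heA⟩ := Countable.exists_injective_nat A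
    obtain ⟨eB, heB⟩ := Countable.exists_injective_nat B
    -- the step
    have hstep : ∀ l : List (A × B), ∃ q : A × B, q.1 ∉ l.map Prod.fst ∧ q.2 ∉ l.map Prod.snd ∧
        Rel ((1 / 2 : ℝ) ^ l.length) q.1 q.2 ∧
        (Even l.length → ∀ a', a' ∉ l.map Prod.fst → eA q.1 ≤ eA a') ∧
        (Odd l.length → ∀ b', b' ∉ l.map Prod.snd → eB q.2 ≤ eB b') := by
      intro l
      have hpos : (0 : ℝ) < (1 / 2 : ℝ) ^ l.length := by positivity
      rcases Nat.even_or_odd l.length with he | ho
      · obtain ⟨a, ha, hmin⟩ := cb2_least eA (l.map Prod.fst)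
        obtain ⟨b, hb, hr⟩ := h1 a _ hpos ((l.map Prod.snd).toFinset : Set B)
          (Finset.finite_toSet _)
        refine ⟨(a, b), ha, ?_, hr, fun _ => hmin, fun ho => ?_⟩
        · intro hb'
          exact hb (by simpa using hb')
        · exact absurd he (Nat.not_even_iff_odd.2 ho)
      · obtain ⟨b, hb, hmin⟩ := cb2_least eB (l.map Prod.snd)
        obtain ⟨a, ha, hr⟩ := h2 b _ hpos ((l.map Prod.fst).toFinset : Set A)
          (Finset.finite_toSet _)
        refine ⟨(a, b), ?_, hb, hr, fun he => ?_, fun _ => hmin⟩
        · intro ha'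
          exact ha (by simpa using ha')
        · exact absurd he (Nat.not_even_iff_odd.2 ho)
    choose q hq1 hq2 hqR hqe hqo using hstep
    let L : ℕ → List (A × B) := fun n => Nat.rec [] (fun _ l => q l :: l) n
    have hL0 : L 0 = [] := rfl
    have hLs : ∀ n, L (n + 1) = q (L n) :: L n := fun n => rfl
    have hlen : ∀ n, (L n).length = n := by
      intro n
      induction n with
      | zero => rfl
      | succ n ih => rw [hLs, List.length_cons, ih]
    have hmem : ∀ n x, x ∈ L n ↔ ∃ m, m < n ∧ q (L m) = x := by
      intro n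
      induction n with
      | zero => intro x; simp [hL0]
      | succ n ih =>
        intro x
        rw [hLs, List.mem_cons, ih]
        constructor
        · rintro (h | ⟨m, hm, h⟩)
          · exact ⟨n, Nat.lt_succ_self n, h.symm⟩
          · exact ⟨m, Nat.lt_succ_of_lt hm, h⟩
        · rintro ⟨m, hm, h⟩
          rcases Nat.lt_succ_iff_lt_or_eq.1 hm with h' | h'
          · exact Or.inr ⟨m, h', h⟩
          · subst h'
            exact Or.inl h.symm
    have hfstne : ∀ m n, m < n → (q (L m)).1 ≠ (q (L n)).1 := by
      intro m n hmn heq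
      apply hq1 (L n)
      rw [List.mem_map]
      exact ⟨q (L m), (hmem n _).2 ⟨m, hmn, rfl⟩, heq⟩
    have hsndne : ∀ m n, m < n → (q (L m)).2 ≠ (q (L n)).2 := by
      intro m n hmn heq
      apply hq2 (L n)
      rw [List.mem_map]
      exact ⟨q (L m), (hmem n _).2 ⟨m, hmn, rfl⟩, heq⟩
    have hinj1 : Function.Injective (fun n => (q (L n)).1) := by
      intro m n h
      rcases lt_trichotomy m n with h' | h' | h'
      · exact absurd h (hfstne m n h')
      · exact h'
      · exact absurd h.symm (hfstne n m h')
    have hinj2 : Function.Injective (fun n => (q (L n)).2) := by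
      intro m n h
      rcases lt_trichotomy m n with h' | h' | h'
      · exact absurd h (hsndne m n h')
      · exact h'
      · exact absurd h.symm (hsndne n m h')
    have hsur1 : Function.Surjective (fun n => (q (L n)).1) := by
      refine cb2_surj eA _ hinj1 (fun n => 2 * n) (fun a b h => by simpa using h) ?_ heA
      intro n a hn
      refine hqe (L (2 * n)) (by rw [hlen]; exact even_two_mul n) a ?_
      intro ha
      rw [List.mem_map] at ha
      obtain ⟨x, hx, hxa⟩ := ha
      obtain ⟨m, hm, hmx⟩ := (hmem _ _).1 hx
      exact hn m hm (by rw [← hxa, ← hmx])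
    have hsur2 : Function.Surjective (fun n => (q (L n)).2) := by
      refine cb2_surj eB _ hinj2 (fun n => 2 * n + 1) (fun a b h => by simpa using h) ?_ heB
      intro n a hn
      have hodd : Odd (L (2 * n + 1)).length := (hlen (2 * n + 1)).symm ▸ odd_two_mul_add_one n
      refine hqo (L (2 * n + 1)) hodd a ?_
      intro ha
      rw [List.mem_map] at ha
      obtain ⟨x, hx, hxa⟩ := ha
      obtain ⟨m, hm, hmx⟩ := (hmem (2 * n + 1) x).1 hx
      exact hn m hm (by rw [← hxa, ← hmx])
    let E1 : ℕ ≃ A := Equiv.ofBijective (fun n => (q (L n)).1) ⟨hinj1, hsur1⟩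
    let E2 : ℕ ≃ B := Equiv.ofBijective (fun n => (q (L n)).2) ⟨hinj2, hsur2⟩
    refine ⟨E1.symm.trans E2, fun a => (1 / 2 : ℝ) ^ (E1.symm a), fun a => by positivity, ?_, ?_⟩
    · exact summable_geometric_two.comp_injective E1.symm.injective
    · intro a
      have h := hqR (L (E1.symm a))
      rw [hlen] at h
      have h3 : (q (L (E1.symm a))).1 = a := E1.apply_symm_apply a
      rw [h3] at h
      exact h

end Pool.Agent.H7.GH
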