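import Pool.Agent.H82.GH.RankInv

/-!
# Project GH (MP_6859fc_lc): basic definitions

`VI f g ε L`: the finite partial correspondence `L` has infinite rank with error `ε`.
Positions, obligations, states, and their ranks `rg`.
-/

namespace Pool.Agent.H7.GH

open Pool.Agent.H82.GH
open scoped Ordinal

/-- structures -/
abbrev Fn : Type := ℕ → ℕ → ℝ

/-- the position `L` with error `ε` has infinite rank -/
def VI (f g : Fn) (ε : ℝ) (L : List (ℕ × ℕ)) : Prop := ∀ α : Ordinal.{0}, W f g α ε L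

/-- `f` and `g` are at Gromov-Hausdorff distance `0` -/
def Cr (f g : Fn) : Prop := ∀ ε > 0, Corr f g ε []

/-- pairs of structures (two copies) -/
abbrev Pr : Type := Bool → Fn

/-- the diagonal pair -/
def dg (f : Fn) : Pr := fun _ => f

/-- positions: two copies, a finite partial correspondence, an error -/
abbrev Pos : Type := Bool × Bool × List (ℕ × ℕ) × ℚ

/-- the position has rank at least `α` -/
def PV (H : Pr) (α : Ordinal.{0}) (p : Pos) : Prop :=
  W (H p.1) (H p.2.1) α (p.2.2.2 : ℝ) p.2.2.1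

/-- the position has infinite rank -/
def PI (H : Pr) (p : Pos) : Prop := VI (H p.1) (H p.2.1) (p.2.2.2 : ℝ) p.2.2.1

/-- the position is legal -/
def PL (H : Pr) (p : Pos) : Prop :=
  ∀ x ∈ p.2.2.1, ∀ y ∈ p.2.2.1, |H p.1 x.1 y.1 - H p.2.1 x.2 y.2| ≤ (p.2.2.2 : ℝ)

/-- the successor position after the moves `c`, `d`, with additional error `1 / (j + 1)` -/
def nx (p : Pos) (c d j : ℕ) : Pos :=
  (p.1, p.2.1, (c, d) :: p.2.2.1, p.2.2.2 + 1 / ((j : ℚ) + 1))

/-- obligations: a position, a code of the fuel, a counter -/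
abbrev Obl : Type := Pos × ℕ × ℕ

/-- states -/
abbrev St : Type := List Obl

/-- there is an enumeration of the ordinals below `ω ^ ω` -/
theorem exists_fu : ∃ fu : ℕ → Ordinal.{0}, Set.range fu = Set.Iio (ω ^ ω) := by
  have hc : Countable (Set.Iio ((ω : Ordinal.{0}) ^ (ω : Ordinal.{0}))) := by
    rw [← Cardinal.mk_le_aleph0_iff, Cardinal.mk_Iio_ordinal, ← Cardinal.lift_aleph0.{1, 0},
      Cardinal.lift_le]
    refine (Ordinal.card_opow_le _ _).trans ?_
    simp
  have hne : (Set.Iio ((ω : Ordinal.{0}) ^ (ω : Ordinal.{0}))).Nonempty :=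
    ⟨0, Ordinal.opow_pos _ Ordinal.omega0_pos⟩
  obtain ⟨f, hf⟩ := (Set.countable_coe_iff.1 hc).exists_eq_range hne
  exact ⟨f, hf.symm⟩

/-- the fuel with a given code -/
noncomputable def fu : ℕ → Ordinal.{0} := exists_fu.choose

theorem range_fu : Set.range fu = Set.Iio (ω ^ ω) := exists_fu.choose_spec

/-- the state `T` answers the obligation `o` -/
def Ans (T : St) (o : Obl) : Prop :=
  (fu o.2.1 = 0 → (o.1, o.2.1, o.2.2 + 1) ∈ T ∧ ∀ c < o.2.2, ∀ j < o.2.2,
    (∃ d, (nx o.1 c d j, o.2.1, o.2.2 + 1) ∈ T) ∧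
    ∃ d, (nx o.1 d c j, o.2.1, o.2.2 + 1) ∈ T) ∧
  (fu o.2.1 ≠ 0 → ∃ v, fu v < fu o.2.1 ∧ (o.1, v, o.2.2) ∈ T)

/-- all positions of the state are legal -/
def Lg (H : Pr) (S : St) : Prop := ∀ o ∈ S, PL H o.1

/-- `T` is a legal answer to `S` -/
def Tr (H : Pr) (S T : St) : Prop := Lg H T ∧ ∀ o ∈ S, Ans T o

/-- the state has rank at least `β` -/
def rg (H : Pr) (β : Ordinal.{0}) (S : St) : Prop :=
  Lg H S ∧ ∀ (γ : Ordinal.{0}) (_ : γ < β), ∃ T, Tr H S T ∧ rg H γ T
termination_by β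

/-- the two states have the same type -/
def Ty (H H' : Pr) (S S' : St) : Prop := ∀ τ : Ordinal.{0}, rg H τ S ↔ rg H' τ S'

/-- the exact ranks of the states -/
def Gs (H : Pr) : Set Ordinal.{0} := {τ | ∃ S, rg H τ S ∧ ¬ rg H (τ + 1) S}

/-- the current state of a vertex -/
def cur (S : St) : List (St × ℕ) → St
  | [] => S
  | x :: _ => x.1

/-- the vertex is alive over the state `S` (newest element first) -/
def Chn (H : Pr) (S : St) : List (St × ℕ) → Prop
  | [] => True
  | x :: t => Tr H (cur S t) x.1 ∧ Chn H S t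

end Pool.Agent.H7.GH
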