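import Pool.Agent.H7.GH.Nm
import Pool.Agent.H7.GH.Cn
import Pool.Agent.H7.GH.Sp
import Pool.Agent.H7.GH.Vi

/-!
# GH-MS: the coding is Borel

`f ↦ ob (dg f)` is measurable from `Fn` (product σ-algebra of `ℕ → ℕ → ℝ`) to `Xs Ix` with the Borel
σ-algebra of the product topology.  `Ll Ix` is separable (`Sp`), so the Borel σ-algebra of the countable
product is the product σ-algebra (`Pi.borelSpace`, `Prod.borelSpace`; give `Ll Ix` the measurable space
`borel _` locally), so it is enough that all coordinates are measurable.
* `srt` is constant.
* `rel (dg f) q q'` takes countably many values (values in `ℕ`), is constant except for `vx p t, vx p' t'`, and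
  there the set `{f | Ch (dg f) p t t'}` is measurable: `Lg`, `PL` are finite conjunctions of closed
  conditions `|f a b - f c d| ≤ r` (`measurableSet_le`, `Finset`/`List` induction or
  `MeasurableSet.biInter` over the countable/finite set of members), `Tr (dg f) S T` is `Lg (dg f) T` and a condition which does not
  depend on `f`, `Chn` by induction on the list, `Al` similarly.
* `loc (dg f) q`: constant, or `lb`: continuous function of `f (..) (..)` times a fixed vector, or `pt`: `if` of a
  measurable set between two constants (`Measurable.ite`).
-/

set_option autoImplicit false
set_option linter.unusedVariables false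
set_option linter.unusedSectionVars false
set_option linter.unusedSimpArgs false
set_option linter.unusedTactic false
set_option linter.unreachableTactic false

namespace Pool.Agent.H7.GH

open Pool.Agent.H82.GH Filter Topology
open scoped Ordinal ENNReal

theorem ms_eval (x y : ℕ) : Measurable fun f : Fn => f x y :=
  (measurable_pi_apply y).comp (measurable_pi_apply x)

theorem ms_Lg (S : St) : Measurable fun f : Fn => Lg (dg f) S := by
  unfold Lg PL dg
  refine Measurable.forall fun o => Measurable.imp measurable_const
    (Measurable.forall fun x => Measurable.imp measurable_const
      (Measurable.forall fun y => Measurable.imp measurable_const ?_))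
  refine measurableSet_setOfPred.1 (measurableSet_le ?_ measurable_const)
  exact measurable_norm.comp ((ms_eval x.1 y.1).sub (ms_eval x.2 y.2))

theorem ms_Al (p : Pt) : Measurable fun f : Fn => Al (dg f) p := by
  unfold Al
  exact (ms_Lg p.S).and measurable_const

theorem ms_Chn (S : St) (t : List (St × ℕ)) : Measurable fun f : Fn => Chn (dg f) S t := by
  induction t with
  | nil => exact measurable_const
  | cons x t ih =>
    show Measurable fun f : Fn => (Lg (dg f) x.1 ∧ ∀ o ∈ cur S t, Ans x.1 o) ∧ Chn (dg f) S t
    exact ((ms_Lg x.1).and measurable_const).and ih

theorem ms_Ch (p : Pt) (t t' : List (St × ℕ)) : Measurable fun f : Fn => Ch (dg f) p t t' := by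
  unfold Ch
  exact (ms_Al p).and ((ms_Chn p.S t').and measurable_const)

theorem measurableSet_Lg (S : St) : MeasurableSet {f : Fn | Lg (dg f) S} :=
  measurableSet_setOfPred.2 (ms_Lg S)

theorem measurableSet_Al (p : Pt) : MeasurableSet {f : Fn | Al (dg f) p} :=
  measurableSet_setOfPred.2 (ms_Al p)

theorem measurableSet_Ch (p : Pt) (t t' : List (St × ℕ)) :
    MeasurableSet {f : Fn | Ch (dg f) p t t'} :=
  measurableSet_setOfPred.2 (ms_Ch p t t')

theorem ms_rel (q q' : Ix) : Measurable fun f : Fn => rel (dg f) q q' := by
  cases q with
  | bs b => simp only [rel]; exact measurable_const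
  | st => simp only [rel]; exact measurable_const
  | un n => simp only [rel]; exact measurable_const
  | lb y k l =>
    cases q' with
    | bs b => simp only [rel]; exact measurable_const
    | st => simp only [rel]; exact measurable_const
    | un n => simp only [rel]; exact measurable_const
    | lb y' k' l' => simp only [rel]; exact measurable_const
    | pt p => simp only [rel]; exact measurable_const
    | vx p t => simp only [rel]; exact measurable_const
  | pt p =>
    cases q' with
    | bs b => simp only [rel]; exact measurable_const
    | st => simp only [rel]; exact measurable_const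
    | un n => simp only [rel]; exact measurable_const
    | lb y' k' l' => simp only [rel]; exact measurable_const
    | pt p => simp only [rel]; exact measurable_const
    | vx p t => simp only [rel]; exact measurable_const
  | vx p t =>
    cases q' with
    | bs b => simp only [rel]; exact measurable_const
    | st => simp only [rel]; exact measurable_const
    | un n => simp only [rel]; exact measurable_const
    | lb y' k' l' => simp only [rel]; exact measurable_const
    | pt p => simp only [rel]; exact measurable_const
    | vx p' t' =>
      simp only [rel]
      refine Measurable.ite ?_ measurable_const measurable_const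
      exact measurableSet_setOfPred.2 (measurable_const.and (ms_Ch p t t'))

theorem ms_lab (y : Nd) (k l : ℕ) : Measurable fun f : Fn => lab (dg f) y k l := by
  unfold lab dg
  by_cases h : k < y.a.length ∧ l < y.a.length
  · simp only [h, and_self, if_true]
    exact ms_eval _ _
  · simp only [h, if_false]
    exact measurable_const

theorem ms_loc [MeasurableSpace (Ll Ix)] [BorelSpace (Ll Ix)] (q : Ix) :
    Measurable fun f : Fn => loc (dg f) q := by
  cases q with
  | bs b => simp only [loc]; exact measurable_const
  | st => simp only [loc]; exact measurable_const
  | un n => simp only [loc]; exact measurable_const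
  | lb y k l =>
    simp only [loc]
    have h : Continuous fun r : ℝ => (((1 / 2 : ℝ) ^ (k + l) * r) • e1 Ix.st : Ll Ix) := by
      fun_prop
    exact h.measurable.comp (ms_lab y k l)
  | pt p =>
    simp only [loc]
    exact Measurable.ite (measurableSet_Al p) measurable_const measurable_const
  | vx p t => simp only [loc]; exact measurable_const

theorem measurable_ob :
    @Measurable Fn (Xs Ix) inferInstance (borel (Xs Ix)) (fun f => ob (dg f)) := by
  let _ : MeasurableSpace (Ll Ix) := borel _
  have _ : BorelSpace (Ll Ix) := ⟨rfl⟩
  have hs : TopologicalSpace.SeparableSpace (Ll Ix) := inferInstanceAs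
    (TopologicalSpace.SeparableSpace (El Ix ℝ))
  have hsc : SecondCountableTopology (Ll Ix) := UniformSpace.secondCountable_of_separable _
  have h1 : BorelSpace (Ix → Ll Ix) := inferInstance
  have h2 : BorelSpace (Ix → Ix → ℕ) := inferInstance
  have hB : (inferInstance : MeasurableSpace (Xs Ix)) = borel (Xs Ix) := BorelSpace.measurable_eq
  rw [← hB]
  unfold ob
  refine Measurable.prodMk measurable_const (Measurable.prodMk ?_ ?_)
  · exact measurable_pi_lambda _ fun q => measurable_pi_lambda _ fun q' => ms_rel q q'
  · exact measurable_pi_lambda _ fun q => ms_loc q

end Pool.Agent.H7.GH
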