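import Mathlib

/-!
# GH-UN: the group of units of a Polish monoid is Polish

`Units.embedProduct` is an embedding into `M × Mᵐᵒᵖ` (`Units.isEmbedding_embedProduct`) with closed range
`{(x, y) | x * unop y = 1, unop y * x = 1}` (or `Units.isClosedEmbedding_embedProduct` if it exists), and
`IsClosedEmbedding.polishSpace`.  `Mᵐᵒᵖ` is homeomorphic to `M`, hence Polish.
-/

set_option autoImplicit false
set_option linter.unusedVariables false
set_option linter.unusedSectionVars false
set_option linter.unusedSimpArgs false
set_option linter.unusedTactic false
set_option linter.unreachableTactic false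

namespace Pool.Agent.H7.GH

open Filter Topology
open scoped Ordinal ENNReal

theorem units_polish (M : Type) [Monoid M] [TopologicalSpace M] [ContinuousMul M] [PolishSpace M] :
    PolishSpace Mˣ := by
  have h1 : PolishSpace Mᵐᵒᵖ :=
    (MulOpposite.opHomeomorph (M := M)).symm.isClosedEmbedding.polishSpace
  have h2 : IsClosedEmbedding (Units.embedProduct M) := by
    refine ⟨Units.isEmbedding_embedProduct, ?_⟩
    have h3 : Set.range (Units.embedProduct M) =
        {p : M × Mᵐᵒᵖ | p.1 * p.2.unop = 1 ∧ p.2.unop * p.1 = 1} := by
      ext p
      constructor
      · rintro ⟨u, rfl⟩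
        exact ⟨by simp [Units.embedProduct], by simp [Units.embedProduct]⟩
      · rintro ⟨h, h'⟩
        refine ⟨⟨p.1, p.2.unop, h, h'⟩, ?_⟩
        apply Prod.ext
        · rfl
        · rfl
    rw [h3]
    refine IsClosed.inter ?_ ?_
    · exact isClosed_eq (continuous_fst.mul (MulOpposite.continuous_unop.comp continuous_snd))
        continuous_const
    · exact isClosed_eq ((MulOpposite.continuous_unop.comp continuous_snd).mul continuous_fst)
        continuous_const
  exact h2.polishSpace

end Pool.Agent.H7.GH
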