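import Pool.Agent.H7.GH.K11
import Pool.Agent.H7.GH.B7
import Pool.Agent.H7.GH.Ms
import Pool.Agent.H7.GH.Un
import Pool.Agent.H82.GH.GHCorr

/-!
# GH-FIN: assembly
-/

set_option autoImplicit false
set_option linter.unusedVariables false
set_option linter.unusedSectionVars false
set_option linter.unusedSimpArgs false
set_option linter.unusedTactic false
set_option linter.unreachableTactic false

namespace Pool.Agent.H7.GH

open Pool.Agent.H82.GH Filter Topology
open scoped Ordinal ENNReal

instance : PolishSpace (Xs Ix) := by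
  haveI : PolishSpace (Ll Ix) := El_polish
  unfold Xs
  infer_instance

theorem main :
    ∃ (G : Type) (_ : Group G) (_ : TopologicalSpace G) (_ : IsTopologicalGroup G)
      (_ : PolishSpace G) (Y : Type) (_ : TopologicalSpace Y) (_ : PolishSpace Y)
      (_ : MeasurableSpace Y) (_ : BorelSpace Y) (_ : MulAction G Y) (_ : ContinuousSMul G Y)
      (θ : Met → Y), Measurable θ ∧
        ∀ f g, ghDist (Space f) (Space g) = 0 ↔ ∃ γ : G, γ • θ f = θ g := by
  haveI : PolishSpace (Mo Ix)ˣ := units_polish (Mo Ix)
  letI : MeasurableSpace (Xs Ix) := borel _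
  haveI : BorelSpace (Xs Ix) := ⟨rfl⟩
  refine ⟨(Mo Ix)ˣ, inferInstance, inferInstance, inferInstance, inferInstance, Xs Ix,
    inferInstance, inferInstance, borel _, ⟨rfl⟩, inferInstance, inferInstance,
    fun f => ob (dg f.1), ?_, fun f g => ?_⟩
  · exact measurable_ob.comp measurable_subtype_coe
  · rw [ghDist_eq_zero_iff]
    exact ⟨fun h => forward h, fun ⟨γ, h⟩ => backward γ h⟩

end Pool.Agent.H7.GH
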