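import Pool.Agent.H7.GH.Rg4
import Pool.Agent.H7.GH.Cb1

/-!
# GH-FO1: children

Let `Gs H = Gs H'`.

* `child_equiv`: for states `S`, `S'` which are legal (for `H` resp. `H'`) and have the same type
  (`Ty H H' S S'`) there is a bijection `e` of `St × ℕ` with: `Tr H S x.1 ↔ Tr H' S' (e x).1`, and in this
  case `Ty H H' x.1 (e x).1`.  Use `exists_col_equiv` with the colourings
  `c x = if Tr H S x.1 then some {τ | rg H τ x.1} else none` (values in `Option (Set Ordinal.{0})`) and
  `c'` similarly.  Fibres are infinite because `c` does not depend on `x.2`.  Ranges agree (by symmetry one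
  inclusion is enough; `Ty` is symmetric): the colour `none`: some `T` is not a legal state for `H'`, for
  instance `[((false, false, [(0, 0)], -1), 0, 0)]` (the difference is `0`, not `≤ -1`).  The colour
  `some {τ | rg H τ T}` with `Tr H S T`: if `T` has all ranks then `S` has (`rg_succ`, or `rg_iff`), so
  `S'` has, `exists_inf_child` gives `T'` with the colour `some univ`.  Otherwise `T` has an exact rank
  `ρ` (`rg_exact`, legality of `T` from `Tr`), `rg H (ρ + 1) S` (`rg_succ`), so `rg H' (ρ + 1) S'`, so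
  there is `T1` with `Tr H' S' T1`, `rg H' ρ T1`, and by `Gs` a state `T2` of exact rank `ρ` for `H'`;
  `T1 ++ T2` is a child (`Tr_append_lg`) with exact rank `ρ` (`rg_append`), its colour is
  `{τ | τ ≤ ρ}` (`rg_le`).
-/

set_option autoImplicit false
set_option linter.unusedVariables false
set_option linter.unusedSectionVars false
set_option linter.unusedSimpArgs false
set_option linter.unusedTactic false
set_option linter.unreachableTactic false

namespace Pool.Agent.H7.GH

open Pool.Agent.H82.GH Filter Topology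
open scoped Ordinal ENNReal

variable {H H' : Pr} {S S' T : St} {τ : Ordinal.{0}}

/-- the colour of a child -/
private noncomputable def fo1_col (H : Pr) (S : St) (x : St × ℕ) : Option (Set Ordinal.{0}) := by
  classical
  exact if Tr H S x.1 then some {τ | rg H τ x.1} else none

private theorem fo1_pos {H : Pr} {S : St} {x : St × ℕ} (h : Tr H S x.1) :
    fo1_col H S x = some {τ | rg H τ x.1} := by
  simp [fo1_col, h]

private theorem fo1_neg {H : Pr} {S : St} {x : St × ℕ} (h : ¬ Tr H S x.1) :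
    fo1_col H S x = none := by
  simp [fo1_col, h]

private theorem fo1_iff {H : Pr} {S : St} {x : St × ℕ} : Tr H S x.1 ↔ fo1_col H S x ≠ none := by
  constructor
  · intro h
    rw [fo1_pos h]
    simp
  · intro h
    by_contra hn
    exact h (fo1_neg hn)

private theorem fo1_range {H H' : Pr} {S S' : St} (hG : Gs H = Gs H') (h : Lg H S)
    (hT : Ty H H' S S') (a : St × ℕ) : ∃ b, fo1_col H' S' b = fo1_col H S a := by
  by_cases ha : Tr H S a.1
  · by_cases hall : ∀ τ, rg H τ a.1
    · have hS : ∀ τ, rg H' τ S' := fun τ =>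
        (hT τ).1 (rg_anti (le_self_add : τ ≤ τ + 1) (rg_succ h ha (hall τ)))
      obtain ⟨T, hT1, hT2⟩ := exists_inf_child hS
      refine ⟨(T, 0), ?_⟩
      rw [fo1_pos ha, fo1_pos (x := (T, 0)) hT1]
      congr 1
      ext τ
      exact ⟨fun _ => hall τ, fun _ => hT2 τ⟩
    · have hall' : ∃ σ, ¬ rg H σ a.1 := by
        by_contra hcon
        exact hall fun τ => by
          by_contra h1
          exact hcon ⟨τ, h1⟩
      obtain ⟨ρ, hρ1, hρ2⟩ := rg_exact ha.1 hall'
      have h1 : rg H' (ρ + 1) S' := (hT _).1 (rg_succ h ha hρ1)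
      obtain ⟨T1, hT1, hT1'⟩ := (rg_iff.1 h1).2 ρ (Order.lt_add_one_iff.2 le_rfl)
      have hG' : ρ ∈ Gs H' := hG ▸ (⟨a.1, hρ1, hρ2⟩ : ρ ∈ Gs H)
      obtain ⟨T2, hT2, hT2'⟩ := hG'
      refine ⟨(T1 ++ T2, 0), ?_⟩
      have h3 : Tr H' S' (T1 ++ T2) := Tr_append_lg hT1 (rg_lg hT2)
      rw [fo1_pos ha, fo1_pos (x := (T1 ++ T2, 0)) h3]
      congr 1
      ext τ
      show rg H' τ (T1 ++ T2) ↔ rg H τ a.1
      rw [rg_le hρ1 hρ2, rg_le (rg_append.2 ⟨hT1', hT2⟩) (fun h4 => hT2' (rg_append.1 h4).2)]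
  · refine ⟨([((false, false, [(0, 0)], -1), 0, 0)], 0), ?_⟩
    rw [fo1_neg ha, fo1_neg]
    intro h4
    have h5 := h4.1 ((false, false, [(0, 0)], -1), 0, 0) (by simp)
    have h6 := h5 (0, 0) (by simp) (0, 0) (by simp)
    norm_num at h6

private theorem fo1_inf {H : Pr} {S : St} (a : St × ℕ) :
    {x | fo1_col H S x = fo1_col H S a}.Infinite := by
  refine Set.infinite_of_injective_forall_mem (f := fun n : ℕ => ((a.1, n) : St × ℕ)) ?_ ?_
  · intro m n hmn
    exact (Prod.mk.inj hmn).2
  · intro n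
    rfl

theorem child_equiv (hG : Gs H = Gs H') (h : Lg H S) (hT : Ty H H' S S') :
    ∃ e : (St × ℕ) ≃ (St × ℕ), ∀ x, (Tr H S x.1 ↔ Tr H' S' (e x).1) ∧
      (Tr H S x.1 → Ty H H' x.1 (e x).1) := by
  have h' : Lg H' S' := rg_lg ((hT 0).1 (rg_zero.2 h))
  obtain ⟨e, he⟩ := exists_col_equiv (fo1_col H S) (fo1_col H' S')
    (fo1_range hG h hT) (fo1_range hG.symm h' (fun τ => (hT τ).symm)) fo1_inf fo1_inf
  refine ⟨e, fun x => ⟨?_, ?_⟩⟩
  · rw [fo1_iff, fo1_iff, he]
  · intro hx
    have hx' : Tr H' S' (e x).1 := by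
      rw [fo1_iff, he]
      exact fo1_iff.1 hx
    have h1 := he x
    rw [fo1_pos hx, fo1_pos hx'] at h1
    have h2 := Option.some.inj h1
    intro τ
    have h3 : (τ ∈ {τ | rg H' τ (e x).1}) = (τ ∈ {τ | rg H τ x.1}) := by rw [h2]
    exact (iff_of_eq h3).symm

end Pool.Agent.H7.GH
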