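import Pool.Agent.H7.GH.Fo1

/-!
# GH-FO2: the forest lemma

Let `Gs H = Gs H'`.

* `forest`: define for all pairs of states a bijection `E S S' : St × ℕ ≃ St × ℕ` (the one of
  `child_equiv` if the hypotheses hold, `Equiv.refl` otherwise).  Define `φ : List → List` by
  `φ [] = []`, `φ (x :: t) = E (cur S t) (cur S' (φ t)) x :: φ t`, and `ψ` in the other direction by
  `ψ [] = []`, `ψ (x :: t) = (E (cur S (ψ t)) (cur S' t)).symm x :: ψ t`; they are inverse (induction).
  Invariant by induction on `t`: `Chn H S t ↔ Chn H' S' (φ t)` and if `Chn H S t` then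
  `cur S t`, `cur S' (φ t)` are legal and have the same type.
-/

set_option autoImplicit false
set_option linter.unusedVariables false
set_option linter.unusedSectionVars false
set_option linter.unusedSimpArgs false
set_option linter.unusedTactic false
set_option linter.unreachableTactic false

namespace Pool.Agent.H7.GH

open Pool.Agent.H82.GH Filter Topology
open scoped Ordinal ENNReal

variable {H H' : Pr} {S S' T : St} {τ : Ordinal.{0}}

/-- the map on the vertices given by a family of bijections of the children -/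
def fw (E : St → St → (St × ℕ) ≃ (St × ℕ)) (S S' : St) : List (St × ℕ) → List (St × ℕ)
  | [] => []
  | x :: t => E (cur S t) (cur S' (fw E S S' t)) x :: fw E S S' t

/-- the inverse of `fw` -/
def bw (E : St → St → (St × ℕ) ≃ (St × ℕ)) (S S' : St) : List (St × ℕ) → List (St × ℕ)
  | [] => []
  | x :: t => (E (cur S (bw E S S' t)) (cur S' t)).symm x :: bw E S S' t

theorem bw_fw (E : St → St → (St × ℕ) ≃ (St × ℕ)) (S S' : St) (l : List (St × ℕ)) :
    bw E S S' (fw E S S' l) = l := by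
  induction l with
  | nil => rfl
  | cons x t ih =>
    simp only [fw, bw, ih, Equiv.symm_apply_apply]

theorem fw_bw (E : St → St → (St × ℕ) ≃ (St × ℕ)) (S S' : St) (l : List (St × ℕ)) :
    fw E S S' (bw E S S' l) = l := by
  induction l with
  | nil => rfl
  | cons x t ih =>
    simp only [fw, bw, ih, Equiv.apply_symm_apply]

theorem forest (hG : Gs H = Gs H') (h : Lg H S) (hT : Ty H H' S S') :
    ∃ φ : List (St × ℕ) ≃ List (St × ℕ), φ [] = [] ∧ (∀ x t, ∃ x', φ (x :: t) = x' :: φ t) ∧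
      ∀ t, Chn H S t ↔ Chn H' S' (φ t) := by
  have hE : ∀ A B : St, ∃ e : (St × ℕ) ≃ (St × ℕ), Lg H A → Ty H H' A B →
      ∀ x, (Tr H A x.1 ↔ Tr H' B (e x).1) ∧ (Tr H A x.1 → Ty H H' x.1 (e x).1) := by
    intro A B
    by_cases hh : Lg H A ∧ Ty H H' A B
    · obtain ⟨e, he⟩ := child_equiv hG hh.1 hh.2
      exact ⟨e, fun _ _ => he⟩
    · exact ⟨Equiv.refl _, fun h1 h2 => absurd ⟨h1, h2⟩ hh⟩
  choose E hE using hE
  have key : ∀ t, (Chn H S t ↔ Chn H' S' (fw E S S' t)) ∧
      (Chn H S t → Lg H (cur S t) ∧ Ty H H' (cur S t) (cur S' (fw E S S' t))) := by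
    intro t
    induction t with
    | nil => exact ⟨⟨fun _ => trivial, fun _ => trivial⟩, fun _ => ⟨h, hT⟩⟩
    | cons x t ih =>
      by_cases hc : Chn H S t
      · obtain ⟨h1, h2⟩ := ih.2 hc
        have h3 := hE (cur S t) (cur S' (fw E S S' t)) h1 h2 x
        refine ⟨⟨fun h4 => ⟨h3.1.1 h4.1, ih.1.1 h4.2⟩, fun h4 => ⟨h3.1.2 h4.1, hc⟩⟩, fun h4 => ?_⟩
        exact ⟨h4.1.1, h3.2 h4.1⟩
      · refine ⟨⟨fun h4 => absurd h4.2 hc, fun h4 => absurd (ih.1.2 h4.2) hc⟩, fun h4 => absurd h4.2 hc⟩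
  exact ⟨⟨fw E S S', bw E S S', bw_fw E S S', fw_bw E S S'⟩, rfl, fun x t => ⟨_, rfl⟩,
    fun t => (key t).1⟩

end Pool.Agent.H7.GH
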