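import Pool.Agent.H7.GH.Kd
import Pool.Agent.H7.GH.N1
import Pool.Agent.H7.GH.Cn

/-!
# GH-K1: closedness, inclusions

`Lk`, `Nk` are closures of spans, see `N1.lean` for the same facts about `NN`.

* `Nk_le_Lk`: `R b ∈ Lk κ` for names of the copy `κ` (nodes: `0`; for `pa` and `ed` the endpoints are
  nodes of the same copy), then `Submodule.topologicalClosure_minimal`.
* `Nk_le_NN`: if `H κ = h`, `b` is in the copy `κ` and valid for `dg h` then it is valid for `H`
  (the position of an edge with `e.i = κ`, `e.j = κ` only uses `H κ`).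
* `va_congr`: `va` only depends on the structures of the copies occurring.
-/

set_option autoImplicit false
set_option linter.unusedVariables false
set_option linter.unusedSectionVars false
set_option linter.unusedSimpArgs false
set_option linter.unusedTactic false
set_option linter.unreachableTactic false

namespace Pool.Agent.H7.GH

open Pool.Agent.H82.GH Filter Topology
open scoped Ordinal ENNReal

variable {κ : Bool} {h : Fn} {H H' : Pr}

theorem isClosed_Lk (κ : Bool) : IsClosed ((Lk κ : Submodule ℝ L) : Set L) :=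
  Submodule.isClosed_topologicalClosure _

theorem isClosed_Nk (κ : Bool) (h : Fn) : IsClosed ((Nk κ h : Submodule ℝ L) : Set L) :=
  Submodule.isClosed_topologicalClosure _

theorem e1_mem_Lk {b : Bs} (hb : cp κ b) : e1 (Ix.bs b) ∈ Lk κ :=
  Submodule.le_topologicalClosure _ (Submodule.subset_span ⟨b, hb, rfl⟩)

theorem R_mem_Lk {b : Bs} (hb : cp κ b) : R b ∈ Lk κ := by
  cases b with
  | nd y => exact (Lk κ).zero_mem
  | pa p =>
    refine (Lk κ).sub_mem (e1_mem_Lk hb) ((Lk κ).sub_mem ?_ ?_)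
    · exact e1_mem_Lk (b := .nd p.x) hb
    · exact e1_mem_Lk (b := .nd p.y) hb
  | ed e =>
    refine (Lk κ).sub_mem (e1_mem_Lk hb) ((Lk κ).smul_mem _ ((Lk κ).sub_mem ?_ ?_))
    · exact e1_mem_Lk (b := .nd e.x) hb.1
    · exact e1_mem_Lk (b := .nd e.y) hb.2

theorem Nk_le_Lk (κ : Bool) (h : Fn) : Nk κ h ≤ Lk κ := by
  refine Submodule.topologicalClosure_minimal _ ?_ (isClosed_Lk κ)
  refine Submodule.span_le.2 ?_
  rintro x ⟨b, hb, -, rfl⟩
  exact R_mem_Lk hb

theorem R_mem_Nk {b : Bs} (hb : cp κ b) (hv : Vl (dg h) b) : R b ∈ Nk κ h :=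
  Submodule.le_topologicalClosure _ (Submodule.subset_span ⟨b, hb, hv, rfl⟩)

theorem Nk_le_NN (hH : H κ = h) : Nk κ h ≤ NN H := by
  refine Submodule.topologicalClosure_minimal _ ?_ (isClosed_NN H)
  refine Submodule.span_le.2 ?_
  rintro x ⟨b, hb, hv, rfl⟩
  refine R_mem ?_
  cases b with
  | nd y => exact Vl_nd y
  | pa p => exact Vl_pa p
  | ed e =>
    rw [Vl_ed] at hv ⊢
    obtain ⟨h1, h2⟩ := hb
    unfold PI Ed.p at hv ⊢
    simp only at hv ⊢
    rw [h1, h2, hH]
    exact hv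

theorem va_congr {b : Bs} (hb : cp κ b) (hH : H κ = H' κ) : va κ h H b = va κ h H' b := by
  have key : ∀ y : Nd, y.i = κ → vn κ h H y = vn κ h H' y := by
    intro y hy
    unfold vn
    rw [hy, hH]
  cases b with
  | nd y => exact key y hb
  | pa p =>
    show vn κ h H p.x - vn κ h H p.y = vn κ h H' p.x - vn κ h H' p.y
    rw [key p.x hb, key p.y hb]
  | ed e =>
    show ((e.q : ℝ)⁻¹) • (vn κ h H e.x - vn κ h H e.y) =
      ((e.q : ℝ)⁻¹) • (vn κ h H' e.x - vn κ h H' e.y)
    rw [key e.x hb.1, key e.y hb.2]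

theorem clm_Lk (A : L →L[ℝ] L) (hA : ∀ b, cp κ b → A (e1 (Ix.bs b)) = e1 (Ix.bs b)) {x : L}
    (hx : x ∈ Lk κ) : A x = x := by
  let P : Submodule ℝ L := LinearMap.ker ((A - ContinuousLinearMap.id ℝ L : L →L[ℝ] L) : L →ₗ[ℝ] L)
  have hP : IsClosed (P : Set L) := (A - ContinuousLinearMap.id ℝ L : L →L[ℝ] L).isClosed_ker
  have hle : Lk κ ≤ P := by
    refine Submodule.topologicalClosure_minimal _ ?_ hP
    refine Submodule.span_le.2 ?_
    rintro y ⟨b, hb, rfl⟩
    show A (e1 (Ix.bs b)) - e1 (Ix.bs b) = 0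
    rw [hA b hb, sub_self]
  have := hle hx
  have h2 : A x - x = 0 := this
  exact sub_eq_zero.1 h2

theorem Ok.symm (h1 : Ok κ h H H') : Ok κ h H' H := ⟨h1.e2, h1.e1, h1.c2, h1.c1⟩

end Pool.Agent.H7.GH
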