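import Pool.Agent.H7.GH.K3

/-!
# GH-K4: the operator of the matching data

Let `D : Md κ h H H'`.
* `T_bs`, `T_st`: `ex_e1`; the values are bounded: `‖V b‖ ≤ δ b ≤ C` (a summable family is bounded).
* `symm`: `π⁻¹`, `V' b = - V (π⁻¹ b)`, `δ' b = δ (π⁻¹ b)` (`Summable.comp_injective`); `SP_symm`.
  For `lb`: `π⁻¹ (nd y) = nd y'` means `π (nd y') = nd y`, `abs_sub_comm`.
* `T_Lk`: `clm_Lk` and `D.cp`.
* `T_symm_T`: `clm_ext`: on `e1 (bs b)`: `T e_b = e_{π b} + V b`,
  `T' e_{π b} = e_b - V b`, `T' (V b) = V b` since `V b ∈ Lk κ`.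
* `T_en`: for a node `y`: `T (en y) - va κ h H (nd y) ∈ NN H'`: `T (en y) = e_{π (nd y)} + V`, and
  `π (nd y)` is a node `nd y'` (`sb`; `Nat.pair` is injective and the first components of the other sorts
  differ).  `en y' - va H' (nd y') ∈ NN H'` (`en_vn`), `V - (va H (nd y) - va H' (nd y')) ∈ Nk ≤ NN H'`.
* `T_R`: `T (R b) - R (π b) ∈ NN H'`.  Nodes: `R b = 0`, `R (π b) = 0` (`π b` is a node).  `b = pa x`:
  `T (R b) = e_{π b} + V b - (T (en x.x) - T (en x.y))`, by `T_en` this is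
  `e_{π b} + V b - va H b` modulo `NN H'`, by `Vv` it is `e_{π b} - va H' (π b)`, by `R_va` for `H'` it is
  `R (π b)`.  Edges: the same with the factor `q⁻¹`.
* `Vl_π`: `Vl H b ↔ Vl H' (π b)` by `p1`, `p2`, `SP_PI`.
* `T_NN`: `clm_NN` with `T_R`, `R_mem`, `Vl_π`.
-/

set_option autoImplicit false
set_option linter.unusedVariables false
set_option linter.unusedSectionVars false
set_option linter.unusedSimpArgs false
set_option linter.unusedTactic false
set_option linter.unreachableTactic false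

namespace Pool.Agent.H7.GH

open Pool.Agent.H82.GH Filter Topology
open scoped Ordinal ENNReal

variable {κ : Bool} {h : Fn} {H H' : Pr}

namespace Md

variable (D : Md κ h H H')

private theorem k4_ai (π : Equiv.Perm Bs) (b : Bs) : π (π⁻¹ b) = b := π.apply_symm_apply b

private theorem k4_ia (π : Equiv.Perm Bs) (b : Bs) : π⁻¹ (π b) = b := π.symm_apply_apply b

private theorem k4_bdd : ∃ C : ℝ, ∀ q : Ix, ‖((match q with
    | .bs b => e1 (Ix.bs (D.π b)) + D.V b
    | q => e1 q : L))‖ ≤ C := by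
  have h0 : ∀ b, 0 ≤ D.δ b := fun b => (norm_nonneg _).trans (D.Vn b)
  have hle : ∀ b, D.δ b ≤ ∑' b, D.δ b := fun b => D.hδ.le_tsum b (fun j _ => h0 j)
  have hs0 : 0 ≤ ∑' b, D.δ b := tsum_nonneg h0
  refine ⟨1 + ∑' b, D.δ b, fun q => ?_⟩
  cases q with
  | bs b =>
    refine (norm_add_le _ _).trans ?_
    rw [norm_e1]
    exact add_le_add le_rfl ((D.Vn b).trans (hle b))
  | st => exact (norm_e1 _).le.trans (by linarith)
  | un n => exact (norm_e1 _).le.trans (by linarith)
  | lb y k l => exact (norm_e1 _).le.trans (by linarith)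
  | pt p => exact (norm_e1 _).le.trans (by linarith)
  | vx p t => exact (norm_e1 _).le.trans (by linarith)

theorem T_bs (b : Bs) : D.T (e1 (Ix.bs b)) = e1 (Ix.bs (D.π b)) + D.V b := by
  obtain ⟨C, hC⟩ := k4_bdd D
  unfold T
  exact ex_e1 hC (Ix.bs b)

theorem T_other {q : Ix} (hq : ∀ b, q ≠ Ix.bs b) : D.T (e1 q) = e1 q := by
  obtain ⟨C, hC⟩ := k4_bdd D
  unfold T
  cases q with
  | bs b => exact absurd rfl (hq b)
  | st => exact ex_e1 hC Ix.st
  | un n => exact ex_e1 hC (Ix.un n)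
  | lb y k l => exact ex_e1 hC (Ix.lb y k l)
  | pt p => exact ex_e1 hC (Ix.pt p)
  | vx p t => exact ex_e1 hC (Ix.vx p t)

/-- the inverse matching data -/
noncomputable def symm : Md κ h H' H where
  π := D.π⁻¹
  V := fun b => - D.V (D.π⁻¹ b)
  δ := fun b => D.δ (D.π⁻¹ b)
  ok := D.ok.symm
  hδ := D.hδ.comp_injective (D.π⁻¹).injective
  cp := by
    intro b hb
    obtain ⟨h1, h2⟩ := D.cp b hb
    have h3 : D.π⁻¹ b = b := Equiv.Perm.inv_eq_iff_eq.2 h1.symm
    exact ⟨h3, by rw [h3, h2, neg_zero]⟩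
  sb := by
    intro b
    have h1 := D.sb (D.π⁻¹ b)
    rw [k4_ai] at h1
    exact h1.symm
  p1 := by
    intro b p hp
    obtain ⟨p', hp', hs⟩ := D.p2 (D.π⁻¹ b) p (by rwa [k4_ai])
    exact ⟨p', hp', SP_symm hs⟩
  p2 := by
    intro b p' hp'
    obtain ⟨p, hp, hs⟩ := D.p1 (D.π⁻¹ b) p' hp'
    rw [k4_ai] at hp
    exact ⟨p, hp, SP_symm hs⟩
  Vm := fun b => Submodule.neg_mem _ (D.Vm _)
  Vn := fun b => by
    rw [norm_neg]
    exact D.Vn _
  Vv := by
    intro b
    have h1 := D.Vv (D.π⁻¹ b)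
    rw [k4_ai] at h1
    have h2 := Submodule.neg_mem _ h1
    have e : - D.V (D.π⁻¹ b) - (va κ h H' b - va κ h H (D.π⁻¹ b)) =
        -(D.V (D.π⁻¹ b) - (va κ h H (D.π⁻¹ b) - va κ h H' b)) := by abel
    rw [e]
    exact h2
  lb := by
    intro y y' hyy k l
    have h1 : D.π (.nd y') = .nd y := by
      rw [← hyy, k4_ai]
    have h2 := D.lb y' y h1 k l
    rw [abs_sub_comm] at h2
    show |lab H' y k l - lab H y' k l| ≤ D.δ (D.π⁻¹ (.nd y))
    rw [hyy]
    exact h2

theorem symm_π : D.symm.π = D.π⁻¹ := rfl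

theorem T_Lk {x : L} (hx : x ∈ Lk κ) : D.T x = x := by
  refine clm_Lk D.T (fun b hb => ?_) hx
  rw [T_bs, (D.cp b hb).1, (D.cp b hb).2, add_zero]

theorem T_symm_T (x : L) : D.symm.T (D.T x) = x := by
  have key : D.symm.T.comp D.T = ContinuousLinearMap.id ℝ L := by
    refine clm_ext fun q => ?_
    have hother : (∀ b, q ≠ Ix.bs b) → (D.symm.T.comp D.T) (e1 q) =
        (ContinuousLinearMap.id ℝ L) (e1 q) := by
      intro hq
      rw [ContinuousLinearMap.comp_apply, T_other D hq, T_other D.symm hq]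
      rfl
    cases q with
    | bs b =>
      rw [ContinuousLinearMap.comp_apply, T_bs, map_add, T_bs, T_Lk D.symm (D.Vm b)]
      show e1 (Ix.bs (D.π⁻¹ (D.π b))) + - D.V (D.π⁻¹ (D.π b)) + D.V b = e1 (Ix.bs b)
      rw [k4_ia]
      abel
    | st => exact hother (fun b => by simp)
    | un n => exact hother (fun b => by simp)
    | lb y k l => exact hother (fun b => by simp)
    | pt p => exact hother (fun b => by simp)
    | vx p t => exact hother (fun b => by simp)
  exact DFunLike.congr_fun key x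

theorem T_T_symm (x : L) : D.T (D.symm.T x) = x := by
  have key : D.T.comp D.symm.T = ContinuousLinearMap.id ℝ L := by
    refine clm_ext fun q => ?_
    have hother : (∀ b, q ≠ Ix.bs b) → (D.T.comp D.symm.T) (e1 q) =
        (ContinuousLinearMap.id ℝ L) (e1 q) := by
      intro hq
      rw [ContinuousLinearMap.comp_apply, T_other D.symm hq, T_other D hq]
      rfl
    cases q with
    | bs b =>
      rw [ContinuousLinearMap.comp_apply, T_bs, map_add]
      show D.T (e1 (Ix.bs (D.π⁻¹ b))) + D.T (- D.V (D.π⁻¹ b)) = e1 (Ix.bs b)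
      rw [T_bs, T_Lk D (Submodule.neg_mem _ (D.Vm _)), k4_ai]
      abel
    | st => exact hother (fun b => by simp)
    | un n => exact hother (fun b => by simp)
    | lb y k l => exact hother (fun b => by simp)
    | pt p => exact hother (fun b => by simp)
    | vx p t => exact hother (fun b => by simp)
  exact DFunLike.congr_fun key x

private theorem k4_nd (y : Nd) : ∃ y', D.π (.nd y) = .nd y' := by
  have h1 := D.sb (.nd y)
  generalize D.π (.nd y) = b at h1
  cases b with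
  | nd y' => exact ⟨y', rfl⟩
  | pa x =>
    have h2 : Nat.pair 1 x.a.length = Nat.pair 0 y.a.length := h1
    have h3 := (Nat.pair_eq_pair.1 h2).1
    omega
  | ed e =>
    have h2 : Nat.pair 2 0 = Nat.pair 0 y.a.length := h1
    have h3 := (Nat.pair_eq_pair.1 h2).1
    omega

theorem T_en (y : Nd) : D.T (en y) - va κ h H (.nd y) ∈ NN H' := by
  obtain ⟨y', hy'⟩ := k4_nd D y
  have h1 := D.Vv (.nd y)
  rw [hy'] at h1
  have h2 := Nk_le_NN D.ok.e2 h1
  have h3 := en_vn D.ok.e2 D.ok.c2 y'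
  have e : D.T (en y) - va κ h H (.nd y) = (en y' - vn κ h H' y') +
      (D.V (.nd y) - (va κ h H (.nd y) - va κ h H' (.nd y'))) := by
    have e1' : D.T (en y) = en y' + D.V (.nd y) := by
      unfold en
      rw [T_bs, hy']
    have e2' : va κ h H' (.nd y') = vn κ h H' y' := rfl
    rw [e1', e2']
    abel
  rw [e]
  exact Submodule.add_mem _ h3 h2

private theorem k4_R {b : Bs} {A X : L} (h1 : D.T (R b) = e1 (Ix.bs (D.π b)) + D.V b - A)
    (h2 : A - va κ h H b ∈ NN H') : D.T (R b) - R (D.π b) ∈ NN H' := by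
  have h3 := R_va D.ok.e2 D.ok.c2 (D.π b)
  have h4 := Nk_le_NN D.ok.e2 (D.Vv b)
  have e : D.T (R b) - R (D.π b) = -(R (D.π b) - (e1 (Ix.bs (D.π b)) - va κ h H' (D.π b))) +
      (D.V b - (va κ h H b - va κ h H' (D.π b))) - (A - va κ h H b) := by
    rw [h1]
    abel
  rw [e]
  exact Submodule.sub_mem _ (Submodule.add_mem _ (Submodule.neg_mem _ h3) h4) h2

theorem T_R (b : Bs) : D.T (R b) - R (D.π b) ∈ NN H' := by
  cases b with
  | nd y =>
    obtain ⟨y', hy'⟩ := k4_nd D y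
    have e : D.T (R (.nd y)) - R (D.π (.nd y)) = 0 := by
      rw [hy']
      show D.T 0 - 0 = 0
      rw [map_zero, sub_zero]
    rw [e]
    exact Submodule.zero_mem _
  | pa p =>
    refine k4_R (X := 0) D (A := D.T (en p.x) - D.T (en p.y)) ?_ ?_
    · show D.T (e1 (Ix.bs (.pa p)) - (en p.x - en p.y)) = _
      rw [map_sub, map_sub, T_bs]
    · have h1 := Submodule.sub_mem _ (T_en D p.x) (T_en D p.y)
      have e : D.T (en p.x) - D.T (en p.y) - va κ h H (.pa p) =
          (D.T (en p.x) - va κ h H (.nd p.x)) - (D.T (en p.y) - va κ h H (.nd p.y)) := by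
        show D.T (en p.x) - D.T (en p.y) - (vn κ h H p.x - vn κ h H p.y) =
          (D.T (en p.x) - vn κ h H p.x) - (D.T (en p.y) - vn κ h H p.y)
        abel
      rw [e]
      exact h1
  | ed e =>
    refine k4_R (X := 0) D (A := ((e.q : ℝ)⁻¹) • (D.T (en e.x) - D.T (en e.y))) ?_ ?_
    · show D.T (e1 (Ix.bs (.ed e)) - ((e.q : ℝ)⁻¹) • (en e.x - en e.y)) = _
      rw [map_sub, map_smul, map_sub, T_bs]
    · have h1 := Submodule.smul_mem _ ((e.q : ℝ)⁻¹)
        (Submodule.sub_mem _ (T_en D e.x) (T_en D e.y))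
      have e' : ((e.q : ℝ)⁻¹) • (D.T (en e.x) - D.T (en e.y)) - va κ h H (.ed e) =
          ((e.q : ℝ)⁻¹) • ((D.T (en e.x) - va κ h H (.nd e.x)) -
            (D.T (en e.y) - va κ h H (.nd e.y))) := by
        show ((e.q : ℝ)⁻¹) • (D.T (en e.x) - D.T (en e.y)) -
            ((e.q : ℝ)⁻¹) • (vn κ h H e.x - vn κ h H e.y) =
          ((e.q : ℝ)⁻¹) • ((D.T (en e.x) - vn κ h H e.x) - (D.T (en e.y) - vn κ h H e.y))
        rw [← smul_sub]
        congr 1
        abel
      rw [e']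
      exact h1

theorem Vl_π (b : Bs) : Vl H b ↔ Vl H' (D.π b) := by
  constructor
  · intro hv p' hp'
    obtain ⟨p, hp, hs⟩ := D.p2 b p' hp'
    exact (SP_PI hs).1 (hv p hp)
  · intro hv p hp
    obtain ⟨p', hp', hs⟩ := D.p1 b p hp
    exact (SP_PI hs).2 (hv p' hp')

theorem T_NN {x : L} (hx : x ∈ NN H) : D.T x ∈ NN H' := by
  refine clm_NN D.T (NN H') (isClosed_NN H') (fun b hb => ?_) hx
  have h1 := Submodule.add_mem _ (T_R D b) (R_mem ((Vl_π D b).1 hb))
  rwa [sub_add_cancel] at h1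

end Md

end Pool.Agent.H7.GH
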