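import Pool.Agent.H7.GH.K6
import Pool.Agent.H7.GH.Cb2
import Pool.Agent.H7.GH.K4

/-!
# GH-K7: existence of the matching data

* `Mt_symm`.
* `exists_Md`: apply `exists_baf` to `A = B = {b : Bs // ¬ cp κ b}` with
  `Rel ε b b' = Mt κ h H H' ε b.1 b'.1` (`exists_Mt` for `H, H'` and for `H', H` with `Mt_symm`).
  It gives `e : A ≃ A`, `δ`.  Extend `e` by the identity to `π : Equiv.Perm Bs`
  (`Equiv.Perm.subtypeCongr`/`Equiv.Perm.ofSubtype`, or by hand), `δ` by `0`, `V b` is chosen from
  `Mt.V` for `b` outside of the copy and `0` on the copy.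
  For `b` in the copy: `π b = b`; `p1`, `p2`: the positions of `b` have the same profile for `H` and `H'`
  because `H κ = H' κ`; `Vv`: `va_congr`; `lb`: the labels agree.
-/

set_option autoImplicit false
set_option linter.unusedVariables false
set_option linter.unusedSectionVars false
set_option linter.unusedSimpArgs false
set_option linter.unusedTactic false
set_option linter.unreachableTactic false

namespace Pool.Agent.H7.GH

open Pool.Agent.H82.GH Filter Topology
open scoped Ordinal ENNReal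

variable {κ : Bool} {h : Fn} {H H' : Pr}

theorem Mt_symm {ε : ℝ} {b b' : Bs} (hM : Mt κ h H H' ε b b') : Mt κ h H' H ε b' b := by
  refine ⟨hM.sb.symm, ?_, ?_, ?_, ?_⟩
  · intro p hp
    obtain ⟨p', hp', hs⟩ := hM.p2 p hp
    exact ⟨p', hp', SP_symm hs⟩
  · intro p hp
    obtain ⟨p', hp', hs⟩ := hM.p1 p hp
    exact ⟨p', hp', SP_symm hs⟩
  · obtain ⟨V, hV, hn, hs⟩ := hM.V
    refine ⟨-V, (Lk κ).neg_mem hV, by rw [norm_neg]; exact hn, ?_⟩
    have := (Nk κ h).neg_mem hs
    have h2 : -V - (va κ h H' b' - va κ h H b) = -(V - (va κ h H b - va κ h H' b')) := by abel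
    rw [h2]
    exact this
  · intro y y' hy hy' k l
    rw [abs_sub_comm]
    exact hM.lb y' y hy' hy k l

theorem exists_Md (hO : Ok κ h H H') : Nonempty (Md κ h H H') := by
  classical
  have hinj : Function.Injective (Subtype.val : {b : Bs // ¬ cp κ b} → Bs) :=
    Subtype.val_injective
  obtain ⟨e, δ0, hδ0, hsum, hR⟩ := exists_baf (A := {b : Bs // ¬ cp κ b})
    (B := {b : Bs // ¬ cp κ b}) (fun ε b b' => Mt κ h H H' ε b.1 b'.1)
    (by
      intro a ε hε F hF
      obtain ⟨b', hb', hc, hM⟩ := exists_Mt hO a.2 hε (Subtype.val '' F) (hF.image _)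
      exact ⟨⟨b', hc⟩, fun hh => hb' ⟨_, hh, rfl⟩, hM⟩)
    (by
      intro a ε hε F hF
      obtain ⟨b', hb', hc, hM⟩ := exists_Mt hO.symm a.2 hε (Subtype.val '' F) (hF.image _)
      exact ⟨⟨b', hc⟩, fun hh => hb' ⟨_, hh, rfl⟩, Mt_symm hM⟩)
  choose V0 hV0 hVn0 hVv0 using fun a : {b : Bs // ¬ cp κ b} => (hR a).V
  obtain ⟨π, hπ⟩ : ∃ π : Equiv.Perm Bs, π = Equiv.Perm.ofSubtype e := ⟨_, rfl⟩
  have hπ1 : ∀ b (hb : ¬ cp κ b), π b = (e ⟨b, hb⟩).1 := by
    intro b hb
    rw [hπ]
    exact Equiv.Perm.ofSubtype_apply_of_mem e hb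
  have hπ2 : ∀ b, cp κ b → π b = b := by
    intro b hb
    rw [hπ]
    exact Equiv.Perm.ofSubtype_apply_of_not_mem e (not_not.2 hb)
  have hvacp : ∀ b, cp κ b → va κ h H b = va κ h H' b := by
    intro b hb
    exact va_congr hb (hO.e1.trans hO.e2.symm)
  have hHH : H κ = H' κ := hO.e1.trans hO.e2.symm
  have hSPcp : ∀ b, cp κ b → ∀ p ∈ ps b, SP H H' p p := by
    intro b hb p hp
    cases b with
    | nd y => simp [ps] at hp
    | pa x => simp [ps] at hp
    | ed ed =>
      simp only [ps, List.mem_singleton] at hp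
      subst hp
      obtain ⟨hi, hj⟩ : ed.i = κ ∧ ed.j = κ := hb
      intro α
      unfold PV Ed.p
      simp only [hi, hj, hHH]
  refine ⟨{ π := π
            V := fun b => if hb : ¬ cp κ b then V0 ⟨b, hb⟩ else 0
            δ := fun b => if hb : ¬ cp κ b then δ0 ⟨b, hb⟩ else 0
            ok := hO
            hδ := ?_
            cp := ?_
            sb := ?_
            p1 := ?_
            p2 := ?_
            Vm := ?_
            Vn := ?_
            Vv := ?_
            lb := ?_ }⟩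
  · rw [← hinj.summable_iff]
    · refine hsum.congr fun a => ?_
      simp only [Function.comp_apply]
      rw [dif_pos a.2]
    · intro x hx
      rw [dif_neg]
      intro hh
      exact hx ⟨⟨x, hh⟩, rfl⟩
  · intro b hb
    exact ⟨hπ2 b hb, dif_neg (not_not.2 hb)⟩
  · intro b
    by_cases hb : cp κ b
    · rw [hπ2 b hb]
    · rw [hπ1 b hb]
      exact (hR ⟨b, hb⟩).sb
  · intro b p hp
    by_cases hb : cp κ b
    · rw [hπ2 b hb]
      exact ⟨p, hp, hSPcp b hb p hp⟩
    · rw [hπ1 b hb]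
      exact (hR ⟨b, hb⟩).p1 p hp
  · intro b p hp
    by_cases hb : cp κ b
    · rw [hπ2 b hb] at hp
      exact ⟨p, hp, hSPcp b hb p hp⟩
    · rw [hπ1 b hb] at hp
      exact (hR ⟨b, hb⟩).p2 p hp
  · intro b
    by_cases hb : cp κ b
    · rw [dif_neg (not_not.2 hb)]
      exact (Lk κ).zero_mem
    · rw [dif_pos hb]
      exact hV0 ⟨b, hb⟩
  · intro b
    by_cases hb : cp κ b
    · rw [dif_neg (not_not.2 hb), dif_neg (not_not.2 hb), norm_zero]
    · rw [dif_pos hb, dif_pos hb]
      exact hVn0 ⟨b, hb⟩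
  · intro b
    by_cases hb : cp κ b
    · rw [dif_neg (not_not.2 hb), hπ2 b hb, hvacp b hb, sub_self, sub_zero]
      exact (Nk κ h).zero_mem
    · rw [dif_pos hb, hπ1 b hb]
      exact hVv0 ⟨b, hb⟩
  · intro y y' hy k l
    by_cases hb : cp κ (.nd y)
    · rw [dif_neg (not_not.2 hb)]
      rw [hπ2 _ hb] at hy
      have hyy : y = y' := by
        injection hy
      subst hyy
      have hyi : y.i = κ := hb
      have : lab H y k l = lab H' y k l := by
        unfold lab
        rw [hyi, hHH]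
      rw [this, sub_self, abs_zero]
    · rw [dif_pos hb]
      rw [hπ1 _ hb] at hy
      exact (hR ⟨_, hb⟩).lb y y' rfl hy k l

end Pool.Agent.H7.GH
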