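import Pool.Agent.H7.GH.K9
import Pool.Agent.H7.GH.K7
import Pool.Agent.H7.GH.Fo2

/-!
# GH-K10: the permutation of the index set

From `D : Md κ h H H'`:
* `exists_nu`: `D.π` maps nodes to nodes (by `sb`: `sb (nd y) = pair 0 _`, the other sorts have first
  component `1`, `2`), so it induces a permutation of `Nd` (the inverse from `D.π⁻¹`).
* `exists_Pi`: let `e`, `δ` from `exists_ptEquiv`.  For every point `p` let `Φ p` be the bijection of lists
  from `forest` (with `Gs_eq`, `Al H p` contains legality, `Ty`), or `Equiv.refl` if `p` is dead.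
  Define `Π : Equiv.Perm Ix` by `bs b ↦ bs (D.π b)`, `st ↦ st`, `un n ↦ un n`, `lb y k l ↦ lb (ν y) k l`,
  `pt p ↦ pt (e p)`, `vx p t ↦ vx (e p) (Φ p t)`; inverse: `vx p t ↦ vx (e.symm p) ((Φ (e.symm p)).symm t)`.
  `srt` is preserved (`D.sb`).  `rel` is preserved: by cases; for `lb, bs`: `ν`, `π` are injective and
  agree on nodes; for `pt, vx`: `Φ p t = [] ↔ t = []`; for `vx p t, vx p t'`: `Ch H p t t'` iff
  `Ch H' (e p) (Φ p t) (Φ p t')`: for dead `p` both are false (`e p` is dead).  For alive `p`: `Chn` is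
  preserved by `forest`; `t' = x :: t` gives `Φ t' = x' :: Φ t`; conversely if `Φ t' = x' :: Φ t` then
  `t' ≠ []` (`Φ [] = []`), `t' = y :: s`, `Φ t' = y' :: Φ s`, so `Φ s = Φ t`, `s = t`.
-/

set_option autoImplicit false
set_option linter.unusedVariables false
set_option linter.unusedSectionVars false
set_option linter.unusedSimpArgs false
set_option linter.unusedTactic false
set_option linter.unreachableTactic false

namespace Pool.Agent.H7.GH

open Pool.Agent.H82.GH Filter Topology
open scoped Ordinal ENNReal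

variable {κ : Bool} {h : Fn} {H H' : Pr}

private theorem k10_node {b : Bs} {y : Nd} (h : sb b = sb (.nd y)) : ∃ y', b = .nd y' := by
  cases b with
  | nd y' => exact ⟨y', rfl⟩
  | pa x =>
    simp only [sb] at h
    have := congrArg Nat.unpair h
    simp [Nat.unpair_pair] at this
  | ed e =>
    simp only [sb] at h
    have := congrArg Nat.unpair h
    simp [Nat.unpair_pair] at this

theorem exists_nu (D : Md κ h H H') : ∃ ν : Equiv.Perm Nd, ∀ y, D.π (.nd y) = .nd (ν y) := by
  have h1 : ∀ y, ∃ y', D.π (.nd y) = .nd y' := fun y => k10_node (D.sb _)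
  have h2 : ∀ y, ∃ y', D.π.symm (.nd y) = .nd y' := by
    intro y
    apply k10_node (y := y)
    have := D.sb (D.π.symm (.nd y))
    rw [Equiv.apply_symm_apply] at this
    exact this.symm
  choose f hf using h1
  choose g hg using h2
  refine ⟨⟨f, g, fun y => ?_, fun y => ?_⟩, hf⟩
  · have h3 := hg (f y)
    rw [← hf y, Equiv.symm_apply_apply] at h3
    injection h3 with h4
    exact h4.symm
  · have h3 := hf (g y)
    rw [← hg y, Equiv.apply_symm_apply] at h3
    injection h3 with h4
    exact h4.symm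

/-- the map of the index set -/
private def k10F (π : Bs → Bs) (ν : Nd → Nd) (e : Pt → Pt)
    (Φ : Pt → List (St × ℕ) → List (St × ℕ)) : Ix → Ix
  | .bs b => .bs (π b)
  | .st => .st
  | .un n => .un n
  | .lb y k l => .lb (ν y) k l
  | .pt p => .pt (e p)
  | .vx p t => .vx (e p) (Φ p t)

private def k10E (π : Equiv.Perm Bs) (ν : Equiv.Perm Nd) (e : Pt ≃ Pt)
    (Φ : Pt → (List (St × ℕ) ≃ List (St × ℕ))) : Equiv.Perm Ix where
  toFun := k10F π ν e (fun p => Φ p)
  invFun := k10F π.symm ν.symm e.symm (fun p => (Φ (e.symm p)).symm)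
  left_inv q := by
    cases q <;> simp [k10F]
  right_inv q := by
    cases q <;> simp [k10F]

theorem exists_Pi (D : Md κ h H H') (ν : Equiv.Perm Nd) (hν : ∀ y, D.π (.nd y) = .nd (ν y)) :
    ∃ (P : Equiv.Perm Ix) (δ : Pt → ℝ) (e : Pt ≃ Pt), Summable δ ∧
      (∀ q, srt (P q) = srt q) ∧ (∀ q q', rel H' (P q) (P q') = rel H q q') ∧
      (∀ b, P (.bs b) = .bs (D.π b)) ∧ P .st = .st ∧ (∀ n, P (.un n) = .un n) ∧
      (∀ y k l, P (.lb y k l) = .lb (ν y) k l) ∧ (∀ p, P (.pt p) = .pt (e p)) ∧
      (∀ p t, ∃ t', P (.vx p t) = .vx (e p) t') ∧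
      ∀ p, ‖lc H' (e p) - D.T (lc H p)‖ ≤ δ p := by
  classical
  obtain ⟨e, δ, hδ, he⟩ := exists_ptEquiv D
  have hG : Gs H = Gs H' := Gs_eq D.ok
  have hΦ : ∀ p : Pt, ∃ φ : List (St × ℕ) ≃ List (St × ℕ), φ [] = [] ∧
      (Al H p → (∀ x t, ∃ x', φ (x :: t) = x' :: φ t) ∧
        ∀ t, Chn H p.S t ↔ Chn H' (e p).S (φ t)) := by
    intro p
    by_cases hp : Al H p
    · obtain ⟨φ, h1, h2, h3⟩ := forest hG hp.1 ((he p).2.1 hp)
      exact ⟨φ, h1, fun _ => ⟨h2, h3⟩⟩
    · exact ⟨Equiv.refl _, rfl, fun h => absurd h hp⟩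
  choose Φ hΦ0 hΦ1 using hΦ
  have hnil : ∀ p t, Φ p t = [] ↔ t = [] := by
    intro p t
    constructor
    · intro h1
      rw [← hΦ0 p] at h1
      exact (Φ p).injective h1
    · rintro rfl
      exact hΦ0 p
  have hCh : ∀ p t t', Ch H' (e p) (Φ p t) (Φ p t') ↔ Ch H p t t' := by
    intro p t t'
    unfold Ch
    by_cases hp : Al H p
    · obtain ⟨h2, h3⟩ := hΦ1 p hp
      have h4 : (∃ x, Φ p t' = x :: Φ p t) ↔ ∃ x, t' = x :: t := by
        constructor
        · rintro ⟨x, hx⟩
          cases t' with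
          | nil =>
            rw [hΦ0 p] at hx
            exact absurd hx (by simp)
          | cons y s =>
            obtain ⟨y', hy'⟩ := h2 y s
            rw [hy'] at hx
            injection hx with _ h5
            exact ⟨y, by rw [(Φ p).injective h5]⟩
        · rintro ⟨x, rfl⟩
          exact h2 x t
      rw [h4, ← h3 t', ← (he p).1]
    · have hp' : ¬ Al H' (e p) := fun h5 => hp ((he p).1.2 h5)
      exact ⟨fun h5 => absurd h5.1 hp', fun h5 => absurd h5.1 hp⟩
  refine ⟨k10E D.π ν e Φ, δ, e, hδ, ?_, ?_, fun _ => rfl, rfl, fun _ => rfl, fun _ _ _ => rfl,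
    fun _ => rfl, fun p t => ⟨Φ p t, rfl⟩, fun p => (he p).2.2⟩
  · intro q
    cases q <;> simp [k10E, k10F, srt, D.sb]
  · intro q q'
    cases q with
    | bs b => cases q' <;> rfl
    | st => cases q' <;> rfl
    | un n => cases q' <;> rfl
    | lb y k l =>
      cases q' with
      | bs b =>
        change (if D.π b = Bs.nd (ν y) then Nat.pair k l + 1 else 0)
          = (if b = Bs.nd y then Nat.pair k l + 1 else 0)
        rw [← hν y]
        simp only [EmbeddingLike.apply_eq_iff_eq]
      | st => rfl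
      | un n => rfl
      | lb y' k' l' => rfl
      | pt p => rfl
      | vx p t => rfl
    | pt p =>
      cases q' with
      | bs b => rfl
      | st => rfl
      | un n => rfl
      | lb y' k' l' => rfl
      | pt p => rfl
      | vx p' t =>
        change (if e p = e p' ∧ Φ p' t = [] then 1 else 0) = (if p = p' ∧ t = [] then 1 else 0)
        simp only [EmbeddingLike.apply_eq_iff_eq, hnil]
    | vx p t =>
      cases q' with
      | bs b => rfl
      | st => rfl
      | un n => rfl
      | lb y' k' l' => rfl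
      | pt p => rfl
      | vx p' t' =>
        change (if e p = e p' ∧ Ch H' (e p) (Φ p t) (Φ p' t') then 1 else 0)
          = (if p = p' ∧ Ch H p t t' then 1 else 0)
        by_cases hpp : p = p'
        · subst hpp
          simp only [true_and, hCh]
        · simp [hpp]

end Pool.Agent.H7.GH
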