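import Pool.Agent.H7.GH.K10
import Pool.Agent.H7.GH.Mo3

/-!
# GH-K11: the forward direction

* `step_iso`: from `Ok κ h H H'` take `D` (`exists_Md`), `ν` (`exists_nu`), `P, δ, e` (`exists_Pi`).
  `V : El Ix L := mk1 (fun q => D.V b if q = bs b, 0 otherwise)`; summable because `‖D.V b‖ ≤ D.δ b`
  (`Function.Injective.summable_iff` for `Ix.bs`).
  `w q := loc H' (P q) - D.T (loc H q)`: it is `0` for `bs`, `st`, `un` (there `loc` is the same and `D.T` fixes
  `e1 st` by `T_other`), `vx`; for `lb y k l` it is `(1/2)^(k+l) * (lab H' (ν y) k l - lab H y k l)` times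
  `e1 st`, of norm at most `(1/2)^(k+l) * D.δ (nd y)` (`D.lb`), summable over `Nd × ℕ × ℕ`
  (`Summable.mul_of_nonneg`, geometric series); for `pt p` it is `lc H' (e p) - D.T (lc H p)`, at most `δ p`.
  So `w` is summable (a sum of two functions supported on the ranges of the injective maps
  `(y, k, l) ↦ lb y k l` and `pt`).
  `g := ⟨P, V, w⟩ : Mo Ix` is a unit by `isUnit_mk`: `V q ∈ Lk κ`, and both
  `x ↦ sh P.symm x` and the identity agree on `Lk κ` (continuous linear, `sh_symm_e1`, `P (bs b) = bs b` for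
  `b` in the copy `κ`); `ex V` vanishes on `Lk κ` because `V (bs b) = 0` for `b` in the copy.
  `g.M x = D.T x` for `x` in the closed span of the `e1 (bs b)` and `e1 st` (`M_e1`, `T_bs`, `T_other`), in
  particular for `x = loc H q`.  So `(g • ob H).2.2 (P q) = g.M (loc H q) + w q = loc H' (P q)`
  (`smul_trd`), and the colours are preserved: `g • ob H = ob H'` (functions on `Ix` agree because `P` is
  surjective).
* `forward`: `f, g` with `Cr f g`.  `H₀ = dg f`, `H₁ = fun i => if i = false then f else g` , `H₂ = dg g`.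
  `Ok false f H₀ H₁`, `Ok true g H₁ H₂`; compose the units.
-/

set_option autoImplicit false
set_option linter.unusedVariables false
set_option linter.unusedSectionVars false
set_option linter.unusedSimpArgs false
set_option linter.unusedTactic false
set_option linter.unreachableTactic false

namespace Pool.Agent.H7.GH

open Pool.Agent.H82.GH Filter Topology
open scoped Ordinal ENNReal

variable {κ : Bool} {h : Fn} {H H' : Pr}

/-- two operators which agree on the base names agree on all combinations of relations -/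
private theorem k11_uA (A B : L →L[ℝ] L) (hAB : ∀ b, A (e1 (Ix.bs b)) = B (e1 (Ix.bs b)))
    (l : List (Bs × ℚ)) : A (uA l) = B (uA l) := by
  have hR : ∀ b, A (R b) = B (R b) := by
    intro b
    cases b with
    | nd y => simp only [R, map_zero]
    | pa p => simp only [R, map_sub, en, hAB]
    | ed e => simp only [R, map_sub, map_smul, en, hAB]
  induction l with
  | nil => rw [uA_nil, map_zero, map_zero]
  | cons x l ih => rw [uA_cons, map_add, map_add, map_smul, map_smul, hR, ih]

/-- the vector part -/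
private noncomputable def k11V (D : Md κ h H H') : Ix → L
  | .bs b => D.V b
  | _ => 0

private theorem k11V_summable (D : Md κ h H H') : Summable fun q => ‖k11V D q‖ := by
  have hinj : Function.Injective Ix.bs := fun a b hab => by
    injection hab
  rw [← hinj.summable_iff]
  · refine Summable.of_nonneg_of_le (fun b => norm_nonneg _) (fun b => ?_) D.hδ
    exact D.Vn b
  · intro q hq
    cases q with
    | bs b => exact absurd ⟨b, rfl⟩ hq
    | st => simp [k11V]
    | un n => simp [k11V]
    | lb y k l => simp [k11V]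
    | pt p => simp [k11V]
    | vx p t => simp [k11V]

private theorem k11V_mem (D : Md κ h H H') (q : Ix) : k11V D q ∈ Lk κ := by
  cases q with
  | bs b => exact D.Vm b
  | st => exact (Lk κ).zero_mem
  | un n => exact (Lk κ).zero_mem
  | lb y k l => exact (Lk κ).zero_mem
  | pt p => exact (Lk κ).zero_mem
  | vx p t => exact (Lk κ).zero_mem

/-- the bound of the translations -/
private noncomputable def k11B1 (D : Md κ h H H') : Ix → ℝ
  | .lb y k l => D.δ (.nd y) * ((1 / 2 : ℝ) ^ k * (1 / 2) ^ l)
  | _ => 0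

private def k11B2 (δ : Pt → ℝ) : Ix → ℝ
  | .pt p => δ p
  | _ => 0

private theorem k11B1_summable (D : Md κ h H H') : Summable (k11B1 D) := by
  have hinj : Function.Injective (fun x : Nd × ℕ × ℕ => Ix.lb x.1 x.2.1 x.2.2) := by
    rintro ⟨y, k, l⟩ ⟨y', k', l'⟩ hab
    simp only [Ix.lb.injEq] at hab
    obtain ⟨h1, h2, h3⟩ := hab
    subst h1 h2 h3
    rfl
  rw [← hinj.summable_iff]
  · have hg : Summable fun k : ℕ => (1 / 2 : ℝ) ^ k :=
      summable_geometric_of_lt_one (by norm_num) (by norm_num)
    have hg0 : (0 : ℕ → ℝ) ≤ fun k : ℕ => (1 / 2 : ℝ) ^ k := fun k => by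
      change (0 : ℝ) ≤ (1 / 2 : ℝ) ^ k
      positivity
    have h2 : Summable fun x : ℕ × ℕ => (1 / 2 : ℝ) ^ x.1 * (1 / 2) ^ x.2 :=
      hg.mul_of_nonneg hg hg0 hg0
    have h20 : (0 : ℕ × ℕ → ℝ) ≤ fun x : ℕ × ℕ => (1 / 2 : ℝ) ^ x.1 * (1 / 2) ^ x.2 := fun x => by
      change (0 : ℝ) ≤ (1 / 2 : ℝ) ^ x.1 * (1 / 2) ^ x.2
      positivity
    have hinj2 : Function.Injective Bs.nd := fun a b hab => by
      injection hab
    have h1 : Summable fun y : Nd => D.δ (.nd y) := D.hδ.comp_injective hinj2
    have h10 : (0 : Nd → ℝ) ≤ fun y : Nd => D.δ (.nd y) := fun y =>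
      (norm_nonneg _).trans (D.Vn _)
    exact h1.mul_of_nonneg h2 h10 h20
  · intro q hq
    cases q with
    | lb y k l => exact absurd ⟨(y, k, l), rfl⟩ hq
    | bs b => rfl
    | st => rfl
    | un n => rfl
    | pt p => rfl
    | vx p t => rfl

private theorem k11B2_summable {δ : Pt → ℝ} (hδ : Summable δ) : Summable (k11B2 δ) := by
  have hinj : Function.Injective Ix.pt := fun a b hab => by
    injection hab
  rw [← hinj.summable_iff]
  · exact hδ
  · intro q hq
    cases q with
    | pt p => exact absurd ⟨p, rfl⟩ hq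
    | bs b => rfl
    | st => rfl
    | un n => rfl
    | lb y k l => rfl
    | vx p t => rfl

theorem step_iso (hO : Ok κ h H H') : ∃ γ : (Mo Ix)ˣ, γ • ob H = ob H' := by
  obtain ⟨D⟩ := exists_Md hO
  obtain ⟨ν, hν⟩ := exists_nu D
  obtain ⟨P, δ, e, hδ, hsrt, hrel, hPbs, hPst, hPun, hPlb, hPpt, hPvx, hlc⟩ := exists_Pi D ν hν
  have hV : ∀ q, (mk1 (k11V D) : El Ix L) q = k11V D q := mk1_apply (k11V_summable D)
  have hTst : D.T (e1 Ix.st) = e1 Ix.st := D.T_other (fun b hb => by cases hb)
  -- the translations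
  have hB : ∀ q, ‖loc H' (P q) - D.T (loc H q)‖ ≤ k11B1 D q + k11B2 δ q := by
    intro q
    cases q with
    | bs b => rw [hPbs]; simp [loc, k11B1, k11B2]
    | st => rw [hPst]; simp [loc, k11B1, k11B2]
    | un n => rw [hPun]; simp [loc, k11B1, k11B2, hTst]
    | lb y k l =>
      rw [hPlb]
      simp only [loc, map_smul, hTst, k11B1, k11B2, add_zero]
      rw [← sub_smul, norm_smul, norm_e1, mul_one, ← mul_sub, Real.norm_eq_abs, abs_mul,
        abs_of_nonneg (by positivity : (0 : ℝ) ≤ (1 / 2) ^ (k + l)), pow_add, mul_comm]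
      refine mul_le_mul_of_nonneg_right ?_ (by positivity)
      rw [abs_sub_comm]
      exact D.lb y (ν y) (hν y) k l
    | pt p =>
      rw [hPpt]
      have := hlc p
      simp only [lc] at this
      simp only [loc, k11B1, k11B2, zero_add]
      exact this
    | vx p t =>
      obtain ⟨t', ht'⟩ := hPvx p t
      rw [ht']
      simp [loc, k11B1, k11B2]
  have hws : Summable fun q => ‖loc H' (P q) - D.T (loc H q)‖ :=
    Summable.of_nonneg_of_le (fun q => norm_nonneg _) hB
      ((k11B1_summable D).add (k11B2_summable hδ))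
  have hw : ∀ q, (mk1 (fun q => loc H' (P q) - D.T (loc H q)) : El Ix L) q =
      loc H' (P q) - D.T (loc H q) := mk1_apply hws
  -- the unit
  have hu : IsUnit (⟨P, mk1 (k11V D), mk1 (fun q => loc H' (P q) - D.T (loc H q))⟩ : Mo Ix) := by
    refine Mo.isUnit_mk _ _ _ ?_ ?_
    · intro q
      rw [hV]
      have h1 := clm_Lk (κ := κ) (⟨P, 0, 0⟩ : Mo Ix).M (fun b hb => by
        rw [Mo.M_e1]
        change (e1 (P (.bs b)) : L) + (0 : El Ix L) (.bs b) = _
        rw [hPbs, (D.cp b hb).1, lp.coeFn_zero, Pi.zero_apply, add_zero]) (k11V_mem D q)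
      rw [Mo.M_eq] at h1
      change sh P.symm (k11V D q) + ex (fun i => ((0 : El Ix L) i : L)) (k11V D q) = _ at h1
      rw [Mo.ex_zero', zero_apply, add_zero] at h1
      exact h1
    · intro q
      rw [hV]
      have h1 := clm_Lk (κ := κ) (ContinuousLinearMap.id ℝ L +
        ex (fun i => (mk1 (k11V D) : El Ix L) i)) (fun b hb => by
        rw [add_apply, ex_e1 (C := ‖(mk1 (k11V D) : El Ix L)‖) (fun i => norm_coe_le _ i), hV]
        change e1 (Ix.bs b) + D.V b = _
        rw [(D.cp b hb).2, add_zero]) (k11V_mem D q)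
      rw [add_apply] at h1
      change k11V D q + _ = _ at h1
      exact left_eq_add.1 h1.symm
  -- the operators agree
  set g : Mo Ix := ⟨P, mk1 (k11V D), mk1 (fun q => loc H' (P q) - D.T (loc H q))⟩ with hg
  have hMbs : ∀ b, g.M (e1 (Ix.bs b)) = D.T (e1 (Ix.bs b)) := by
    intro b
    rw [Mo.M_e1, D.T_bs]
    change (e1 (P (.bs b)) : L) + (mk1 (k11V D) : El Ix L) (.bs b) = _
    rw [hPbs, hV]
    rfl
  have hMst : g.M (e1 Ix.st) = e1 Ix.st := by
    rw [Mo.M_e1]
    change (e1 (P .st) : L) + (mk1 (k11V D) : El Ix L) .st = _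
    rw [hPst, hV]
    change _ + (0 : L) = _
    rw [add_zero]
  have hMloc : ∀ q, g.M (loc H q) = D.T (loc H q) := by
    intro q
    cases q with
    | bs b => simp [loc]
    | st => simp [loc]
    | un n => simp only [loc]; rw [hMst, hTst]
    | lb y k l => simp only [loc, map_smul]; rw [hMst, hTst]
    | pt p =>
      simp only [loc]
      split_ifs
      · exact k11_uA g.M D.T hMbs _
      · rw [map_zero, map_zero]
    | vx p t => simp [loc]
  refine ⟨hu.unit, ?_⟩
  rw [Units.smul_def, IsUnit.unit_spec]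
  have h1 : (g • ob H).1 = (ob H').1 := by
    funext p
    obtain ⟨q, rfl⟩ := P.surjective p
    have := Mo.smul_fst g (ob H) q
    change (g • ob H).1 (P q) = _ at this
    rw [this]
    exact (hsrt q).symm
  have h2 : (g • ob H).2.1 = (ob H').2.1 := by
    funext p p'
    obtain ⟨q, rfl⟩ := P.surjective p
    obtain ⟨q', rfl⟩ := P.surjective p'
    have := Mo.smul_snd g (ob H) q q'
    change (g • ob H).2.1 (P q) (P q') = _ at this
    rw [this]
    exact (hrel q q').symm
  have h3 : (g • ob H).2.2 = (ob H').2.2 := by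
    funext p
    obtain ⟨q, rfl⟩ := P.surjective p
    have := Mo.smul_trd g (ob H) q
    change (g • ob H).2.2 (P q) = g.M (loc H q) +
      (mk1 (fun q => loc H' (P q) - D.T (loc H q)) : El Ix L) q at this
    rw [this, hMloc, hw]
    change _ = loc H' (P q)
    abel
  exact Prod.ext h1 (Prod.ext h2 h3)

theorem forward {f g : Fn} (hC : Cr f g) : ∃ γ : (Mo Ix)ˣ, γ • ob (dg f) = ob (dg g) := by
  let H₁ : Pr := fun i => match i with
    | false => f
    | true => g
  have hO1 : Ok false f (dg f) H₁ :=
    { e1 := rfl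
      e2 := rfl
      c1 := fun i => Cr_refl f
      c2 := fun i => match i with
        | false => Cr_refl f
        | true => hC }
  have hO2 : Ok true g H₁ (dg g) :=
    { e1 := rfl
      e2 := rfl
      c1 := fun i => match i with
        | false => Cr_symm hC
        | true => Cr_refl g
      c2 := fun i => Cr_refl g }
  obtain ⟨γ₁, h1⟩ := step_iso hO1
  obtain ⟨γ₂, h2⟩ := step_iso hO2
  exact ⟨γ₂ * γ₁, by rw [mul_smul, h1, h2]⟩

end Pool.Agent.H7.GH
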