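import Pool.Agent.H7.GH.K1

/-!
# GH-K2: the representing vectors `EE`

`exists_EE`: let `Cr h σ` and `a` a tuple.  Put `ε n = (1/2)^n`.  By `VI_ext` (applied to `Cr σ h` and `a`,
then `VI_zip_swap`) choose tuples `c n` of the length of `a` with `VI h σ (ε n) (zip (c n) a)`.
`VI_zip_comp` (with `VI_zip_swap`) gives `VI h h (ε n + ε (n+1)) (zip (c n) (c (n+1)))`, and
`exists_edge (dg h) κ κ` with `q n = 2 * (1/2)^n` (rational) an edge `e n` with endpoints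
`⟨κ, c n, 0⟩`, `⟨κ, c (n+1), 0⟩`, whose position is `PI (dg h)`.  It is in the copy `κ` (its `i`, `j` are
those of the endpoints).  Let `x n = (q n) • e1 (ed (e n)) ∈ Lk κ`, norm `2 * (1/2)^n`; by `R_mem_Nk`
multiplied by `-q n`: `en ⟨κ, c n, 0⟩ - en ⟨κ, c (n+1), 0⟩ - x n ∈ Nk κ h`.
Let `E = en ⟨κ, c 0, 0⟩ - ∑' n, x n` (the series converges, the partial sums are in `Lk κ`, closed).
Claim: `en ⟨κ, c n, 0⟩ - E - ∑' m, x (n + m) ∈ Nk κ h` (induction on `n`; `sum_add_tsum_nat_add` or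
`tsum_eq_zero_add`), and `‖∑' m, x (n + m)‖ ≤ 4 * (1/2)^n`.
Now let `c`, `δ > 0` with `VI h σ δ (zip c a)`.  Choose `n` with `6 * (1/2)^n ≤ δ`.
`VI h h (δ + ε n) (zip c (c n))`; choose a rational `q` with `δ + ε n < q < δ + 2 * ε n` and an edge `e`
from `⟨κ, c, 0⟩` to `⟨κ, c n, 0⟩` with `e.q = q` (`exists_edge`).  `u = q • e1 (ed e) + ∑' m, x (n + m)`,
`‖u‖ ≤ q + 4 ε n ≤ δ + 6 ε n ≤ 2 δ`.

`EE_spec`: the `if` in `EE`.
-/

set_option autoImplicit false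
set_option linter.unusedVariables false
set_option linter.unusedSectionVars false
set_option linter.unusedSimpArgs false
set_option linter.unusedTactic false
set_option linter.unreachableTactic false

namespace Pool.Agent.H7.GH

open Pool.Agent.H82.GH Filter Topology
open scoped Ordinal ENNReal

variable {κ : Bool} {h σ : Fn}

private theorem k2_edge (κ : Bool) {c c' : List ℕ} (hl : c.length = c'.length) {δ : ℝ}
    (h0 : 0 ≤ δ) {q : ℚ} (hq : δ < q) (hV : VI h h δ (List.zip c c')) :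
    ∃ x ∈ Lk κ, ‖x‖ ≤ (q : ℝ) ∧ en ⟨κ, c, 0⟩ - en ⟨κ, c', 0⟩ - x ∈ Nk κ h := by
  have hq0 : (0 : ℝ) < (q : ℝ) := lt_of_le_of_lt h0 hq
  obtain ⟨e, hx, hy, -, heq, -, hP⟩ := exists_edge (dg h) κ κ hl 0 0 0 h0 hq hV
  have hi : e.i = κ := congrArg Nd.i hx
  have hj : e.j = κ := congrArg Nd.i hy
  have hcp : cp κ (Bs.ed e) := ⟨hi, hj⟩
  refine ⟨(q : ℝ) • e1 (Ix.bs (.ed e)), (Lk κ).smul_mem _ (e1_mem_Lk hcp), ?_, ?_⟩
  · rw [norm_smul, norm_e1, mul_one, Real.norm_eq_abs, abs_of_pos hq0]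
  · have h1 := (Nk κ h).smul_mem (-(q : ℝ)) (R_mem_Nk hcp ((Vl_ed e).2 hP))
    have h2 : (-(q : ℝ)) • R (Bs.ed e)
        = en ⟨κ, c, 0⟩ - en ⟨κ, c', 0⟩ - (q : ℝ) • e1 (Ix.bs (.ed e)) := by
      have h3 : R (Bs.ed e) = e1 (Ix.bs (.ed e)) - ((q : ℝ)⁻¹) • (en ⟨κ, c, 0⟩ - en ⟨κ, c', 0⟩) := by
        rw [← hx, ← hy, ← heq]
        rfl
      rw [h3, neg_smul, smul_sub, smul_smul, mul_inv_cancel₀ hq0.ne', one_smul]
      abel
    rw [← h2]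
    exact h1

private theorem k2_tsum_mem (κ : Bool) {x : ℕ → L} (hx : ∀ n, x n ∈ Lk κ) (hs : Summable x) :
    ∑' n, x n ∈ Lk κ := by
  have h1 := hs.hasSum.tendsto_sum_nat
  exact (isClosed_Lk κ).mem_of_tendsto h1
    (Eventually.of_forall fun n => Submodule.sum_mem _ fun i _ => hx i)

theorem exists_EE (κ : Bool) (hσ : Cr h σ) (a : List ℕ) :
    ∃ E ∈ Lk κ, ∀ (c : List ℕ) (δ : ℝ), c.length = a.length → 0 < δ →
    VI h σ δ (List.zip c a) → ∃ u ∈ Lk κ, ‖u‖ ≤ 2 * δ ∧ en ⟨κ, c, 0⟩ - E - u ∈ Nk κ h := by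
  have hpos : ∀ n : ℕ, (0 : ℝ) < (1 / 2) ^ n := fun n => by positivity
  have hex : ∀ n : ℕ, ∃ b : List ℕ, b.length = a.length ∧ VI h σ ((1 / 2) ^ n) (List.zip b a) := by
    intro n
    obtain ⟨b, hb, hV⟩ := VI_ext (Cr_symm hσ) a (hpos n)
    exact ⟨b, hb, VI_zip_swap hV⟩
  choose c hcl hcV using hex
  have hxe : ∀ n : ℕ, ∃ x ∈ Lk κ, ‖x‖ ≤ 2 * (1 / 2 : ℝ) ^ n ∧
      en ⟨κ, c n, 0⟩ - en ⟨κ, c (n + 1), 0⟩ - x ∈ Nk κ h := by
    intro n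
    have hV : VI h h ((1 / 2) ^ n + (1 / 2) ^ (n + 1)) (List.zip (c n) (c (n + 1))) :=
      VI_zip_comp (hcl n) (hcl (n + 1)).symm (hcV n) (VI_zip_swap (hcV (n + 1)))
    have hq : ((1 / 2) ^ n + (1 / 2) ^ (n + 1) : ℝ) < ((2 * (1 / 2) ^ n : ℚ) : ℝ) := by
      push_cast
      rw [pow_succ]
      linarith [hpos n]
    obtain ⟨x, hx, hxn, hxN⟩ := k2_edge κ ((hcl n).trans (hcl (n + 1)).symm)
      (by positivity) hq hV
    refine ⟨x, hx, ?_, hxN⟩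
    push_cast at hxn
    exact hxn
  choose x hxL hxn hxN using hxe
  have hsn : ∀ n, Summable fun m => ‖x (n + m)‖ := by
    intro n
    refine Summable.of_nonneg_of_le (fun _ => norm_nonneg _) (fun m => hxn (n + m)) ?_
    have h1 : Summable fun m : ℕ => (2 * (1 / 2 : ℝ) ^ n) * (1 / 2 : ℝ) ^ m :=
      (summable_geometric_of_lt_one (by norm_num) (by norm_num)).mul_left _
    refine h1.congr fun m => ?_
    rw [pow_add]
    ring
  have hsx : ∀ n, Summable fun m => x (n + m) := fun n => (hsn n).of_norm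
  have hnorm : ∀ n, ‖∑' m, x (n + m)‖ ≤ 4 * (1 / 2 : ℝ) ^ n := by
    intro n
    refine (norm_tsum_le_tsum_norm (hsn n)).trans ?_
    have h1 : HasSum (fun m : ℕ => (2 * (1 / 2 : ℝ) ^ n) * (1 / 2 : ℝ) ^ m)
        ((2 * (1 / 2 : ℝ) ^ n) * (1 - 1 / 2)⁻¹) :=
      (hasSum_geometric_of_lt_one (by norm_num) (by norm_num)).mul_left _
    have h2 : ∑' m, ‖x (n + m)‖ ≤ ∑' m : ℕ, (2 * (1 / 2 : ℝ) ^ n) * (1 / 2 : ℝ) ^ m := by
      refine (hsn n).tsum_le_tsum (fun m => ?_) h1.summable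
      refine (hxn (n + m)).trans (le_of_eq ?_)
      rw [pow_add]
      ring
    rw [h1.tsum_eq] at h2
    refine h2.trans (le_of_eq ?_)
    norm_num
    ring
  have hmem : ∀ n, ∑' m, x (n + m) ∈ Lk κ := fun n =>
    k2_tsum_mem κ (fun m => hxL (n + m)) (hsx n)
  have hen : ∀ c : List ℕ, en ⟨κ, c, 0⟩ ∈ Lk κ := fun c =>
    e1_mem_Lk (b := .nd ⟨κ, c, 0⟩) rfl
  obtain ⟨E, hE⟩ : ∃ E : L, E = en ⟨κ, c 0, 0⟩ - ∑' m, x (0 + m) := ⟨_, rfl⟩
  have hEL : E ∈ Lk κ := by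
    rw [hE]
    exact (Lk κ).sub_mem (hen _) (hmem 0)
  have hclaim : ∀ n, en ⟨κ, c n, 0⟩ - E - ∑' m, x (n + m) ∈ Nk κ h := by
    intro n
    induction n with
    | zero =>
      have h1 : en ⟨κ, c 0, 0⟩ - E - ∑' m, x (0 + m) = 0 := by
        rw [hE]
        abel
      rw [h1]
      exact (Nk κ h).zero_mem
    | succ n ih =>
      have h1 : ∑' m, x (n + m) = x n + ∑' m, x (n + 1 + m) := by
        rw [(hsx n).tsum_eq_zero_add, add_zero]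
        congr 1
        exact tsum_congr fun m => congrArg x (by ring)
      have h3 := (Nk κ h).sub_mem ih (hxN n)
      have h4 : en ⟨κ, c (n + 1), 0⟩ - E - ∑' m, x (n + 1 + m)
          = (en ⟨κ, c n, 0⟩ - E - ∑' m, x (n + m))
            - (en ⟨κ, c n, 0⟩ - en ⟨κ, c (n + 1), 0⟩ - x n) := by
        rw [h1]
        abel
      rw [h4]
      exact h3
  refine ⟨E, hEL, fun d δ hd hδ hV => ?_⟩
  obtain ⟨n, hn⟩ := exists_pow_lt_of_lt_one (show (0 : ℝ) < δ / 6 by positivity)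
    (show (1 / 2 : ℝ) < 1 by norm_num)
  have hV2 : VI h h (δ + (1 / 2) ^ n) (List.zip d (c n)) :=
    VI_zip_comp hd (hcl n).symm hV (VI_zip_swap (hcV n))
  obtain ⟨q, hq1, hq2⟩ := exists_rat_btwn
    (show δ + (1 / 2 : ℝ) ^ n < δ + 2 * (1 / 2) ^ n by linarith [hpos n])
  obtain ⟨y, hy, hyn, hyN⟩ := k2_edge κ (hd.trans (hcl n).symm)
    (add_nonneg hδ.le (hpos n).le) hq1 hV2
  refine ⟨y + ∑' m, x (n + m), (Lk κ).add_mem hy (hmem n), ?_, ?_⟩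
  · refine (norm_add_le _ _).trans ?_
    have h1 := hnorm n
    linarith
  · have h1 := (Nk κ h).add_mem hyN (hclaim n)
    have h2 : en ⟨κ, d, 0⟩ - E - (y + ∑' m, x (n + m))
        = (en ⟨κ, d, 0⟩ - en ⟨κ, c n, 0⟩ - y) + (en ⟨κ, c n, 0⟩ - E - ∑' m, x (n + m)) := by
      abel
    rw [h2]
    exact h1

theorem EE_mem (κ : Bool) (hσ : Cr h σ) (a : List ℕ) : EE κ h σ a ∈ Lk κ := by
  have hE := exists_EE κ hσ a
  unfold EE
  rw [dif_pos hE]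
  exact hE.choose_spec.1

theorem EE_spec (κ : Bool) (hσ : Cr h σ) {a c : List ℕ} (hc : c.length = a.length) {δ : ℝ}
    (hδ : 0 < δ) (hV : VI h σ δ (List.zip c a)) :
    ∃ u ∈ Lk κ, ‖u‖ ≤ 2 * δ ∧ en ⟨κ, c, 0⟩ - EE κ h σ a - u ∈ Nk κ h := by
  have hE := exists_EE κ hσ a
  unfold EE
  rw [dif_pos hE]
  exact hE.choose_spec.2 c δ hc hδ hV

end Pool.Agent.H7.GH
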