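import Pool.Agent.H7.GH.K2

/-!
# GH-K3: comparison of the representing vectors, values of names

* `EE_close`: choose `c` with `VI h σ δ (zip c a)` (`VI_ext` for `Cr σ h`, `VI_zip_swap`); then
  `VI h σ' (δ + δ) (zip c a')` by `VI_zip_comp`; `EE_spec` twice gives `u`, `u'` with `‖u‖ ≤ 2δ`,
  `‖u'‖ ≤ 4δ`, and `P = u' - u`:
  `EE σ a - EE σ' a' - (u' - u) = (en c - EE σ' a' - u') - (en c - EE σ a - u)`.
* `en_vn`: let `y = ⟨i, a, m⟩`, `σ = H i`.  For `ε = (1/2)^n` choose `c` with `VI h σ ε (zip c a)`; `H κ = h`,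
  so `exists_edge H κ i` (with `2ε`) gives `e` with endpoints `⟨κ, c, 0⟩` and `y`, `PI H e.p`, and
  `edge_NN`: `en ⟨κ, c, 0⟩ - en y - q • e1 (ed e) ∈ NN H`; subtract
  `en ⟨κ, c, 0⟩ - EE κ h σ a - u ∈ Nk κ h ≤ NN H`: `en y - vn y - (u - q • e1 (ed e)) ∈ NN H` up to sign,
  and the last term has norm `≤ 4ε`.  So `en y - vn y` is a limit of elements of `NN H`, which is closed.
* `R_va`: nodes: `R = 0`, `en_vn`.  `pa`: `R - (e1 - va) = -(en x - vn x) + (en y - vn y)`, similarly for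
  edges, using `en_vn` for the endpoints.
* `va_mem`: `EE_mem`.
-/

set_option autoImplicit false
set_option linter.unusedVariables false
set_option linter.unusedSectionVars false
set_option linter.unusedSimpArgs false
set_option linter.unusedTactic false
set_option linter.unreachableTactic false

namespace Pool.Agent.H7.GH

open Pool.Agent.H82.GH Filter Topology
open scoped Ordinal ENNReal

variable {κ : Bool} {h σ σ' : Fn} {H H' : Pr}

theorem EE_close (κ : Bool) (hσ : Cr h σ) (hσ' : Cr h σ') {a a' : List ℕ}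
    (ha : a.length = a'.length) {δ : ℝ} (hδ : 0 < δ) (hV : VI σ σ' δ (List.zip a a')) :
    ∃ P ∈ Lk κ, ‖P‖ ≤ 6 * δ ∧ P - (EE κ h σ a - EE κ h σ' a') ∈ Nk κ h := by
  obtain ⟨c, hc, hcV⟩ := VI_ext (Cr_symm hσ) a hδ
  have hcV' := VI_zip_swap hcV
  have hV2 := VI_zip_comp hc ha hcV' hV
  obtain ⟨u, hu, hun, huN⟩ := EE_spec κ hσ hc hδ hcV'
  obtain ⟨u', hu', hun', huN'⟩ := EE_spec κ hσ' (hc.trans ha) (by linarith : 0 < δ + δ) hV2
  refine ⟨u' - u, sub_mem hu' hu, ?_, ?_⟩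
  · calc ‖u' - u‖ ≤ ‖u'‖ + ‖u‖ := norm_sub_le _ _
      _ ≤ 6 * δ := by linarith
  · have h3 := sub_mem huN huN'
    have h4 : u' - u - (EE κ h σ a - EE κ h σ' a') =
        (en ⟨κ, c, 0⟩ - EE κ h σ a - u) - (en ⟨κ, c, 0⟩ - EE κ h σ' a' - u') := by
      abel
    rw [h4]
    exact h3

/-- approximation step for `en_vn` -/
theorem K3_step (h1 : H κ = h) (hc : ∀ i, Cr h (H i)) (y : Nd) (n : ℕ) :
    ∃ w : L, ‖w‖ ≤ 4 * (1 / 2 : ℝ) ^ n ∧ en y - vn κ h H y - w ∈ NN H := by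
  obtain ⟨i, a, m⟩ := y
  have hε : (0 : ℝ) < (1 / 2 : ℝ) ^ n := by positivity
  obtain ⟨c, hca, hcV⟩ := VI_ext (Cr_symm (hc i)) a hε
  have hcV' : VI h (H i) ((1 / 2 : ℝ) ^ n) (List.zip c a) := VI_zip_swap hcV
  obtain ⟨u, hu, hun, huN⟩ := EE_spec κ (hc i) hca hε hcV'
  have hq : (1 / 2 : ℝ) ^ n < ((2 * (1 / 2 : ℚ) ^ n : ℚ) : ℝ) := by
    push_cast
    linarith
  obtain ⟨e, hex, hey, -, heq, -, hP⟩ := exists_edge H κ i hca 0 m 0 hε.le hq
    (by rw [h1]; exact hcV')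
  have hE := edge_NN hP
  rw [hex, hey, heq] at hE
  have hN := Nk_le_NN h1 huN
  refine ⟨u - ((2 * (1 / 2 : ℚ) ^ n : ℚ) : ℝ) • e1 (Ix.bs (.ed e)), ?_, ?_⟩
  · have h2 : ‖((2 * (1 / 2 : ℚ) ^ n : ℚ) : ℝ) • (e1 (Ix.bs (.ed e)) : L)‖
        = 2 * (1 / 2 : ℝ) ^ n := by
      rw [norm_smul, norm_e1, mul_one, Real.norm_eq_abs]
      push_cast
      exact abs_of_pos (by positivity)
    have h3 := norm_sub_le u (((2 * (1 / 2 : ℚ) ^ n : ℚ) : ℝ) • (e1 (Ix.bs (.ed e)) : L))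
    rw [h2] at h3
    linarith
  · have h3 := sub_mem hN hE
    have h4 : en ⟨i, a, m⟩ - vn κ h H ⟨i, a, m⟩
        - (u - ((2 * (1 / 2 : ℚ) ^ n : ℚ) : ℝ) • e1 (Ix.bs (.ed e))) =
        (en ⟨κ, c, 0⟩ - EE κ h (H i) a - u)
        - (en ⟨κ, c, 0⟩ - en ⟨i, a, m⟩
          - ((2 * (1 / 2 : ℚ) ^ n : ℚ) : ℝ) • e1 (Ix.bs (.ed e))) := by
      unfold vn
      abel
    rw [h4]
    exact h3

theorem en_vn (h1 : H κ = h) (hc : ∀ i, Cr h (H i)) (y : Nd) : en y - vn κ h H y ∈ NN H := by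
  rw [← SetLike.mem_coe, ← (isClosed_NN H).closure_eq, Metric.mem_closure_iff]
  intro ε hε
  obtain ⟨n, hn⟩ := exists_pow_lt_of_lt_one (by positivity : (0 : ℝ) < ε / 4)
    (by norm_num : (1 / 2 : ℝ) < 1)
  obtain ⟨w, hw, hwN⟩ := K3_step h1 hc y n
  refine ⟨_, hwN, ?_⟩
  rw [dist_eq_norm]
  have h2 : en y - vn κ h H y - (en y - vn κ h H y - w) = w := by abel
  rw [h2]
  linarith

theorem va_mem (hc : ∀ i, Cr h (H i)) (b : Bs) : va κ h H b ∈ Lk κ := by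
  have hv : ∀ y, vn κ h H y ∈ Lk κ := fun y => EE_mem κ (hc y.i) y.a
  cases b with
  | nd y => exact hv y
  | pa p => exact sub_mem (hv _) (hv _)
  | ed e => exact Submodule.smul_mem _ _ (sub_mem (hv _) (hv _))

theorem R_va (h1 : H κ = h) (hc : ∀ i, Cr h (H i)) (b : Bs) :
    R b - (e1 (Ix.bs b) - va κ h H b) ∈ NN H := by
  have hv := en_vn (κ := κ) h1 hc
  cases b with
  | nd y =>
    have h2 : R (.nd y) - (e1 (Ix.bs (.nd y)) - va κ h H (.nd y)) =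
        -(en y - vn κ h H y) := by
      simp only [R, va, en]
      abel
    rw [h2]
    exact neg_mem (hv y)
  | pa p =>
    have h2 : R (.pa p) - (e1 (Ix.bs (.pa p)) - va κ h H (.pa p)) =
        (en p.y - vn κ h H p.y) - (en p.x - vn κ h H p.x) := by
      simp only [R, va]
      abel
    rw [h2]
    exact sub_mem (hv _) (hv _)
  | ed e =>
    have h2 : R (.ed e) - (e1 (Ix.bs (.ed e)) - va κ h H (.ed e)) =
        ((e.q : ℝ)⁻¹) • ((en e.y - vn κ h H e.y) - (en e.x - vn κ h H e.x)) := by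
      simp only [R, va]
      rw [sub_sub_sub_cancel_left, ← smul_sub]
      congr 1
      abel
    rw [h2]
    exact Submodule.smul_mem _ _ (sub_mem (hv _) (hv _))

end Pool.Agent.H7.GH
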