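import Pool.Agent.H7.GH.K3

/-!
# GH-K5: matching of base names

* `exists_partner`: for `Cr f f'`, `Cr g g'`, positions: given `a, b` of the same length, `s : ℚ` and
  `q > s`, `η > 0`: there are a rational `δ` with `0 < δ ≤ η` and tuples `a', b'` of the same length, with
  `VI f f' δ (zip a a')`, `VI g g' δ (zip b b')`, `s + 2 * δ < q` and
  `W f g α s (zip a b) ↔ W f' g' α (s + 2 * δ) (zip a' b')` for all `α`.
  Proof: `exists_profile f g (zip a b)` gives `ε'` with `s < ε' < q`; choose `δ` rational with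
  `0 < δ ≤ η`, `s + 4 δ ≤ ε'`; `a'`, `b'` by `VI_ext`.  `→`: `W_zip_comp'` with `VI f' f δ (zip a' a)`
  (`VI_zip_swap`), `W_zip_comp` with `VI g g' δ (zip b b')`.  `←`: similarly
  `W f g α (s + 4 δ) (zip a b)`, `W_mono` to `ε'`, `exists_profile`.
* `exists_SP`: every position of `H` has a position of `H'` with the same profile: `p = (i, j, l, r)`,
  `a = l.map fst`, `b = l.map snd`, `zip a b = l` (`List.zip_map_fst_snd`?, induction), `q = r + 1`;
  `p' = (i, j, zip a' b', r + 2 δ)`.
* `Gs_eq`: `Gs_le` twice (`Cr (H i) (H' i)` and `Cr (H' i) (H i)` from `Ok`: `Cr_symm`, `Cr_trans`).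
-/

set_option autoImplicit false
set_option linter.unusedVariables false
set_option linter.unusedSectionVars false
set_option linter.unusedSimpArgs false
set_option linter.unusedTactic false
set_option linter.unreachableTactic false

namespace Pool.Agent.H7.GH

open Pool.Agent.H82.GH Filter Topology
open scoped Ordinal ENNReal

variable {κ : Bool} {h : Fn} {H H' : Pr}

theorem zip_fst_snd (l : List (ℕ × ℕ)) : List.zip (l.map Prod.fst) (l.map Prod.snd) = l := by
  induction l with
  | nil => rfl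
  | cons x l ih => simp only [List.map_cons, List.zip_cons_cons, ih]

theorem exists_partner {f g f' g' : Fn} (hf : Cr f f') (hg : Cr g g') {a b : List ℕ}
    (hab : a.length = b.length) {s q : ℚ} (hsq : s < q) {η : ℝ} (hη : 0 < η) :
    ∃ (δ : ℚ) (a' b' : List ℕ), 0 < δ ∧ (δ : ℝ) ≤ η ∧ a.length = a'.length ∧
      b.length = b'.length ∧ VI f f' δ (List.zip a a') ∧ VI g g' δ (List.zip b b') ∧
      s + 2 * δ < q ∧ ∀ α : Ordinal.{0}, W f g α s (List.zip a b) ↔
        W f' g' α ((s + 2 * δ : ℚ) : ℝ) (List.zip a' b') := by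
  obtain ⟨ε', h1, h2, h3⟩ := exists_profile f g (List.zip a b) (ε := (s : ℝ)) (q := (q : ℝ))
    (by exact_mod_cast hsq)
  have h1' : (s : ℝ) < ε' := h1
  have hm : (0 : ℝ) < min η ((ε' - s) / 4) := lt_min hη (by linarith)
  obtain ⟨δ, hδ0, hδ1⟩ := exists_rat_btwn hm
  have hδη : (δ : ℝ) < η := hδ1.trans_le (min_le_left _ _)
  have hδε : (δ : ℝ) < (ε' - s) / 4 := hδ1.trans_le (min_le_right _ _)
  obtain ⟨a', ha', hVa⟩ := VI_ext hf a hδ0
  obtain ⟨b', hb', hVb⟩ := VI_ext hg b hδ0
  refine ⟨δ, a', b', by exact_mod_cast hδ0, hδη.le, ha'.symm, hb'.symm, hVa, hVb, ?_, ?_⟩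
  · have : ((s + 2 * δ : ℚ) : ℝ) < (q : ℝ) := by
      push_cast
      linarith
    exact_mod_cast this
  · intro α
    constructor
    · intro hW
      have e1 := W_zip_comp' ha' hab (VI_zip_swap hVa) hW
      have e2 := W_zip_comp (ha'.trans hab) hb'.symm e1 hVb
      refine W_mono (le_of_eq ?_) e2
      push_cast
      ring
    · intro hW
      have e1 := W_zip_comp' ha'.symm (ha'.trans (hab.trans hb'.symm)) hVa hW
      have e2 := W_zip_comp (hab.trans hb'.symm) hb' e1 (VI_zip_swap hVb)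
      refine h3 α (W_mono ?_ e2)
      push_cast
      linarith

theorem exists_SP (hC : ∀ i, Cr (H i) (H' i)) (p : Pos) : ∃ p', SP H H' p p' := by
  obtain ⟨i, j, l, r⟩ := p
  obtain ⟨δ, a', b', -, -, -, -, -, -, -, h⟩ := exists_partner (hC i) (hC j)
    (a := l.map Prod.fst) (b := l.map Prod.snd) (by simp) (s := r) (q := r + 1) (by linarith)
    (η := 1) one_pos
  refine ⟨(i, j, List.zip a' b', r + 2 * δ), fun α => ?_⟩
  have h1 := h α
  rw [zip_fst_snd] at h1
  exact h1

theorem Gs_eq (hO : Ok κ h H H') : Gs H = Gs H' := by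
  refine Set.Subset.antisymm (Gs_le (exists_SP fun i => ?_)) (Gs_le (exists_SP fun i => ?_))
  · exact Cr_trans (Cr_symm (hO.c1 i)) (hO.c2 i)
  · exact Cr_trans (Cr_symm (hO.c2 i)) (hO.c1 i)

end Pool.Agent.H7.GH
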