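import Pool.Agent.H7.GH.K5

/-!
# GH-K6: every base name outside of the copy `κ` has infinitely many partners

`b` not in the copy `κ`, `ε > 0`, `F` finite; find `b' ∉ F` not in the copy `κ` with `Mt κ h H H' ε b b'`.
`Cr (H i) (H' i)` from `Ok` (`Cr_symm`, `Cr_trans`).

* `b = nd ⟨i, a, m⟩`, `i ≠ κ`.  `VI_ext` gives `a'` with `VI (H i) (H' i) (ε / 6) (zip a a')` and the same
  length; `b' = nd ⟨i, a', m'⟩` where `m'` is chosen such that `b' ∉ F` (`m' ↦ b'` is injective,
  `Set.infinite_of_injective_forall_mem` / `Set.Finite.preimage`..).  `V` from `EE_close`.  `lb`: if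
  `k, l < length` it is `VI_zip_leg`, otherwise both labels are `0`.  `p1`, `p2`: no positions.
* `b = pa ⟨i, c, a, m⟩`: `VI_ext` for `c :: a` with `ε / 12` gives a tuple of the same length, so of the form
  `c' :: a'`; `VI_sub` gives the tail.  `V = P1 - P2`.
* `b = ed e`: `a = e.l.map fst`, `b = e.l.map snd`, `exists_partner` with `s = e.s`, `q = e.q`,
  `η = ε * e.q / 12`; `b' = ed ⟨e.i, e.j, zip a' b', e.m, e.n, e.s + 2 δ, e.q, k', _, _⟩` with `k'` such
  that `b' ∉ F`.  Not in the copy `κ` since `e.i`, `e.j` are the same.  `V = q⁻¹ • (P1 - P2)`, with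
  `P1, P2` from `EE_close`, norm `≤ q⁻¹ * 12 * δ ≤ ε`.  `SP` from `exists_partner`
  (`zip_fst_snd`, `List.map_fst_zip`).
-/

set_option autoImplicit false
set_option linter.unusedVariables false
set_option linter.unusedSectionVars false
set_option linter.unusedSimpArgs false
set_option linter.unusedTactic false
set_option linter.unreachableTactic false

namespace Pool.Agent.H7.GH

open Pool.Agent.H82.GH Filter Topology
open scoped Ordinal ENNReal

variable {κ : Bool} {h : Fn} {H H' : Pr}

private theorem k6_fresh {F : Set Bs} (hF : F.Finite) (f : ℕ → Bs) (hf : Function.Injective f) :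
    ∃ m, f m ∉ F := by
  by_contra hc
  push Not at hc
  exact (Set.infinite_of_injective_forall_mem hf hc) hF

theorem exists_Mt (hO : Ok κ h H H') {b : Bs} (hb : ¬ cp κ b) {ε : ℝ} (hε : 0 < ε) (F : Set Bs)
    (hF : F.Finite) : ∃ b', b' ∉ F ∧ ¬ cp κ b' ∧ Mt κ h H H' ε b b' := by
  have hC : ∀ i, Cr (H i) (H' i) := fun i => Cr_trans (Cr_symm (hO.c1 i)) (hO.c2 i)
  cases b with
  | nd y =>
    obtain ⟨i, a, m⟩ := y
    obtain ⟨a', ha', hV⟩ := VI_ext (hC i) a (ε := ε / 6) (by positivity)
    obtain ⟨m', hm'⟩ := k6_fresh hF (fun m' => Bs.nd ⟨i, a', m'⟩) (by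
      intro x y hxy
      simpa using hxy)
    refine ⟨.nd ⟨i, a', m'⟩, hm', hb, ?_, ?_, ?_, ?_, ?_⟩
    · simp only [sb, ha']
    · intro p hp
      simp [ps] at hp
    · intro p hp
      simp [ps] at hp
    · obtain ⟨P, hP, hPn, hPN⟩ := EE_close κ (hO.c1 i) (hO.c2 i) ha'.symm
        (by positivity : 0 < ε / 6) hV
      exact ⟨P, hP, by linarith, hPN⟩
    · intro y y' hy hy' k l
      have h1 : y = ⟨i, a, m⟩ := by
        injection hy with h1
        exact h1.symm
      have h2 : y' = ⟨i, a', m'⟩ := by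
        injection hy' with h1
        exact h1.symm
      subst h1 h2
      unfold lab
      simp only [ha']
      by_cases hkl : k < a.length ∧ l < a.length
      · rw [if_pos hkl, if_pos hkl]
        have := VI_zip_leg hV hkl.1 hkl.2 ha'.symm
        linarith
      · rw [if_neg hkl, if_neg hkl, sub_zero, abs_zero]
        exact hε.le
  | pa x =>
    obtain ⟨i, c, a, m⟩ := x
    obtain ⟨d, hd, hV⟩ := VI_ext (hC i) (c :: a) (ε := ε / 12) (by positivity)
    cases d with
    | nil => simp at hd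
    | cons c' a' =>
      have ha' : a'.length = a.length := by simpa using hd
      have hV2 : VI (H i) (H' i) (ε / 12) (List.zip a a') := by
        refine VI_sub hV fun p hp => ?_
        rw [List.zip_cons_cons]
        exact List.mem_cons_of_mem _ hp
      obtain ⟨m', hm'⟩ := k6_fresh hF (fun m' => Bs.pa ⟨i, c', a', m'⟩) (by
        intro x y hxy
        simpa using hxy)
      refine ⟨.pa ⟨i, c', a', m'⟩, hm', hb, ?_, ?_, ?_, ?_, ?_⟩
      · simp only [sb, ha']
      · intro p hp
        simp [ps] at hp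
      · intro p hp
        simp [ps] at hp
      · obtain ⟨P1, hP1, hPn1, hPN1⟩ := EE_close κ (hO.c1 i) (hO.c2 i) hd.symm
          (by positivity : 0 < ε / 12) hV
        obtain ⟨P2, hP2, hPn2, hPN2⟩ := EE_close κ (hO.c1 i) (hO.c2 i) ha'.symm
          (by positivity : 0 < ε / 12) hV2
        refine ⟨P1 - P2, sub_mem hP1 hP2, ?_, ?_⟩
        · have := norm_sub_le P1 P2
          linarith
        · have h3 := sub_mem hPN1 hPN2
          have h4 : P1 - P2 - (va κ h H (.pa ⟨i, c, a, m⟩) - va κ h H' (.pa ⟨i, c', a', m'⟩)) =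
              (P1 - (EE κ h (H i) (c :: a) - EE κ h (H' i) (c' :: a')))
              - (P2 - (EE κ h (H i) a - EE κ h (H' i) a')) := by
            simp only [va, vn, Pa.x, Pa.y]
            abel
          rw [h4]
          exact h3
      · intro y y' hy
        exact Bs.noConfusion hy
  | ed e =>
    have hq0 : (0 : ℝ) < (e.q : ℝ) := by
      have h1 := e.hs
      have h2 := e.hq
      exact_mod_cast lt_of_le_of_lt h1 h2
    obtain ⟨δ, a', b', hδ, hδη, ha, hb', hVa, hVb, hs, hW⟩ := exists_partner (hC e.i) (hC e.j)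
      (a := e.l.map Prod.fst) (b := e.l.map Prod.snd) (by simp) (s := e.s) (q := e.q) e.hq
      (η := ε * e.q / 12) (by positivity)
    have hab : a'.length = b'.length := by
      rw [← ha, ← hb']
      simp
    have hs0 : 0 ≤ e.s + 2 * δ := by
      have h1 := e.hs
      linarith
    obtain ⟨k', hk'⟩ := k6_fresh hF
      (fun k' => Bs.ed ⟨e.i, e.j, List.zip a' b', e.m, e.n, e.s + 2 * δ, e.q, k', hs0, hs⟩) (by
      intro x y hxy
      simpa using hxy)
    have hSP : SP H H' e.p (e.i, e.j, List.zip a' b', e.s + 2 * δ) := by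
      intro α
      have h1 := hW α
      rw [zip_fst_snd] at h1
      exact h1
    refine ⟨.ed ⟨e.i, e.j, List.zip a' b', e.m, e.n, e.s + 2 * δ, e.q, k', hs0, hs⟩, hk', hb,
      rfl, ?_, ?_, ?_, ?_⟩
    · intro p hp
      simp only [ps, List.mem_singleton] at hp
      subst hp
      exact ⟨(e.i, e.j, List.zip a' b', e.s + 2 * δ), by simp [ps, Ed.p], hSP⟩
    · intro p hp
      simp only [ps, List.mem_singleton] at hp
      subst hp
      exact ⟨e.p, by simp [ps], hSP⟩
    · have hδ' : (0 : ℝ) < (δ : ℝ) := by exact_mod_cast hδ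
      obtain ⟨P1, hP1, hPn1, hPN1⟩ := EE_close κ (hO.c1 e.i) (hO.c2 e.i) ha hδ' hVa
      obtain ⟨P2, hP2, hPn2, hPN2⟩ := EE_close κ (hO.c1 e.j) (hO.c2 e.j) hb' hδ' hVb
      refine ⟨(e.q : ℝ)⁻¹ • (P1 - P2), Submodule.smul_mem _ _ (sub_mem hP1 hP2), ?_, ?_⟩
      · have h1 := norm_sub_le P1 P2
        have h2 : ‖P1 - P2‖ ≤ ε * e.q := by linarith
        rw [norm_smul, norm_inv, Real.norm_eq_abs, abs_of_pos hq0, inv_mul_le_iff₀ hq0]
        linarith
      · have h3 := Submodule.smul_mem (Nk κ h) ((e.q : ℝ)⁻¹) (sub_mem hPN1 hPN2)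
        have h4 : (e.q : ℝ)⁻¹ • (P1 - P2) - (va κ h H (.ed e) - va κ h H'
            (.ed ⟨e.i, e.j, List.zip a' b', e.m, e.n, e.s + 2 * δ, e.q, k', hs0, hs⟩)) =
            (e.q : ℝ)⁻¹ • ((P1 - (EE κ h (H e.i) (e.l.map Prod.fst) - EE κ h (H' e.i) a'))
              - (P2 - (EE κ h (H e.j) (e.l.map Prod.snd) - EE κ h (H' e.j) b'))) := by
          simp only [va, vn, Ed.x, Ed.y, List.map_fst_zip hab.le, List.map_snd_zip hab.ge]
          rw [← smul_sub, ← smul_sub]
          congr 1
          abel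
        rw [h4]
        exact h3
    · intro y y' hy
      exact Bs.noConfusion hy

end Pool.Agent.H7.GH
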