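import Pool.Agent.H7.GH.K4
import Pool.Agent.H7.GH.K5

/-!
# GH-K8: partners of points

`D : Md κ h H H'`.  `mapA D.π A` is the formal combination with the names moved by `π`.

* `T_uA`: `D.T (uA A) - uA (mapA D.π A) ∈ NN H'`: induction on `A` (`uA_cons`, `T_R`).
* `exists_pt`: `p = (A, S, m)` alive in `H`, `ε > 0`.  `x := D.T (uA A) - uA (mapA D.π A) ∈ NN H'`, so
  `exists_approx` gives `B` valid in `H'` with `‖x - uA B‖ < ε`.  `A' := mapA D.π A ++ B`,
  `uA A' = uA (mapA ..) + uA B`, so `‖uA A' - D.T (uA A)‖ < ε`.  The positions `D' := (A'.flatMap (ps ·.1))`: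
  each is `PI H'` (from `B`) or has the profile of a position of a name in `A` (`D.p2`), which is dominated
  by `S`.  `transfer` (with `Gs H = Gs H'`) gives `S'` with the same type which dominates `D'`; it is
  legal because `Ty` at `τ = 0` (`rg_zero`).  `p' = ⟨A', S', m'⟩` with `m'` such that `p' ∉ F`.
* `dead_pt`: infinitely many dead points: `⟨[], [((false, false, [(0, 0)], -1), 0, 0)], m⟩` is not legal
  (for every `H`: `|H 0 0 - H 0 0| = 0 ≤ -1` is false).
-/

set_option autoImplicit false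
set_option linter.unusedVariables false
set_option linter.unusedSectionVars false
set_option linter.unusedSimpArgs false
set_option linter.unusedTactic false
set_option linter.unreachableTactic false

namespace Pool.Agent.H7.GH

open Pool.Agent.H82.GH Filter Topology
open scoped Ordinal ENNReal

variable {κ : Bool} {h : Fn} {H H' : Pr}

/-- move the names of a combination -/
def mapA (π : Equiv.Perm Bs) (A : List (Bs × ℚ)) : List (Bs × ℚ) := A.map fun x => (π x.1, x.2)

theorem T_uA (D : Md κ h H H') (A : List (Bs × ℚ)) :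
    D.T (uA A) - uA (mapA D.π A) ∈ NN H' := by
  induction A with
  | nil => simp [mapA, uA_nil]
  | cons x A ih =>
    have e : D.T (uA (x :: A)) - uA (mapA D.π (x :: A)) =
        (x.2 : ℝ) • (D.T (R x.1) - R (D.π x.1)) + (D.T (uA A) - uA (mapA D.π A)) := by
      have e1 : mapA D.π (x :: A) = (D.π x.1, x.2) :: mapA D.π A := rfl
      rw [e1, uA_cons, uA_cons, map_add, map_smul, smul_sub]
      abel
    rw [e]
    exact (NN H').add_mem ((NN H').smul_mem _ (D.T_R x.1)) ih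

private theorem k8_pick (F : Set Pt) (hF : F.Finite) (A : List (Bs × ℚ)) (S : St) :
    ∃ m, (⟨A, S, m⟩ : Pt) ∉ F := by
  have hi : Function.Injective (fun m : ℕ => (⟨A, S, m⟩ : Pt)) := by
    intro a b hab
    exact (Pt.mk.inj hab).2.2
  obtain ⟨y, ⟨m, rfl⟩, hy⟩ := (Set.infinite_range_of_injective hi).exists_notMem_finite hF
  exact ⟨m, hy⟩

theorem exists_pt (D : Md κ h H H') {p : Pt} (hp : Al H p) {ε : ℝ} (hε : 0 < ε) (F : Set Pt)
    (hF : F.Finite) :
    ∃ p', p' ∉ F ∧ Al H' p' ∧ Ty H H' p.S p'.S ∧ ‖uA p'.A - D.T (uA p.A)‖ < ε := by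
  obtain ⟨hL, hD⟩ := hp
  obtain ⟨B, hB, hBn⟩ := exists_approx (T_uA D p.A) hε
  have key : ∀ p' ∈ (mapA D.π p.A ++ B).flatMap (fun x => ps x.1),
      PI H' p' ∨ ∃ q, Dp p.S q ∧ SP H H' q p' := by
    intro p' hp'
    obtain ⟨x, hx, hpx⟩ := List.mem_flatMap.1 hp'
    rcases List.mem_append.1 hx with hx | hx
    · obtain ⟨y, hy, rfl⟩ := List.mem_map.1 hx
      obtain ⟨q, hq, hsp⟩ := D.p2 y.1 p' hpx
      exact Or.inr ⟨q, hD y hy q hq, hsp⟩
    · exact Or.inl (hB x hx p' hpx)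
  obtain ⟨S', hT, hS'⟩ := transfer (Gs_eq D.ok) hL _ key
  obtain ⟨m, hm⟩ := k8_pick F hF (mapA D.π p.A ++ B) S'
  refine ⟨⟨mapA D.π p.A ++ B, S', m⟩, hm, ⟨?_, ?_⟩, hT, ?_⟩
  · exact rg_zero.1 ((hT 0).1 (rg_zero.2 hL))
  · intro x hx q hq
    exact hS' q (List.mem_flatMap.2 ⟨x, hx, hq⟩)
  · have e : uA (mapA D.π p.A ++ B) - D.T (uA p.A) =
        -((D.T (uA p.A) - uA (mapA D.π p.A)) - uA B) := by
      rw [uA_append]
      abel
    show ‖uA (mapA D.π p.A ++ B) - D.T (uA p.A)‖ < ε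
    rw [e, norm_neg]
    exact hBn

theorem dead_pt (H : Pr) (F : Set Pt) (hF : F.Finite) : ∃ p, p ∉ F ∧ ¬ Al H p := by
  obtain ⟨m, hm⟩ := k8_pick F hF [] [((false, false, [(0, 0)], -1), 0, 0)]
  refine ⟨_, hm, fun hA => ?_⟩
  have h1 := hA.1 ((false, false, [(0, 0)], -1), 0, 0) (by simp)
  have h2 := h1 (0, 0) (by simp) (0, 0) (by simp)
  norm_num at h2

end Pool.Agent.H7.GH
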