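import Pool.Agent.H7.GH.K8
import Pool.Agent.H7.GH.Cb2

/-!
# GH-K9: the bijection of the points

`lc H p` is the location of the point `p`.  Apply `exists_baf` with
`Rel ε p p' := (Al H p ↔ Al H' p') ∧ (Al H p → Ty H H' p.S p'.S) ∧ ‖lc H' p' - D.T (lc H p)‖ ≤ ε`.
`h1`: if `p` is alive: `exists_pt`; if `p` is dead: `dead_pt H'`, both locations are `0`.
`h2`: given `p'`, `ε`: if `p'` is alive, apply `exists_pt` to `D.symm`, `p'` and the error
`ε / (‖D.T‖ + 1)`: it gives `p` alive in `H` with `‖uA p.A - D.symm.T (uA p'.A)‖ < ..`, and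
`D.T` of the difference is `D.T (uA p.A) - uA p'.A` (`T_T_symm`).  `Ty` is symmetric.
-/

set_option autoImplicit false
set_option linter.unusedVariables false
set_option linter.unusedSectionVars false
set_option linter.unusedSimpArgs false
set_option linter.unusedTactic false
set_option linter.unreachableTactic false

namespace Pool.Agent.H7.GH

open Pool.Agent.H82.GH Filter Topology
open scoped Ordinal ENNReal

variable {κ : Bool} {h : Fn} {H H' : Pr}

open Classical in
/-- the location of a point -/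
noncomputable def lc (H : Pr) (p : Pt) : L := if Al H p then uA p.A else 0

private theorem lc_pos {H : Pr} {p : Pt} (hp : Al H p) : lc H p = uA p.A := by
  unfold lc
  rw [if_pos hp]

private theorem lc_neg {H : Pr} {p : Pt} (hp : ¬ Al H p) : lc H p = 0 := by
  unfold lc
  rw [if_neg hp]

theorem exists_ptEquiv (D : Md κ h H H') :
    ∃ (e : Pt ≃ Pt) (δ : Pt → ℝ), Summable δ ∧ ∀ p, (Al H p ↔ Al H' (e p)) ∧
      (Al H p → Ty H H' p.S (e p).S) ∧ ‖lc H' (e p) - D.T (lc H p)‖ ≤ δ p := by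
  have key := exists_baf (A := Pt) (B := Pt)
    (fun ε p p' => (Al H p ↔ Al H' p') ∧ (Al H p → Ty H H' p.S p'.S) ∧
      ‖lc H' p' - D.T (lc H p)‖ ≤ ε) ?_ ?_
  · obtain ⟨e, δ, -, hδ, h⟩ := key
    exact ⟨e, δ, hδ, h⟩
  · intro p ε hε F hF
    by_cases hp : Al H p
    · obtain ⟨p', hpF, hp', hTy, hn⟩ := exists_pt D hp hε F hF
      refine ⟨p', hpF, ⟨fun _ => hp', fun _ => hp⟩, fun _ => hTy, ?_⟩
      rw [lc_pos hp', lc_pos hp]
      exact hn.le
    · obtain ⟨p', hpF, hp'⟩ := dead_pt H' F hF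
      refine ⟨p', hpF, ⟨fun h' => absurd h' hp, fun h' => absurd h' hp'⟩, fun h' => absurd h' hp, ?_⟩
      rw [lc_neg hp', lc_neg hp, map_zero, sub_zero, norm_zero]
      exact hε.le
  · intro p' ε hε F hF
    by_cases hp' : Al H' p'
    · have hC : 0 < ‖D.T‖ + 1 := by positivity
      have hε' : 0 < ε / (‖D.T‖ + 1) := div_pos hε hC
      obtain ⟨p, hpF, hp, hTy, hn⟩ := exists_pt D.symm hp' hε' F hF
      refine ⟨p, hpF, ⟨fun _ => hp', fun _ => hp⟩, fun _ τ => (hTy τ).symm, ?_⟩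
      rw [lc_pos hp', lc_pos hp]
      have e1 : uA p'.A - D.T (uA p.A) = - D.T (uA p.A - D.symm.T (uA p'.A)) := by
        rw [map_sub, D.T_T_symm]
        abel
      rw [e1, norm_neg]
      refine (D.T.le_opNorm _).trans ?_
      have h2 : ‖D.T‖ * ‖uA p.A - D.symm.T (uA p'.A)‖ ≤ (‖D.T‖ + 1) * (ε / (‖D.T‖ + 1)) :=
        mul_le_mul (by linarith) hn.le (norm_nonneg _) hC.le
      refine h2.trans ?_
      rw [mul_div_cancel₀ _ hC.ne']
    · obtain ⟨p, hpF, hp⟩ := dead_pt H F hF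
      refine ⟨p, hpF, ⟨fun h' => absurd h' hp, fun h' => absurd h' hp'⟩, fun h' => absurd h' hp, ?_⟩
      rw [lc_neg hp', lc_neg hp, map_zero, sub_zero, norm_zero]
      exact hε.le

end Pool.Agent.H7.GH
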