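import Pool.Agent.H7.GH.Rg3

/-!
# GH-RG4: comparison of the ranks for two pairs of structures

`SP H H' p p'`: the positions have the same profile.

* `SP_PI`.
* `transfer1`: let `rg H τ S`, `D'` a list of positions such that every `p' ∈ D'` is `PI H'` or has the
  profile of a position `p` dominated by `S` (`∃ v n, (p, v, n) ∈ S`).  Then there is `S1` which dominates
  `D'` and consists of obligations with positions in `D'`, with `rg H' τ S1`.
  Proof: choose for each `p' ∈ D'` a fuel code `v'` and `β` with `PV H' β p'` and `τ ≤ β + fu v'`: if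
  `PI H' p'` take `β = τ`.  Otherwise let `(p, v, n) ∈ S` have the same profile, so not `PI H p`, by
  `PV_max` (legality from `rg_lg`) there is `β` with `PV H β p`, not `PV H (β + 1) p`, and
  `τ < β + ω ^ ω` by `rg_upper`; so `τ ≤ β + δ` with `δ < ω ^ ω`, `δ = fu v'` (`exists_fu_eq`).
  `S1 = D'.map (fun p' => (p', v', 0))` (use `List.map` with a choice function, or induction on `D'` and
  `rg_append`); `rg_lower`.
* `Gs_le`: if every position of `H` has a position of `H'` with the same profile then `Gs H ⊆ Gs H'`.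
  Let `τ ∈ Gs H`, witnessed by `S`.  Let `D'` be the list of partners of the positions of `S`, `S1` from
  `transfer1` (`rg H' τ S1`).  Some position `p` of `S` is not `PI H` (`rg_inf_iff`), so its partner
  `p' ∈ D'` is not `PI H'`, and `S1` dominates it, so `S1` does not have all ranks (`rg_inf_iff`); by
  `rg_exact` it has an exact rank `σ`, `σ ≥ τ` by `rg_le`; `Gs_down`.
* `transfer`: type transfer.  If `S` has all ranks: `transfer1`-like with any fuel code: all positions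
  dominated by `S` are `PI H` (`rg_inf_iff`), so all `p' ∈ D'` are `PI H'`;
  `S' = D'.map (fun p' => (p', 0, 0))`, `rg_inf_iff`.  Otherwise `S` (legal) has an exact rank `τ`
  (`rg_exact`), `S1` from `transfer1`, `S2` with exact rank `τ` for `H'` by `Gs H = Gs H'`, `S' = S1 ++ S2`;
  `rg_append`, `rg_le` give `rg H σ S ↔ σ ≤ τ ↔ rg H' σ S'`.
-/

set_option autoImplicit false
set_option linter.unusedVariables false
set_option linter.unusedSectionVars false
set_option linter.unusedSimpArgs false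
set_option linter.unusedTactic false
set_option linter.unreachableTactic false

namespace Pool.Agent.H7.GH

open Pool.Agent.H82.GH Filter Topology
open scoped Ordinal ENNReal

variable {H H' : Pr} {S T : St} {β γ τ : Ordinal.{0}} {p p' : Pos} {v n : ℕ}

/-- the two positions have the same profile -/
def SP (H H' : Pr) (p p' : Pos) : Prop := ∀ α : Ordinal.{0}, PV H α p ↔ PV H' α p'

theorem SP_symm (h : SP H H' p p') : SP H' H p' p := fun α => (h α).symm

theorem SP_PI (h : SP H H' p p') : PI H p ↔ PI H' p' :=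
  ⟨fun hp α => (h α).1 (hp α), fun hp α => (h α).2 (hp α)⟩

/-- `S` dominates `p` -/
def Dp (S : St) (p : Pos) : Prop := ∃ v n, (p, v, n) ∈ S

theorem transfer1 (h : rg H τ S) (D : List Pos)
    (hD : ∀ p' ∈ D, PI H' p' ∨ ∃ p, Dp S p ∧ SP H H' p p') :
    ∃ S1 : St, rg H' τ S1 ∧ (∀ p' ∈ D, Dp S1 p') := by
  have key : ∀ p' ∈ D, ∃ v : ℕ, ∃ β : Ordinal.{0}, PV H' β p' ∧ τ ≤ β + fu v := by
    intro p' hp'
    by_cases hPI : PI H' p'
    · exact ⟨0, τ, hPI τ, le_self_add⟩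
    rcases hD p' hp' with h1 | ⟨p, ⟨v, n, hm⟩, hs⟩
    · exact absurd h1 hPI
    have hn : ¬ PI H p := fun hh => hPI ((SP_PI hs).1 hh)
    obtain ⟨β, hβ, hβn⟩ := PV_max (rg_lg h _ hm) hn
    have hu := rg_upper hm hβn h
    have hδ : ∃ δ : Ordinal.{0}, δ < ω ^ ω ∧ τ ≤ β + δ := by
      by_cases hτ : τ ≤ β
      · exact ⟨0, Ordinal.opow_pos _ Ordinal.omega0_pos, by simpa using hτ⟩
      · exact ⟨τ - β, (Ordinal.sub_lt_of_le (not_le.1 hτ).le).2 hu, Ordinal.le_add_sub _ _⟩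
    obtain ⟨δ, hδ1, hδ2⟩ := hδ
    obtain ⟨v', hv'⟩ := exists_fu_eq hδ1
    exact ⟨v', β, (hs β).1 hβ, hv' ▸ hδ2⟩
  choose! v β hPV hle using key
  refine ⟨D.map (fun p' => (p', v p', 0)), rg_lower _ _ ?_, ?_⟩
  · intro o ho
    obtain ⟨p', hp', rfl⟩ := List.mem_map.1 ho
    exact ⟨β p', hPV p' hp', hle p' hp'⟩
  · intro p' hp'
    exact ⟨v p', 0, List.mem_map.2 ⟨p', hp', rfl⟩⟩

theorem Gs_le (h : ∀ p, ∃ p', SP H H' p p') : Gs H ⊆ Gs H' := by
  rintro τ ⟨S, hS, hSn⟩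
  choose F hF using h
  obtain ⟨S1, hS1, hD⟩ := transfer1 (H' := H') hS (S.map (fun o => F o.1)) (by
    intro p' hp'
    obtain ⟨o, ho, rfl⟩ := List.mem_map.1 hp'
    exact Or.inr ⟨o.1, ⟨o.2.1, o.2.2, ho⟩, hF _⟩)
  have hnot : ¬ ∀ o ∈ S, PI H o.1 := fun hh => hSn (rg_inf_iff.2 hh _)
  push Not at hnot
  obtain ⟨o, ho, hno⟩ := hnot
  obtain ⟨v, n, hm⟩ := hD (F o.1) (List.mem_map.2 ⟨o, ho, rfl⟩)
  have hn' : ¬ PI H' (F o.1) := fun hh => hno ((SP_PI (hF _)).2 hh)
  have hS1n : ∃ σ, ¬ rg H' σ S1 := by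
    by_contra hc
    push Not at hc
    exact hn' (rg_inf_iff.1 hc _ hm)
  obtain ⟨σ, h1, h2⟩ := rg_exact (rg_lg hS1) hS1n
  exact Gs_down ⟨S1, h1, h2⟩ ((rg_le h1 h2 τ).1 hS1)

theorem transfer (hG : Gs H = Gs H') (h : Lg H S) (D : List Pos)
    (hD : ∀ p' ∈ D, PI H' p' ∨ ∃ p, Dp S p ∧ SP H H' p p') :
    ∃ S' : St, Ty H H' S S' ∧ (∀ p' ∈ D, Dp S' p') := by
  by_cases hall : ∀ σ, rg H σ S
  · refine ⟨D.map (fun p' => (p', 0, 0)), ?_, fun p' hp' => ⟨0, 0, List.mem_map.2 ⟨p', hp', rfl⟩⟩⟩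
    have h2 : ∀ σ, rg H' σ (D.map (fun p' => (p', 0, 0))) := by
      rw [rg_inf_iff]
      intro o ho
      obtain ⟨p', hp', rfl⟩ := List.mem_map.1 ho
      rcases hD p' hp' with h1 | ⟨p, ⟨v, n, hm⟩, hs⟩
      · exact h1
      · exact (SP_PI hs).1 (rg_inf_iff.1 hall _ hm)
    exact fun σ => ⟨fun _ => h2 σ, fun _ => hall σ⟩
  · push Not at hall
    obtain ⟨τ, h1, h2⟩ := rg_exact h hall
    obtain ⟨S1, hS1, hD1⟩ := transfer1 h1 D hD
    have hτ : τ ∈ Gs H' := hG ▸ ⟨S, h1, h2⟩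
    obtain ⟨S2, h3, h4⟩ := hτ
    refine ⟨S1 ++ S2, fun σ => ?_, fun p' hp' => ?_⟩
    · rw [rg_le h1 h2, rg_append]
      constructor
      · intro hσ
        exact ⟨rg_anti hσ hS1, rg_anti hσ h3⟩
      · intro hh
        exact (rg_le h3 h4 σ).1 hh.2
    · obtain ⟨v, n, hm⟩ := hD1 p' hp'
      exact ⟨v, n, List.mem_append_left _ hm⟩

end Pool.Agent.H7.GH
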