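import Pool.Agent.H7.GH.Nm
import Pool.Agent.H7.GH.Rg4

/-!
# GH-KD: definitions for the forward direction

`κ` is the fixed copy, `h` its structure.
-/

/-!
`cp κ b`: the base name `b` belongs to the copy `κ`; `Lk κ` the closed span of these names, `Nk κ h` the
closed span of the valid relations of the copy.
-/

set_option autoImplicit false
set_option linter.unusedVariables false
set_option linter.unusedSectionVars false
set_option linter.unusedSimpArgs false
set_option linter.unusedTactic false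
set_option linter.unreachableTactic false

namespace Pool.Agent.H7.GH

open Pool.Agent.H82.GH Filter Topology
open scoped Ordinal ENNReal

/-- names of the copy `κ` -/
def cp (κ : Bool) : Bs → Prop
  | .nd y => y.i = κ
  | .pa x => x.i = κ
  | .ed e => e.i = κ ∧ e.j = κ

/-- the closed span of the names of the copy `κ` -/
noncomputable def Lk (κ : Bool) : Submodule ℝ L :=
  (Submodule.span ℝ {x | ∃ b, cp κ b ∧ x = e1 (Ix.bs b)}).topologicalClosure

/-- the closed span of the valid relations of the copy `κ` with the structure `h` -/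
noncomputable def Nk (κ : Bool) (h : Fn) : Submodule ℝ L :=
  (Submodule.span ℝ {x | ∃ b, cp κ b ∧ Vl (dg h) b ∧ x = R b}).topologicalClosure

open Classical in
/-- the vector of `Lk κ` which represents the tuple `a` of the structure `σ` -/
noncomputable def EE (κ : Bool) (h σ : Fn) (a : List ℕ) : L :=
  if hE : ∃ E ∈ Lk κ, ∀ (c : List ℕ) (δ : ℝ), c.length = a.length → 0 < δ →
    VI h σ δ (List.zip c a) → ∃ u ∈ Lk κ, ‖u‖ ≤ 2 * δ ∧ en ⟨κ, c, 0⟩ - E - u ∈ Nk κ h
  then hE.choose else 0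

/-- the value of a node -/
noncomputable def vn (κ : Bool) (h : Fn) (H : Pr) (y : Nd) : L := EE κ h (H y.i) y.a

/-- the value of a base name -/
noncomputable def va (κ : Bool) (h : Fn) (H : Pr) : Bs → L
  | .nd y => vn κ h H y
  | .pa p => vn κ h H p.x - vn κ h H p.y
  | .ed e => ((e.q : ℝ)⁻¹) • (vn κ h H e.x - vn κ h H e.y)

/-- the standing assumptions: `H`, `H'` agree with `h` on the copy `κ`, everything is equivalent to
`h` -/
structure Ok (κ : Bool) (h : Fn) (H H' : Pr) : Prop where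
  e1 : H κ = h
  e2 : H' κ = h
  c1 : ∀ i, Cr h (H i)
  c2 : ∀ i, Cr h (H' i)

/-- two base names match with error `ε` -/
structure Mt (κ : Bool) (h : Fn) (H H' : Pr) (ε : ℝ) (b b' : Bs) : Prop where
  sb : sb b' = sb b
  p1 : ∀ p ∈ ps b, ∃ p' ∈ ps b', SP H H' p p'
  p2 : ∀ p' ∈ ps b', ∃ p ∈ ps b, SP H H' p p'
  V : ∃ V ∈ Lk κ, ‖V‖ ≤ ε ∧ V - (va κ h H b - va κ h H' b') ∈ Nk κ h
  lb : ∀ y y', b = .nd y → b' = .nd y' → ∀ k l, |lab H y k l - lab H' y' k l| ≤ ε

/-- matching data: a permutation of the base names which fixes the names of the copy `κ` -/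
structure Md (κ : Bool) (h : Fn) (H H' : Pr) where
  /-- the permutation -/
  π : Equiv.Perm Bs
  /-- the corrections -/
  V : Bs → L
  /-- the errors -/
  δ : Bs → ℝ
  ok : Ok κ h H H'
  hδ : Summable δ
  cp : ∀ b, cp κ b → π b = b ∧ V b = 0
  sb : ∀ b, sb (π b) = sb b
  p1 : ∀ b, ∀ p ∈ ps b, ∃ p' ∈ ps (π b), SP H H' p p'
  p2 : ∀ b, ∀ p' ∈ ps (π b), ∃ p ∈ ps b, SP H H' p p'
  Vm : ∀ b, V b ∈ Lk κ
  Vn : ∀ b, ‖V b‖ ≤ δ b
  Vv : ∀ b, V b - (va κ h H b - va κ h H' (π b)) ∈ Nk κ h
  lb : ∀ y y', π (.nd y) = .nd y' → ∀ k l, |lab H y k l - lab H' y' k l| ≤ δ (.nd y)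

/-- the operator of the matching data -/
noncomputable def Md.T {κ : Bool} {h : Fn} {H H' : Pr} (D : Md κ h H H') : L →L[ℝ] L :=
  ex fun q => match q with
    | .bs b => e1 (Ix.bs (D.π b)) + D.V b
    | q => e1 q

end Pool.Agent.H7.GH
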