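import Mathlib

/-!
# Project GH: the spaces `l^1(ι; F)`, operators defined by the values on the basis, the monoid

All functions are total (junk value if the series does not converge); the API is in `L1.lean`.
-/

namespace Pool.Agent.H7.GH

open scoped ENNReal

/-- `l^1(ι; F)` -/
abbrev El (ι F : Type) [NormedAddCommGroup F] : Type := lp (fun _ : ι => F) 1

/-- `l^1(ι)` -/
abbrev Ll (ι : Type) : Type := El ι ℝ

variable {ι F F' : Type} [NormedAddCommGroup F] [NormedAddCommGroup F']

open Classical in
/-- the element of `l^1(ι; F)` with the coordinates `v` (junk if not summable) -/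
noncomputable def mk1 (v : ι → F) : El ι F :=
  if h : Memℓp v 1 then ⟨v, h⟩ else 0

open Classical in
/-- the basis of `l^1(ι)` -/
noncomputable def e1 (i : ι) : Ll ι := lp.single 1 i 1

variable [NormedSpace ℝ F] [NormedSpace ℝ F']

open Classical in
/-- the operator with the values `v i` on the basis (junk if `v` is not bounded) -/
noncomputable def ex (v : ι → F) : Ll ι →L[ℝ] F :=
  if h : ∃ A : Ll ι →L[ℝ] F, ∀ i, A (e1 i) = v i then h.choose else 0

/-- apply an operator to all coordinates -/
noncomputable def mp (A : F →L[ℝ] F') (v : El ι F) : El ι F' := mk1 fun i => A (v i)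

/-- permutation of the coordinates -/
noncomputable def sh (π : Equiv.Perm ι) (v : El ι F) : El ι F := mk1 fun i => v (π i)

/-- the monoid of twisted permutations -/
@[ext] structure Mo (ι : Type) where
  /-- the permutation -/
  π : Equiv.Perm ι
  /-- the nuclear part of the linear map -/
  V : El ι (Ll ι)
  /-- the translations -/
  w : El ι (Ll ι)

namespace Mo

/-- the linear map -/
noncomputable def M (g : Mo ι) : Ll ι →L[ℝ] Ll ι := ex fun i => e1 (g.π i) + g.V i

noncomputable instance : Mul (Mo ι) :=
  ⟨fun g h => ⟨g.π * h.π, mp g.M h.V + sh h.π g.V, mp g.M h.w + sh h.π g.w⟩⟩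

noncomputable instance : One (Mo ι) := ⟨⟨1, 0, 0⟩⟩

end Mo

/-- coloured structures on `ι` with a map to `l^1(ι)` -/
abbrev Xs (ι : Type) : Type := (ι → ℕ) × (ι → ι → ℕ) × (ι → Ll ι)

noncomputable instance : SMul (Mo ι) (Xs ι) :=
  ⟨fun g x => (fun p => x.1 (g.π.symm p), fun p q => x.2.1 (g.π.symm p) (g.π.symm q),
    fun p => g.M (x.2.2 (g.π.symm p)) + g.w (g.π.symm p))⟩

end Pool.Agent.H7.GH
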