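import Pool.Agent.H7.GH.L1

/-!
# GH-MO1: the monoid `Mo ι` and its action on `Xs ι`

All statements reduce to `M_e1` and `clm_ext`.  `‖g.V i‖ ≤ ‖g.V‖` (`norm_coe_le`), so the values
`e1 (g.π i) + g.V i` are bounded by `1 + ‖g.V‖` and `ex_e1` applies.
* `M_mul`: on `e1 i`: `(g * h).V i = g.M (h.V i) + g.V (h.π i)` (`mp_apply`, `sh_apply`), so
  `(g * h).M (e1 i) = e1 (g.π (h.π i)) + g.V (h.π i) + g.M (h.V i) = g.M (e1 (h.π i) + h.V i)`.
* monoid laws: `Mo.ext`; `mp_comp`, `mp_sh`, `sh_mul`, `mp_add`, `sh_add`, `mp_id`, ...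
* `M_eq`: `g.M x = sh g.π.symm x + ex g.V x` by `clm_ext` for fixed.. (both sides are continuous linear in
  `x`; or use `hasSum_e1`; `sh_symm_e1`).
* `isUnit_mk`: the three elements `(1, 0, w')`, `(π, 0, 0)`, `(1, V, 0)` are units, the inverse of the
  last one is `(1, -V, 0)`: `(1, V, 0) * (1, -V, 0) = (1, (1 + ex V)(-V) + V, 0)` and `ex V (V q) = 0`;
  the product `(1, 0, w') * ((π, 0, 0) * (1, V, 0))` is `(π, V, w' ∘ π)` because `sh π.symm (V q) = V q`;
  take `w' = sh π.symm w`.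
-/

set_option autoImplicit false
set_option linter.unusedVariables false
set_option linter.unusedSectionVars false
set_option linter.unusedSimpArgs false
set_option linter.unusedTactic false
set_option linter.unreachableTactic false

namespace Pool.Agent.H7.GH

open Filter Topology
open scoped Ordinal ENNReal

variable {ι : Type}

namespace Mo

variable (g h : Mo ι)

theorem mul_π : (g * h).π = g.π * h.π := rfl

theorem mul_V : (g * h).V = mp g.M h.V + sh h.π g.V := rfl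

theorem mul_w : (g * h).w = mp g.M h.w + sh h.π g.w := rfl

theorem one_π : (1 : Mo ι).π = 1 := rfl

theorem one_V : (1 : Mo ι).V = 0 := rfl

theorem one_w : (1 : Mo ι).w = 0 := rfl

theorem V_norm_le (i : ι) : ‖(e1 (g.π i) : Ll ι) + g.V i‖ ≤ 1 + ‖g.V‖ := by
  refine (norm_add_le _ _).trans ?_
  rw [norm_e1]
  have := norm_coe_le g.V i
  linarith

theorem M_e1 (i : ι) : g.M (e1 i) = e1 (g.π i) + g.V i :=
  ex_e1 (v := fun i => (e1 (g.π i) : Ll ι) + g.V i) g.V_norm_le i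

theorem M_one : (1 : Mo ι).M = ContinuousLinearMap.id ℝ (Ll ι) := by
  refine clm_ext fun i => ?_
  rw [M_e1, one_π, one_V, lp.coeFn_zero, Pi.zero_apply, add_zero]
  rfl

theorem M_mul : (g * h).M = g.M.comp h.M := by
  refine clm_ext fun i => ?_
  rw [ContinuousLinearMap.comp_apply, M_e1, M_e1, map_add, M_e1, mul_V, lp.coeFn_add,
    Pi.add_apply, mp_apply, sh_apply, mul_π, Equiv.Perm.mul_apply]
  abel

theorem M_eq (x : Ll ι) : g.M x = sh g.π.symm x + ex (fun i => g.V i) x := by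
  have h1 : HasSum (fun i => x i • ((e1 (g.π i) : Ll ι) + g.V i)) (g.M x) :=
    hasSum_ex (v := fun i => (e1 (g.π i) : Ll ι) + g.V i) g.V_norm_le x
  have h2 : HasSum (fun i => x i • g.V i) (ex (fun i => g.V i) x) :=
    hasSum_ex (v := fun i => g.V i) (fun i => norm_coe_le g.V i) x
  have h3 : HasSum (fun i => x i • (e1 (g.π i) : Ll ι)) (sh g.π.symm x) := by
    have h4 := hasSum_e1 (sh g.π.symm x)
    rw [← g.π.hasSum_iff] at h4
    refine h4.congr_fun fun i => ?_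
    change _ = (sh g.π.symm x) (g.π i) • (e1 (g.π i) : Ll ι)
    rw [sh_apply, Equiv.symm_apply_apply]
  refine h1.unique ((h3.add h2).congr_fun fun i => ?_)
  rw [smul_add]

theorem norm_M_le : ‖g.M‖ ≤ 1 + ‖g.V‖ :=
  norm_ex_le (by positivity) g.V_norm_le

noncomputable instance : Monoid (Mo ι) where
  one_mul g := by
    refine Mo.ext (one_mul _) ?_ ?_
    · rw [mul_V, M_one, mp_id, one_V, sh_zero, add_zero]
    · rw [mul_w, M_one, mp_id, one_w, sh_zero, add_zero]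
  mul_one g := by
    refine Mo.ext (mul_one _) ?_ ?_
    · rw [mul_V, one_V, mp_zero, one_π, sh_one, zero_add]
    · rw [mul_w, one_w, mp_zero, one_π, sh_one, zero_add]
  mul_assoc g h k := by
    refine Mo.ext (mul_assoc _ _ _) ?_ ?_
    · rw [mul_V, mul_V, mul_V, mul_V, M_mul, mp_comp, mp_add, sh_add, mp_sh, mul_π, sh_mul,
        add_assoc]
    · rw [mul_w, mul_w, mul_w, mul_w, M_mul, mp_comp, mp_add, sh_add, mp_sh, mul_π, sh_mul,
        add_assoc]

noncomputable instance : MulAction (Mo ι) (Xs ι) where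
  one_smul x := by
    refine Prod.ext rfl (Prod.ext rfl ?_)
    funext p
    change (1 : Mo ι).M (x.2.2 p) + (1 : Mo ι).w p = x.2.2 p
    rw [M_one, one_w, lp.coeFn_zero, Pi.zero_apply, add_zero]
    rfl
  mul_smul g h x := by
    refine Prod.ext rfl (Prod.ext rfl ?_)
    funext p
    change (g * h).M (x.2.2 (h.π.symm (g.π.symm p))) + (g * h).w (h.π.symm (g.π.symm p)) =
      g.M (h.M (x.2.2 (h.π.symm (g.π.symm p))) + h.w (h.π.symm (g.π.symm p))) + g.w (g.π.symm p)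
    rw [M_mul, mul_w, lp.coeFn_add, Pi.add_apply, mp_apply, sh_apply, Equiv.apply_symm_apply,
      ContinuousLinearMap.comp_apply, map_add, add_assoc]

theorem smul_fst (x : Xs ι) (p : ι) : (g • x).1 (g.π p) = x.1 p := by
  change x.1 (g.π.symm (g.π p)) = x.1 p
  rw [Equiv.symm_apply_apply]

theorem smul_snd (x : Xs ι) (p q : ι) : (g • x).2.1 (g.π p) (g.π q) = x.2.1 p q := by
  change x.2.1 (g.π.symm (g.π p)) (g.π.symm (g.π q)) = x.2.1 p q
  rw [Equiv.symm_apply_apply, Equiv.symm_apply_apply]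

theorem smul_trd (x : Xs ι) (p : ι) : (g • x).2.2 (g.π p) = g.M (x.2.2 p) + g.w p := by
  change g.M (x.2.2 (g.π.symm (g.π p))) + g.w (g.π.symm (g.π p)) = _
  rw [Equiv.symm_apply_apply]

theorem ex_zero' : ex (fun i => ((0 : El ι (Ll ι)) i : Ll ι)) = 0 := by
  refine clm_ext fun i => ?_
  rw [ex_e1 (C := 0) (fun i => by simp)]
  simp

theorem ex_neg' (V : El ι (Ll ι)) :
    ex (fun i => ((-V : El ι (Ll ι)) i : Ll ι)) = - ex (fun i => (V i : Ll ι)) := by
  refine clm_ext fun i => ?_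
  rw [neg_apply, ex_e1 (C := ‖V‖) (fun i => norm_coe_le V i),
    ex_e1 (C := ‖V‖) (fun i => by
      rw [lp.coeFn_neg, Pi.neg_apply, norm_neg]
      exact norm_coe_le V i)]
  rfl

theorem isUnit_mk (π : Equiv.Perm ι) (V w : El ι (Ll ι)) (h1 : ∀ q, sh π.symm (V q) = V q)
    (h2 : ∀ q, ex (fun i => V i) (V q) = 0) : IsUnit (⟨π, V, w⟩ : Mo ι) := by
  -- operators of the elementary elements
  have hMa : ∀ w : El ι (Ll ι), (⟨1, 0, w⟩ : Mo ι).M = ContinuousLinearMap.id ℝ (Ll ι) := by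
    intro w
    exact (M_one : (1 : Mo ι).M = _)
  have hMb : ∀ (π : Equiv.Perm ι) (x : Ll ι), (⟨π, 0, 0⟩ : Mo ι).M x = sh π.symm x := by
    intro π x
    rw [M_eq]
    change sh π.symm x + ex (fun i => ((0 : El ι (Ll ι)) i : Ll ι)) x = _
    rw [ex_zero', zero_apply, add_zero]
  have hMc : ∀ (V : El ι (Ll ι)) (x : Ll ι), (⟨1, V, 0⟩ : Mo ι).M x = x + ex (fun i => V i) x := by
    intro V x
    rw [M_eq]
    change sh (1 : Equiv.Perm ι) x + ex (fun i => V i) x = _
    rw [sh_one]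
  have ha : ∀ w : El ι (Ll ι), IsUnit (⟨1, 0, w⟩ : Mo ι) := by
    intro w
    have key : ∀ w : El ι (Ll ι), (⟨1, 0, w⟩ : Mo ι) * ⟨1, 0, -w⟩ = 1 := by
      intro w
      refine Mo.ext (mul_one _) ?_ ?_
      · rw [mul_V]
        change mp _ 0 + sh 1 0 = 0
        rw [mp_zero, sh_zero, add_zero]
      · rw [mul_w, hMa]
        change mp _ (-w) + sh 1 w = 0
        rw [mp_id, sh_one, neg_add_cancel]
    have key2 := key (-w)
    rw [neg_neg] at key2
    exact ⟨⟨⟨1, 0, w⟩, ⟨1, 0, -w⟩, key w, key2⟩, rfl⟩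
  have hb : IsUnit (⟨π, 0, 0⟩ : Mo ι) := by
    have key : ∀ π : Equiv.Perm ι, (⟨π, 0, 0⟩ : Mo ι) * ⟨π.symm, 0, 0⟩ = 1 := by
      intro π
      refine Mo.ext (mul_inv_cancel π) ?_ ?_
      · rw [mul_V]
        change mp _ 0 + sh _ 0 = 0
        rw [mp_zero, sh_zero, add_zero]
      · rw [mul_w]
        change mp _ 0 + sh _ 0 = 0
        rw [mp_zero, sh_zero, add_zero]
    have key2 := key π.symm
    rw [Equiv.symm_symm] at key2
    exact ⟨⟨⟨π, 0, 0⟩, ⟨π.symm, 0, 0⟩, key π, key2⟩, rfl⟩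
  have hc : IsUnit (⟨1, V, 0⟩ : Mo ι) := by
    have key : ∀ V : El ι (Ll ι), (∀ q, ex (fun i => V i) (V q) = 0) →
        (⟨1, V, 0⟩ : Mo ι) * ⟨1, -V, 0⟩ = 1 := by
      intro V hV
      refine Mo.ext (mul_one _) ?_ ?_
      · rw [mul_V]
        change mp (⟨1, V, 0⟩ : Mo ι).M (-V) + sh 1 V = 0
        rw [sh_one]
        refine lp.ext (funext fun q => ?_)
        rw [lp.coeFn_add, Pi.add_apply, mp_apply, hMc, lp.coeFn_neg, Pi.neg_apply, map_neg, hV,
          neg_zero, add_zero, neg_add_cancel]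
        rfl
      · rw [mul_w]
        change mp _ 0 + sh _ 0 = 0
        rw [mp_zero, sh_zero, add_zero]
    have key2 := key (-V) (fun q => by
      rw [ex_neg', neg_apply, lp.coeFn_neg, Pi.neg_apply, map_neg, h2,
        neg_zero, neg_zero])
    rw [neg_neg] at key2
    exact ⟨⟨⟨1, V, 0⟩, ⟨1, -V, 0⟩, key V h2, key2⟩, rfl⟩
  have hprod : (⟨1, 0, sh π.symm w⟩ : Mo ι) * (⟨π, 0, 0⟩ * ⟨1, V, 0⟩) = ⟨π, V, w⟩ := by
    have hbc : (⟨π, 0, 0⟩ : Mo ι) * ⟨1, V, 0⟩ = ⟨π, V, 0⟩ := by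
      refine Mo.ext (mul_one _) ?_ ?_
      · rw [mul_V]
        change mp (⟨π, 0, 0⟩ : Mo ι).M V + sh _ 0 = V
        rw [sh_zero, add_zero]
        refine lp.ext (funext fun q => ?_)
        rw [mp_apply, hMb, h1]
      · rw [mul_w]
        change mp _ 0 + sh _ 0 = 0
        rw [mp_zero, sh_zero, add_zero]
    rw [hbc]
    refine Mo.ext (one_mul _) ?_ ?_
    · rw [mul_V, hMa, mp_id]
      change V + sh _ 0 = V
      rw [sh_zero, add_zero]
    · rw [mul_w, hMa, mp_id]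
      change 0 + sh π (sh π.symm w) = w
      rw [zero_add, ← sh_mul]
      have : π.symm * π = 1 := inv_mul_cancel π
      rw [this, sh_one]
  rw [← hprod]
  exact (ha _).mul (hb.mul hc)

end Mo

end Pool.Agent.H7.GH
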