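import Pool.Agent.H7.GH.Mo1

/-!
# GH-MO2: continuity lemmas

* `tendsto_sh`: `‖sh π x - sh π₀ x₀‖ ≤ ‖x - x₀‖ + ‖sh π x₀ - sh π₀ x₀‖` (`norm_sh`).  For the second
  term approximate `x₀` by a finitely supported `y` (`hasSum_e1` or `lp.hasSum_single`; for general `F`
  by a finite sum of `lp.single 1 j c`): `sh π (lp.single 1 j c) = lp.single 1 (π.symm j) c`, which is
  eventually the same for `π a` and `π₀`.  A variant without approximation: for a finite set `s` of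
  indices, `‖sh π x₀ - sh π₀ x₀‖ ≤ ∑_{j ∉ s} 2 ‖x₀ j‖` as soon as `π.symm j = π₀.symm j` for `j ∈ s`.
* `tendsto_M`: `M_eq`; `ex V` is Lipschitz in `V` (`‖ex V x‖ ≤ ‖V‖ ‖x‖`, linear in `V`).
* `tendsto_mpM`: `‖(g a).M‖ ≤ 1 + ‖(g a).V‖` is eventually bounded by a constant `C`.
  `‖mp (g a).M (W a) - mp g₀.M W₀‖ ≤ C * ‖W a - W₀‖ + ∑' i, ‖((g a).M - g₀.M) (W₀ i)‖`, the last sum
  tends to `0` by `tendsto_tsum_of_dominated_convergence` (bound `(C + ‖g₀.M‖) * ‖W₀ i‖`, terms by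
  `tendsto_M`).
-/

set_option autoImplicit false
set_option linter.unusedVariables false
set_option linter.unusedSectionVars false
set_option linter.unusedSimpArgs false
set_option linter.unusedTactic false
set_option linter.unreachableTactic false

namespace Pool.Agent.H7.GH

open Filter Topology
open scoped Ordinal ENNReal

variable {ι α F : Type} [NormedAddCommGroup F] {l : Filter α}

private theorem mo2_bound (π π₀ : Equiv.Perm ι) (x : El ι F) (s : Finset ι)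
    (h : ∀ j ∈ s, π.symm j = π₀.symm j) :
    ‖sh π x - sh π₀ x‖ ≤ 2 * ((∑' i, ‖x i‖) - ∑ i ∈ s, ‖x i‖) := by
  classical
  set f : ι → ℝ := fun j => if j ∈ s then 0 else ‖x j‖ with hf
  have hsx : Summable fun i => ‖x i‖ := summable_norm_coe x
  have hf0 : ∀ j, 0 ≤ f j := by
    intro j
    simp only [hf]
    split_ifs
    · exact le_rfl
    · exact norm_nonneg _
  have hfle : ∀ j, f j ≤ ‖x j‖ := by
    intro j
    simp only [hf]
    split_ifs
    · exact norm_nonneg _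
    · exact le_rfl
  have hfs : Summable f := Summable.of_nonneg_of_le hf0 hfle hsx
  have hsum : ∑' i, f i = (∑' i, ‖x i‖) - ∑ i ∈ s, ‖x i‖ := by
    have h1 : ∀ i, f i = ‖x i‖ - (if i ∈ s then ‖x i‖ else 0) := by
      intro i
      simp only [hf]
      split_ifs <;> simp
    have h2 : HasSum (fun i => if i ∈ s then ‖x i‖ else 0) (∑ i ∈ s, ‖x i‖) := by
      have h3 : HasSum (fun i => if i ∈ s then ‖x i‖ else 0)
          (∑ i ∈ s, (if i ∈ s then ‖x i‖ else 0)) :=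
        hasSum_sum_of_ne_finset_zero (fun b hb => by simp [hb])
      have h4 : ∑ i ∈ s, (if i ∈ s then ‖x i‖ else 0) = ∑ i ∈ s, ‖x i‖ :=
        Finset.sum_congr rfl (fun b hb => by simp [hb])
      rw [h4] at h3
      exact h3
    have h5 := (hsx.hasSum.sub h2).tsum_eq
    rw [← h5]
    exact tsum_congr h1
  have hpt : ∀ i, ‖(sh π x - sh π₀ x) i‖ ≤ f (π i) + f (π₀ i) := by
    intro i
    have he : (sh π x - sh π₀ x) i = x (π i) - x (π₀ i) := by
      rw [lp.coeFn_sub, Pi.sub_apply, sh_apply, sh_apply]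
    rw [he]
    by_cases h1 : π i ∈ s
    · have h2 : π₀ i = π i := by
        have h3 := h _ h1
        rw [Equiv.symm_apply_apply] at h3
        have h4 : π₀ i = π₀ (π₀.symm (π i)) := congrArg π₀ h3
        rw [Equiv.apply_symm_apply] at h4
        exact h4
      rw [h2, sub_self, norm_zero]
      exact add_nonneg (hf0 _) (hf0 _)
    · by_cases h1' : π₀ i ∈ s
      · have h2 : π i = π₀ i := by
          have h3 := h _ h1'
          rw [Equiv.symm_apply_apply] at h3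
          have h4 : π (π.symm (π₀ i)) = π i := congrArg π h3
          rw [Equiv.apply_symm_apply] at h4
          exact h4.symm
        rw [h2, sub_self, norm_zero]
        exact add_nonneg (hf0 _) (hf0 _)
      · simp only [hf, if_neg h1, if_neg h1']
        exact norm_sub_le _ _
  rw [norm_eq_tsum]
  have hs1 : Summable fun i => f (π i) := (Equiv.summable_iff π).2 hfs
  have hs2 : Summable fun i => f (π₀ i) := (Equiv.summable_iff π₀).2 hfs
  calc ∑' i, ‖(sh π x - sh π₀ x) i‖ ≤ ∑' i, (f (π i) + f (π₀ i)) :=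
        (summable_norm_coe _).tsum_le_tsum hpt (hs1.add hs2)
    _ = ∑' i, f (π i) + ∑' i, f (π₀ i) := hs1.tsum_add hs2
    _ = ∑' i, f i + ∑' i, f i := by rw [Equiv.tsum_eq π f, Equiv.tsum_eq π₀ f]
    _ = 2 * ((∑' i, ‖x i‖) - ∑ i ∈ s, ‖x i‖) := by rw [hsum]; ring

theorem tendsto_sh {π : α → Equiv.Perm ι} {π₀ : Equiv.Perm ι} {x : α → El ι F} {x₀ : El ι F}
    (hπ : ∀ j, ∀ᶠ a in l, (π a).symm j = π₀.symm j) (hx : Tendsto x l (𝓝 x₀)) :
    Tendsto (fun a => sh (π a) (x a)) l (𝓝 (sh π₀ x₀)) := by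
  rw [Metric.tendsto_nhds]
  intro ε hε
  have hsx : Summable fun i => ‖x₀ i‖ := summable_norm_coe x₀
  have h1 := (Metric.tendsto_nhds.1 hsx.hasSum (ε / 4) (by positivity))
  rw [SummationFilter.unconditional_filter] at h1
  obtain ⟨s, hs⟩ := h1.exists
  have h2 : ∀ᶠ a in l, ∀ j ∈ s, (π a).symm j = π₀.symm j :=
    (Filter.eventually_all_finset s).2 (fun j _ => hπ j)
  have h3 := Metric.tendsto_nhds.1 hx (ε / 2) (by positivity)
  filter_upwards [h2, h3] with a ha hb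
  rw [dist_eq_norm] at hb ⊢
  have e1 : sh (π a) (x a) - sh π₀ x₀ =
      sh (π a) (x a - x₀) + (sh (π a) x₀ - sh π₀ x₀) := by
    rw [sh_sub]
    abel
  rw [e1]
  have e2 := mo2_bound (π a) π₀ x₀ s ha
  have e3 : (∑' i, ‖x₀ i‖) - ∑ i ∈ s, ‖x₀ i‖ < ε / 4 := by
    rw [Real.dist_eq] at hs
    have := abs_lt.1 hs
    linarith [this.1]
  calc ‖sh (π a) (x a - x₀) + (sh (π a) x₀ - sh π₀ x₀)‖
      ≤ ‖sh (π a) (x a - x₀)‖ + ‖sh (π a) x₀ - sh π₀ x₀‖ := norm_add_le _ _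
    _ < ε := by
      rw [norm_sh]
      linarith

private theorem mo2_ex_le (V : El ι (Ll ι)) (x : Ll ι) :
    ‖ex (fun i => V i) x‖ ≤ ‖V‖ * ‖x‖ := by
  have h1 : ‖ex (fun i => V i)‖ ≤ ‖V‖ := norm_ex_le (norm_nonneg _) (fun i => norm_coe_le V i)
  exact (ContinuousLinearMap.le_opNorm _ _).trans
    (mul_le_mul_of_nonneg_right h1 (norm_nonneg _))

private theorem mo2_ex_sub (V V' : El ι (Ll ι)) (x : Ll ι) :
    ex (fun i => V i) x - ex (fun i => V' i) x = ex (fun i => (V - V') i) x := by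
  have h1 := hasSum_ex (fun i => norm_coe_le V i) x
  have h2 := hasSum_ex (fun i => norm_coe_le V' i) x
  have h3 := hasSum_ex (fun i => norm_coe_le (V - V') i) x
  refine (h1.sub h2).unique ?_
  convert h3 using 2 with i
  rw [lp.coeFn_sub, Pi.sub_apply, smul_sub]

theorem tendsto_M {g : α → Mo ι} {g₀ : Mo ι} {x : α → Ll ι} {x₀ : Ll ι}
    (hπ : ∀ j, ∀ᶠ a in l, (g a).π j = g₀.π j) (hV : Tendsto (fun a => (g a).V) l (𝓝 g₀.V))
    (hx : Tendsto x l (𝓝 x₀)) : Tendsto (fun a => (g a).M (x a)) l (𝓝 (g₀.M x₀)) := by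
  have h1 : Tendsto (fun a => sh (g a).π.symm (x a)) l (𝓝 (sh g₀.π.symm x₀)) := by
    refine tendsto_sh (fun j => ?_) hx
    simpa using hπ j
  have h2 : Tendsto (fun a => ex (fun i => (g a).V i) (x a)) l
      (𝓝 (ex (fun i => g₀.V i) x₀)) := by
    rw [tendsto_iff_norm_sub_tendsto_zero]
    have hb : Tendsto (fun a => ‖(g a).V‖ * ‖x a - x₀‖ + ‖(g a).V - g₀.V‖ * ‖x₀‖) l
        (𝓝 (‖g₀.V‖ * 0 + 0 * ‖x₀‖)) := by
      refine Tendsto.add (Tendsto.mul hV.norm ?_) (Tendsto.mul ?_ tendsto_const_nhds)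
      · exact tendsto_iff_norm_sub_tendsto_zero.1 hx
      · exact tendsto_iff_norm_sub_tendsto_zero.1 hV
    rw [mul_zero, zero_mul, add_zero] at hb
    refine squeeze_zero (fun a => norm_nonneg _) (fun a => ?_) hb
    have e1 : ex (fun i => (g a).V i) (x a) - ex (fun i => g₀.V i) x₀ =
        ex (fun i => (g a).V i) (x a - x₀) +
          (ex (fun i => (g a).V i) x₀ - ex (fun i => g₀.V i) x₀) := by
      rw [map_sub]
      abel
    rw [e1, mo2_ex_sub]
    exact (norm_add_le _ _).trans (add_le_add (mo2_ex_le _ _) (mo2_ex_le _ _))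
  have h3 := h1.add h2
  rw [g₀.M_eq x₀]
  exact h3.congr (fun a => ((g a).M_eq (x a)).symm)

theorem tendsto_mpM {g : α → Mo ι} {g₀ : Mo ι} {W : α → El ι (Ll ι)} {W₀ : El ι (Ll ι)}
    (hπ : ∀ j, ∀ᶠ a in l, (g a).π j = g₀.π j) (hV : Tendsto (fun a => (g a).V) l (𝓝 g₀.V))
    (hW : Tendsto W l (𝓝 W₀)) : Tendsto (fun a => mp (g a).M (W a)) l (𝓝 (mp g₀.M W₀)) := by
  rw [tendsto_iff_norm_sub_tendsto_zero]
  have hs : Summable fun i => ‖W₀ i‖ := summable_norm_coe W₀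
  have h1 : Tendsto (fun a => ‖mp (g a).M W₀ - mp g₀.M W₀‖) l (𝓝 0) := by
    have h2 : ∀ a, ‖mp (g a).M W₀ - mp g₀.M W₀‖ = ∑' i, ‖(g a).M (W₀ i) - g₀.M (W₀ i)‖ := by
      intro a
      rw [norm_eq_tsum]
      refine tsum_congr (fun i => ?_)
      rw [lp.coeFn_sub, Pi.sub_apply, mp_apply, mp_apply]
    have h3 : Tendsto (fun a => ∑' i, ‖(g a).M (W₀ i) - g₀.M (W₀ i)‖) l
        (𝓝 (∑' i : ι, (0 : ℝ))) := by
      refine tendsto_tsum_of_dominated_convergence
        (bound := fun i => ((1 + (‖g₀.V‖ + 1)) + ‖g₀.M‖) * ‖W₀ i‖) (hs.mul_left _) (fun i => ?_) ?_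
      · exact tendsto_iff_norm_sub_tendsto_zero.1 (tendsto_M hπ hV tendsto_const_nhds)
      · have h4 : ∀ᶠ a in l, ‖(g a).V‖ < ‖g₀.V‖ + 1 :=
          hV.norm.eventually_lt_const (lt_add_one _)
        filter_upwards [h4] with a ha i
        rw [norm_norm]
        have h5 : ‖(g a).M (W₀ i)‖ ≤ (1 + (‖g₀.V‖ + 1)) * ‖W₀ i‖ :=
          (ContinuousLinearMap.le_opNorm _ _).trans
            (mul_le_mul_of_nonneg_right ((g a).norm_M_le.trans (by linarith)) (norm_nonneg _))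
        have h6 : ‖g₀.M (W₀ i)‖ ≤ ‖g₀.M‖ * ‖W₀ i‖ := ContinuousLinearMap.le_opNorm _ _
        calc ‖(g a).M (W₀ i) - g₀.M (W₀ i)‖ ≤ ‖(g a).M (W₀ i)‖ + ‖g₀.M (W₀ i)‖ :=
              norm_sub_le _ _
          _ ≤ ((1 + (‖g₀.V‖ + 1)) + ‖g₀.M‖) * ‖W₀ i‖ := by rw [add_mul]; linarith
    rw [tsum_zero] at h3
    exact h3.congr (fun a => (h2 a).symm)
  have h7 : Tendsto (fun a => (1 + ‖(g a).V‖) * ‖W a - W₀‖ + ‖mp (g a).M W₀ - mp g₀.M W₀‖) l
      (𝓝 ((1 + ‖g₀.V‖) * 0 + 0)) := by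
    refine Tendsto.add (Tendsto.mul (tendsto_const_nhds.add hV.norm) ?_) h1
    exact tendsto_iff_norm_sub_tendsto_zero.1 hW
  rw [mul_zero, add_zero] at h7
  refine squeeze_zero (fun a => norm_nonneg _) (fun a => ?_) h7
  have e1 : mp (g a).M (W a) - mp g₀.M W₀ =
      mp (g a).M (W a - W₀) + (mp (g a).M W₀ - mp g₀.M W₀) := by
    rw [mp_sub]
    abel
  rw [e1]
  refine (norm_add_le _ _).trans (add_le_add ?_ le_rfl)
  exact (norm_mp_le _ _).trans (mul_le_mul_of_nonneg_right (g a).norm_M_le (norm_nonneg _))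

end Pool.Agent.H7.GH
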