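import Pool.Agent.H7.GH.Df
import Pool.Agent.H7.GH.LD

/-!
# Project GH: names and the coding `ob H`
-/

namespace Pool.Agent.H7.GH

open Pool.Agent.H82.GH
open scoped Ordinal

/-- names of tuples: the copy, the tuple, a multiplicity -/
structure Nd where
  /-- copy -/
  i : Bool
  /-- tuple -/
  a : List ℕ
  /-- multiplicity -/
  m : ℕ

/-- names for the pair of a tuple `c :: a` and its tail `a` -/
structure Pa where
  /-- copy -/
  i : Bool
  /-- first element -/
  c : ℕ
  /-- tail -/
  a : List ℕ
  /-- multiplicity -/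
  m : ℕ

/-- the child node -/
def Pa.x (p : Pa) : Nd := ⟨p.i, p.c :: p.a, p.m⟩

/-- the parent node -/
def Pa.y (p : Pa) : Nd := ⟨p.i, p.a, p.m⟩

/-- names of edges -/
structure Ed where
  /-- copy of the first endpoint -/
  i : Bool
  /-- copy of the second endpoint -/
  j : Bool
  /-- the pairs of elements of the two tuples -/
  l : List (ℕ × ℕ)
  /-- multiplicity of the first endpoint -/
  m : ℕ
  /-- multiplicity of the second endpoint -/
  n : ℕ
  /-- the error of the position -/
  s : ℚ
  /-- the length of the edge -/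
  q : ℚ
  /-- multiplicity -/
  k : ℕ
  hs : 0 ≤ s
  hq : s < q

/-- first endpoint -/
def Ed.x (e : Ed) : Nd := ⟨e.i, e.l.map Prod.fst, e.m⟩

/-- second endpoint -/
def Ed.y (e : Ed) : Nd := ⟨e.j, e.l.map Prod.snd, e.n⟩

/-- the position of the edge -/
def Ed.p (e : Ed) : Pos := (e.i, e.j, e.l, e.s)

/-- base names -/
inductive Bs : Type
  | nd (y : Nd)
  | pa (x : Pa)
  | ed (e : Ed)

/-- the positions of a base name -/
def ps : Bs → List Pos
  | .nd _ => []
  | .pa _ => []
  | .ed e => [e.p]

/-- points: a formal rational combination of relations, a state, a multiplicity -/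
structure Pt where
  /-- the combination -/
  A : List (Bs × ℚ)
  /-- the state -/
  S : St
  /-- multiplicity -/
  m : ℕ

/-- the index set -/
inductive Ix : Type
  | bs (b : Bs)
  | st
  | un (n : ℕ)
  | lb (y : Nd) (k l : ℕ)
  | pt (p : Pt)
  | vx (p : Pt) (t : List (St × ℕ))

/-- the Banach space -/
abbrev L : Type := Ll Ix

/-- the basis vector of a node -/
noncomputable def en (y : Nd) : L := e1 (Ix.bs (Bs.nd y))

/-- the relation of a base name -/
noncomputable def R : Bs → L
  | .nd _ => 0
  | .pa p => e1 (Ix.bs (.pa p)) - (en p.x - en p.y)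
  | .ed e => e1 (Ix.bs (.ed e)) - ((e.q : ℝ)⁻¹) • (en e.x - en e.y)

/-- the value of a formal combination -/
noncomputable def uA (A : List (Bs × ℚ)) : L := (A.map fun x => (x.2 : ℝ) • R x.1).sum

/-- the base name is valid -/
def Vl (H : Pr) (b : Bs) : Prop := ∀ p ∈ ps b, PI H p

/-- the closed span of the valid relations -/
noncomputable def NN (H : Pr) : Submodule ℝ L :=
  (Submodule.span ℝ {x | ∃ b, Vl H b ∧ x = R b}).topologicalClosure

/-- the state dominates all positions of the combination -/
def Dm (S : St) (A : List (Bs × ℚ)) : Prop := ∀ x ∈ A, ∀ p ∈ ps x.1, ∃ v n, (p, v, n) ∈ S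

/-- the point is alive -/
def Al (H : Pr) (p : Pt) : Prop := Lg H p.S ∧ Dm p.S p.A

/-- the sort of a base name -/
def sb : Bs → ℕ
  | .nd y => Nat.pair 0 y.a.length
  | .pa x => Nat.pair 1 x.a.length
  | .ed _ => Nat.pair 2 0

/-- the sort of an index -/
def srt : Ix → ℕ
  | .bs b => sb b
  | .st => Nat.pair 3 0
  | .un _ => Nat.pair 4 0
  | .lb _ _ _ => Nat.pair 5 0
  | .pt _ => Nat.pair 6 0
  | .vx _ _ => Nat.pair 7 0

open Classical in
/-- the values of the labels -/
noncomputable def lab (H : Pr) (y : Nd) (k l : ℕ) : ℝ :=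
  if k < y.a.length ∧ l < y.a.length then H y.i (y.a.getD k 0) (y.a.getD l 0) else 0

/-- the vertex `t'` is an alive child of the vertex `t` over `p` -/
def Ch (H : Pr) (p : Pt) (t t' : List (St × ℕ)) : Prop :=
  Al H p ∧ Chn H p.S t' ∧ ∃ x, t' = x :: t

open Classical in
/-- the binary colours -/
noncomputable def rel (H : Pr) : Ix → Ix → ℕ
  | .lb y k l, .bs b => if b = Bs.nd y then Nat.pair k l + 1 else 0
  | .pt p, .vx p' t => if p = p' ∧ t = [] then 1 else 0
  | .vx p t, .vx p' t' => if p = p' ∧ Ch H p t t' then 1 else 0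
  | _, _ => 0

open Classical in
/-- the locations -/
noncomputable def loc (H : Pr) : Ix → L
  | .un _ => e1 Ix.st
  | .lb y k l => ((1 / 2 : ℝ) ^ (k + l) * lab H y k l) • e1 Ix.st
  | .pt p => if Al H p then uA p.A else 0
  | _ => 0

/-- the object coding the pair `H` -/
noncomputable def ob (H : Pr) : Xs Ix := (srt, rel H, loc H)

end Pool.Agent.H7.GH
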