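import Mathlib

/-!
# GH-OR: an ordinal inequality

`ω * (β + 1) + v < β + ω ^ ω` for `v < ω ^ ω`.  Write `β = ω ^ ω * γ + δ` with `δ < ω ^ ω`
(`Ordinal.div_add_mod`, `Ordinal.mod_lt`).  `ω * ω ^ ω = ω ^ (1 + ω) = ω ^ ω`
(`Ordinal.one_add_omega0`), so `ω * β = ω ^ ω * γ + ω * δ`, and `ω * δ + ω + v < ω ^ ω` because
`ω ^ ω` is additively principal (`Ordinal.isPrincipal_add_omega0_opow`) and `δ < ω ^ n` for some
natural `n` gives `ω * δ < ω ^ (n + 1)` (`Ordinal.lt_opow_of_isSuccLimit` or `lt_omega0_opow`..).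
Finally `ω ^ ω * γ + (ω * δ + ω + v) < ω ^ ω * γ + ω ^ ω <= ω ^ ω * γ + (δ + ω ^ ω)`.
-/

set_option autoImplicit false
set_option linter.unusedVariables false
set_option linter.unusedSectionVars false
set_option linter.unusedSimpArgs false
set_option linter.unusedTactic false
set_option linter.unreachableTactic false

namespace Pool.Agent.H7.GH

open Filter Topology
open scoped Ordinal ENNReal

theorem om_lt (β v : Ordinal.{0}) (hv : v < ω ^ ω) :
    ω * (β + 1) + v < β + ω ^ ω := by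
  have hω1 : (1 : Ordinal.{0}) < ω := Ordinal.one_lt_omega0
  have hω0 : (0 : Ordinal.{0}) < ω := Ordinal.omega0_pos
  have hW0 : (ω ^ ω : Ordinal.{0}) ≠ 0 := (Ordinal.opow_pos ω hω0).ne'
  set γ := β / ω ^ ω with hγ
  set δ := β % ω ^ ω with hδ
  have hβ : (ω ^ ω : Ordinal.{0}) * γ + δ = β := Ordinal.div_add_mod β (ω ^ ω)
  have hδl : δ < (ω ^ ω : Ordinal.{0}) := Ordinal.mod_lt β hW0
  have hpr := Ordinal.isPrincipal_add_omega0_opow (ω : Ordinal.{0})
  have hωω : (ω : Ordinal.{0}) * ω ^ ω = ω ^ ω := by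
    have h := Ordinal.opow_add (ω : Ordinal.{0}) 1 ω
    rw [Ordinal.one_add_omega0, Ordinal.opow_one] at h
    exact h.symm
  have h1 : (ω : Ordinal.{0}) * δ < ω ^ ω := by
    obtain ⟨c, hc, hδc⟩ := (Ordinal.lt_opow_of_isSuccLimit hω0.ne' Ordinal.isSuccLimit_omega0).1 hδl
    calc (ω : Ordinal.{0}) * δ < ω * ω ^ c := mul_lt_mul_of_pos_left hδc hω0
      _ = ω ^ (1 + c) := by rw [Ordinal.opow_add, Ordinal.opow_one]
      _ < ω ^ ω := by
        rw [Ordinal.opow_lt_opow_iff_right hω1]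
        exact Ordinal.isPrincipal_add_omega0 hω1 hc
  have h2 : (ω : Ordinal.{0}) < ω ^ ω := by
    have h := (Ordinal.opow_lt_opow_iff_right hω1).2 hω1
    rwa [Ordinal.opow_one] at h
  have h3 : (ω : Ordinal.{0}) * δ + ω + v < ω ^ ω := hpr (hpr h1 h2) hv
  have h4 : (ω : Ordinal.{0}) * (β + 1) + v = ω ^ ω * γ + (ω * δ + ω + v) := by
    rw [mul_add, mul_one]
    conv_lhs => rw [← hβ]
    rw [mul_add, ← mul_assoc, hωω, add_assoc, add_assoc, add_assoc]
  rw [h4]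
  calc (ω : Ordinal.{0}) ^ ω * γ + (ω * δ + ω + v) < ω ^ ω * γ + ω ^ ω := add_lt_add_right h3 _
    _ ≤ ω ^ ω * γ + (δ + ω ^ ω) := (add_le_add_iff_left _).mpr (le_add_self)
    _ = β + ω ^ ω := by rw [← add_assoc, hβ]

end Pool.Agent.H7.GH
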