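import Pool.Agent.H7.GH.Df

/-!
# GH-RG1: elementary facts about the rank `rg` of states

`rg` is defined by well-founded recursion, start with `rg_iff : by rw [rg]` (as `W_iff` in
H82/GH/Rank.lean).
* `rg_append`: the union answers the union; `Ans` is monotone in the state; for the converse use that an
  answer to a bigger state answers the smaller one (`rg_sub`).
* `rg_lim`: if `rg H γ S` for all `γ < β` and `β` is a limit (or just: for all `γ < β`, `rg H (γ + 1) S`)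
  then `rg H β S`.
* `rg_exact`: let `σ` be the least ordinal with not `rg H σ S`; it is not `0` (because `rg H 0 S` is
  legality) and not a limit (by `rg_lim`), so `σ = τ + 1`.
* `rg_le`: antitone.
-/

set_option autoImplicit false
set_option linter.unusedVariables false
set_option linter.unusedSectionVars false
set_option linter.unusedSimpArgs false
set_option linter.unusedTactic false
set_option linter.unreachableTactic false

namespace Pool.Agent.H7.GH

open Pool.Agent.H82.GH Filter Topology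
open scoped Ordinal ENNReal

variable {H : Pr} {S S' T T' : St} {β γ τ : Ordinal.{0}}

theorem rg_iff : rg H β S ↔ Lg H S ∧ ∀ γ < β, ∃ T, Tr H S T ∧ rg H γ T := by
  rw [rg]

theorem rg_anti (h : γ ≤ β) (hr : rg H β S) : rg H γ S := by
  rw [rg_iff] at hr ⊢
  exact ⟨hr.1, fun δ hδ => hr.2 δ (hδ.trans_le h)⟩

theorem rg_lg (h : rg H β S) : Lg H S := (rg_iff.1 h).1

theorem rg_zero : rg H 0 S ↔ Lg H S := by
  rw [rg_iff]
  refine ⟨fun h => h.1, fun h => ⟨h, fun γ hγ => ?_⟩⟩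
  exact absurd hγ (not_lt.2 bot_le)

theorem Ans_mono (h : ∀ o ∈ T, o ∈ T') {o : Obl} (ha : Ans T o) : Ans T' o := by
  refine ⟨fun h0 => ?_, fun h0 => ?_⟩
  · obtain ⟨h1, h2⟩ := ha.1 h0
    refine ⟨h _ h1, fun c hc j hj => ?_⟩
    obtain ⟨⟨d, hd⟩, ⟨e, he⟩⟩ := h2 c hc j hj
    exact ⟨⟨d, h _ hd⟩, ⟨e, h _ he⟩⟩
  · obtain ⟨v, hv, hm⟩ := ha.2 h0
    exact ⟨v, hv, h _ hm⟩

theorem Lg_append : Lg H (S ++ S') ↔ Lg H S ∧ Lg H S' := by
  unfold Lg
  constructor
  · intro h
    exact ⟨fun o ho => h o (List.mem_append_left _ ho), fun o ho => h o (List.mem_append_right _ ho)⟩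
  · rintro ⟨h1, h2⟩ o ho
    rcases List.mem_append.1 ho with h | h
    · exact h1 o h
    · exact h2 o h

theorem Tr_append (h : Tr H S T) (h' : Tr H S' T') : Tr H (S ++ S') (T ++ T') := by
  refine ⟨Lg_append.2 ⟨h.1, h'.1⟩, fun o ho => ?_⟩
  rcases List.mem_append.1 ho with ho | ho
  · exact Ans_mono (fun o ho => List.mem_append_left _ ho) (h.2 o ho)
  · exact Ans_mono (fun o ho => List.mem_append_right _ ho) (h'.2 o ho)

theorem Tr_append_lg (h : Tr H S T) (h' : Lg H T') : Tr H S (T ++ T') :=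
  ⟨Lg_append.2 ⟨h.1, h'⟩, fun o ho => Ans_mono (fun o ho => List.mem_append_left _ ho) (h.2 o ho)⟩

theorem rg_sub (h : ∀ o ∈ S', o ∈ S) (hr : rg H β S) : rg H β S' := by
  rw [rg_iff] at hr ⊢
  refine ⟨fun o ho => hr.1 o (h o ho), fun γ hγ => ?_⟩
  obtain ⟨T, hT, hrT⟩ := hr.2 γ hγ
  exact ⟨T, ⟨hT.1, fun o ho => hT.2 o (h o ho)⟩, hrT⟩

theorem rg_append : rg H β (S ++ S') ↔ rg H β S ∧ rg H β S' := by
  constructor
  · intro h
    exact ⟨rg_sub (fun o ho => List.mem_append_left _ ho) h,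
      rg_sub (fun o ho => List.mem_append_right _ ho) h⟩
  · rintro ⟨h1, h2⟩
    induction β using WellFoundedLT.induction generalizing S S' with
    | ind β ih =>
      rw [rg_iff] at h1 h2 ⊢
      refine ⟨Lg_append.2 ⟨h1.1, h2.1⟩, fun γ hγ => ?_⟩
      obtain ⟨T, hT, hrT⟩ := h1.2 γ hγ
      obtain ⟨T', hT', hrT'⟩ := h2.2 γ hγ
      exact ⟨T ++ T', Tr_append hT hT', ih γ hγ hrT hrT'⟩

theorem rg_lim (h : ∀ γ < β, rg H (γ + 1) S) (h0 : Lg H S) : rg H β S := by
  rw [rg_iff]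
  refine ⟨h0, fun γ hγ => ?_⟩
  exact (rg_iff.1 (h γ hγ)).2 γ (Order.lt_add_one_iff.2 le_rfl)

theorem rg_exact (h : Lg H S) (hn : ∃ σ, ¬ rg H σ S) : ∃ τ, rg H τ S ∧ ¬ rg H (τ + 1) S := by
  by_contra hcon
  push Not at hcon
  obtain ⟨σ, hσ⟩ := hn
  apply hσ
  clear hσ
  induction σ using WellFoundedLT.induction with
  | ind σ ih => exact rg_lim (fun γ hγ => hcon γ (ih γ hγ)) h

theorem rg_le (h : rg H τ S) (hn : ¬ rg H (τ + 1) S) (σ : Ordinal.{0}) : rg H σ S ↔ σ ≤ τ := by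
  constructor
  · intro hσ
    by_contra hlt
    push Not at hlt
    exact hn (rg_anti (Order.add_one_le_of_lt hlt) hσ)
  · intro hσ
    exact rg_anti hσ h

/-- a child of rank `τ` makes the rank at least `τ + 1` -/
theorem rg_succ (h : Lg H S) (hT : Tr H S T) (hr : rg H τ T) : rg H (τ + 1) S := by
  rw [rg_iff]
  refine ⟨h, fun γ hγ => ⟨T, hT, rg_anti (Order.lt_add_one_iff.1 hγ) hr⟩⟩

/-- `Gs H` is downward closed (strong induction: take the minimal `σ > τ` in `Gs H`; a child of rank at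
least `τ` has an exact rank `ρ` with `τ ≤ ρ < σ`) -/
theorem Gs_down {σ : Ordinal.{0}} (h : σ ∈ Gs H) (hτ : τ ≤ σ) : τ ∈ Gs H := by
  induction σ using WellFoundedLT.induction with
  | ind σ ih =>
    rcases hτ.eq_or_lt with rfl | hlt
    · exact h
    · obtain ⟨S, hS, hSn⟩ := h
      obtain ⟨T, hT, hrT⟩ := (rg_iff.1 hS).2 τ hlt
      have hTn : ¬ rg H σ T := fun hc => hSn (rg_succ (rg_lg hS) hT hc)
      obtain ⟨ρ, hρ, hρn⟩ := rg_exact (rg_lg hrT) ⟨σ, hTn⟩
      have h1 : τ ≤ ρ := (rg_le hρ hρn τ).1 hrT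
      have h2 : ρ < σ := by
        by_contra hc
        push Not at hc
        exact hTn (rg_anti hc hρ)
      exact ih ρ h2 ⟨T, hρ, hρn⟩ h1

end Pool.Agent.H7.GH
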