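import Pool.Agent.H7.GH.Rg1
import Pool.Agent.H7.GH.Or

/-!
# GH-RG2: lower bounds for the rank of a state

`PV H α p` is `W ..` (see `Df.lean`), use `W_iff`, `W_anti`, `W_mono` of H82/GH/Rank.lean.

* `rg_lower` (lower bound): if every obligation `(p, v, n)` of `S` has an ordinal `β` with `PV H β p` and
  `τ ≤ β + fu v` then `rg H τ S`.  Induction on `τ` (all `S`).  Legality is the first part of `W_iff`.
  For `γ < τ` one has to find `T` with `Tr H S T` and `rg H γ T`.  It is enough to find for each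
  obligation `o` of `S` a finite list `T_o` which answers `o` and whose obligations satisfy the hypothesis
  for `γ` (then `T = S.flatMap T_o`, with a choice function).  Let `o = (p, v, n)`, `τ ≤ β + fu v`.
  If `fu v = 0`: `γ < β`, take `(p, v, n + 1)` (`PV H γ p` by `W_anti`) and for all `c, j < n` the
  answers `(nx p c d j, v, n + 1)`, `(nx p d c j, v, n + 1)` with rank `γ` given by `W_iff` (error
  `r + 1 / (j + 1) > r`); for these `PV H γ _` and `γ ≤ γ + fu v`.
  If `fu v ≠ 0`: `γ < β + fu v`, so there is an ordinal `δ < fu v` with `γ ≤ β + δ` (if `γ ≤ β` take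
  `0`, otherwise `δ = γ - β`), `δ = fu v'` by `range_fu`; take `(p, v', n)`.
-/

set_option autoImplicit false
set_option linter.unusedVariables false
set_option linter.unusedSectionVars false
set_option linter.unusedSimpArgs false
set_option linter.unusedTactic false
set_option linter.unreachableTactic false

namespace Pool.Agent.H7.GH

open Pool.Agent.H82.GH Filter Topology
open scoped Ordinal ENNReal

variable {H : Pr} {S T : St} {β γ τ : Ordinal.{0}} {p : Pos} {v n : ℕ}

theorem fu_lt (v : ℕ) : fu v < ω ^ ω := by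
  have h : fu v ∈ Set.range fu := ⟨v, rfl⟩
  rw [range_fu] at h
  exact h

theorem exists_fu_eq {δ : Ordinal.{0}} (h : δ < ω ^ ω) : ∃ v, fu v = δ := by
  have h' : δ ∈ Set.range fu := by
    rw [range_fu]
    exact h
  exact h'

private theorem rg2_ans {H : Pr} (o : Obl) (β γ : Ordinal.{0}) (hβ : PV H β o.1)
    (hγ : γ < β + fu o.2.1) :
    ∃ T : St, Ans T o ∧ ∀ o' ∈ T, ∃ β' : Ordinal.{0}, PV H β' o'.1 ∧ γ ≤ β' + fu o'.2.1 := by
  obtain ⟨p, v, n⟩ := o
  simp only at hβ hγ
  by_cases hv : fu v = 0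
  · rw [hv, add_zero] at hγ
    have hW := (W_iff.1 hβ).2 γ hγ
    have hlt : ∀ j : ℕ, ((p.2.2.2 + 1 / ((j : ℚ) + 1) : ℚ) : ℝ) > (p.2.2.2 : ℝ) := by
      intro j
      have h1 : (0 : ℚ) < 1 / ((j : ℚ) + 1) := by positivity
      have h2 : p.2.2.2 < p.2.2.2 + 1 / ((j : ℚ) + 1) := by linarith
      exact_mod_cast h2
    have h1 : ∀ c j : ℕ, ∃ d, PV H γ (nx p c d j) := by
      intro c j
      obtain ⟨d, hd⟩ := (hW _ (hlt j)).1 c
      exact ⟨d, hd⟩
    have h2 : ∀ c j : ℕ, ∃ d, PV H γ (nx p d c j) := by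
      intro c j
      obtain ⟨d, hd⟩ := (hW _ (hlt j)).2 c
      exact ⟨d, hd⟩
    choose d1 hd1 using h1
    choose d2 hd2 using h2
    refine ⟨(p, v, n + 1) :: ((List.range n).flatMap fun c => (List.range n).flatMap fun j =>
      [(nx p c (d1 c j) j, v, n + 1), (nx p (d2 c j) c j, v, n + 1)]), ⟨?_, ?_⟩, ?_⟩
    · intro _
      refine ⟨List.mem_cons_self, ?_⟩
      intro c hc j hj
      simp only at hc hj
      constructor
      · refine ⟨d1 c j, List.mem_cons_of_mem _ ?_⟩
        rw [List.mem_flatMap]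
        refine ⟨c, List.mem_range.2 hc, ?_⟩
        rw [List.mem_flatMap]
        exact ⟨j, List.mem_range.2 hj, by simp⟩
      · refine ⟨d2 c j, List.mem_cons_of_mem _ ?_⟩
        rw [List.mem_flatMap]
        refine ⟨c, List.mem_range.2 hc, ?_⟩
        rw [List.mem_flatMap]
        exact ⟨j, List.mem_range.2 hj, by simp⟩
    · intro h
      exact absurd hv h
    · intro o' ho'
      rcases List.mem_cons.1 ho' with rfl | ho'
      · exact ⟨γ, W_anti hγ.le hβ, le_self_add⟩
      · rw [List.mem_flatMap] at ho'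
        obtain ⟨c, hc, ho'⟩ := ho'
        rw [List.mem_flatMap] at ho'
        obtain ⟨j, hj, ho'⟩ := ho'
        rcases List.mem_cons.1 ho' with rfl | ho'
        · exact ⟨γ, hd1 c j, le_self_add⟩
        · rcases List.mem_cons.1 ho' with rfl | ho'
          · exact ⟨γ, hd2 c j, le_self_add⟩
          · exact absurd ho' (by simp)
  · obtain ⟨δ, hδ, hle⟩ := (Ordinal.lt_add_iff hv).1 hγ
    obtain ⟨v', hv'⟩ := exists_fu_eq (hδ.trans (fu_lt v))
    refine ⟨[(p, v', n)], ⟨fun h => absurd h hv, fun _ => ⟨v', ?_, by simp⟩⟩, ?_⟩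
    · rw [hv']
      exact hδ
    · intro o' ho'
      rw [List.mem_singleton] at ho'
      subst ho'
      refine ⟨β, hβ, ?_⟩
      simp only
      rw [hv']
      exact hle

theorem rg_lower (τ : Ordinal.{0}) (S : St)
    (h : ∀ o ∈ S, ∃ β : Ordinal.{0}, PV H β o.1 ∧ τ ≤ β + fu o.2.1) : rg H τ S := by
  induction τ using WellFoundedLT.induction generalizing S with
  | _ τ ih =>
    rw [rg_iff]
    refine ⟨?_, ?_⟩
    · intro o ho
      obtain ⟨β, hβ, _⟩ := h o ho
      exact (W_iff.1 hβ).1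
    · intro γ hγ
      have key : ∀ o : Obl, ∃ T : St, o ∈ S → (Ans T o ∧ ∀ o' ∈ T, ∃ β' : Ordinal.{0},
          PV H β' o'.1 ∧ γ ≤ β' + fu o'.2.1) := by
        intro o
        by_cases ho : o ∈ S
        · obtain ⟨β, hβ, hle⟩ := h o ho
          obtain ⟨T, hT⟩ := rg2_ans o β γ hβ (lt_of_lt_of_le hγ hle)
          exact ⟨T, fun _ => hT⟩
        · exact ⟨[], fun hh => absurd hh ho⟩
      choose Tf hTf using key
      have hall : ∀ o' ∈ S.flatMap Tf, ∃ β' : Ordinal.{0}, PV H β' o'.1 ∧
          γ ≤ β' + fu o'.2.1 := by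
        intro o' ho'
        rw [List.mem_flatMap] at ho'
        obtain ⟨o, ho, ho'⟩ := ho'
        exact (hTf o ho).2 o' ho'
      have hr : rg H γ (S.flatMap Tf) := ih γ hγ _ hall
      refine ⟨S.flatMap Tf, ⟨rg_lg hr, ?_⟩, hr⟩
      intro o ho
      refine Ans_mono ?_ (hTf o ho).1
      intro o' ho'
      rw [List.mem_flatMap]
      exact ⟨o, ho, ho'⟩

end Pool.Agent.H7.GH
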