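import Pool.Agent.H7.GH.Rg2

/-!
# GH-RG2B: upper bounds for the rank of a state

`PV H α p` is `W ..` (see `Df.lean`), use `W_iff`, `W_anti`, `W_mono` of H82/GH/Rank.lean.

* `rg_claim`: if `fu v = 0`, `(p, v, n) ∈ S`, `rg H (ω * β) S` then `PV H β p`.  Induction on `β`
  (all `S, p, n`).  By `W_iff`: legality from `rg_lg`; let `γ < β`, `ε' > r`, `x`.  Choose `j` with
  `1 / (j + 1) ≤ ε' - r` and `K > x, j`.  `ω * γ + K + 1 < ω * (γ + 1) ≤ ω * β`.  Sublemma: if
  `(p, v, n) ∈ S`, `fu v = 0`, `rg H (ρ + K) S` then there is `T` with `(p, v, n + K) ∈ T` and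
  `rg H ρ T` (induction on `K`, `ρ + (K + 1) = (ρ + 1) + K` for the natural number `K`, or
  `ρ + K < ρ + (K+1)`).  Apply it with `ρ = ω * γ + 1`, and make one more step: there is `T'` with
  `Tr H T T'`, `rg H (ω * γ) T'`; since `n + K > x, j` there is `d` with
  `(nx p x d j, v, n + K + 1) ∈ T'`, and the induction hypothesis gives `PV H γ (nx p x d j)`; `W_mono`.
* `rg_upper1`: `(p, v, n) ∈ S`, not `PV H (β + 1) p`, `rg H τ S` imply `τ ≤ ω * (β + 1) + fu v`.
  Induction on `fu v`.  If `fu v = 0` and `τ > ω * (β + 1)` then `rg_anti`, `rg_claim` give a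
  contradiction.  If `fu v ≠ 0` and `τ > τ' := ω * (β + 1) + fu v`: there is `T` with `Tr H S T`,
  `rg H τ' T`, and `(p, v', n) ∈ T` with `fu v' < fu v`, so `τ' ≤ ω * (β + 1) + fu v' < τ'`.
* `rg_upper`: with `om_lt` (fuels are `< ω ^ ω` by `range_fu`).
-/

set_option autoImplicit false
set_option linter.unusedVariables false
set_option linter.unusedSectionVars false
set_option linter.unusedSimpArgs false
set_option linter.unusedTactic false
set_option linter.unreachableTactic false

namespace Pool.Agent.H7.GH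

open Pool.Agent.H82.GH Filter Topology
open scoped Ordinal ENNReal

variable {H : Pr} {S T : St} {β γ τ : Ordinal.{0}} {p : Pos} {v n : ℕ}

theorem rg2b_steps (hv : fu v = 0) (ρ : Ordinal.{0}) (K : ℕ) :
    ∀ (S : St) (n : ℕ), (p, v, n) ∈ S → rg H (ρ + (K : Ordinal.{0})) S →
      ∃ T, (p, v, n + K) ∈ T ∧ rg H ρ T := by
  induction K with
  | zero =>
    intro S n h hr
    refine ⟨S, h, ?_⟩
    simpa using hr
  | succ K ih =>
    intro S n h hr
    have hlt : ρ + (K : Ordinal.{0}) < ρ + ((K + 1 : ℕ) : Ordinal.{0}) := by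
      have h1 : (K : Ordinal.{0}) < ((K + 1 : ℕ) : Ordinal.{0}) := by exact_mod_cast Nat.lt_succ_self K
      exact (add_lt_add_iff_left ρ).2 h1
    obtain ⟨T1, hT1, hr1⟩ := (rg_iff.1 hr).2 _ hlt
    have ha := (hT1.2 _ h).1 hv
    obtain ⟨T, hT, hrT⟩ := ih T1 (n + 1) ha.1 hr1
    refine ⟨T, ?_, hrT⟩
    have e : n + (K + 1) = n + 1 + K := by ring
    rw [e]
    exact hT

theorem rg_claim (hv : fu v = 0) (h : (p, v, n) ∈ S) (hr : rg H (ω * β) S) : PV H β p := by
  induction β using WellFoundedLT.induction generalizing S p n with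
  | ind β ih =>
    unfold PV
    rw [W_iff]
    refine ⟨fun x hx y hy => rg_lg hr _ h x hx y hy, fun γ hγ ε' hε' => ?_⟩
    -- a child that answers with large parameters
    have key : ∀ c j : ℕ, ∃ T' m, rg H (ω * γ) T' ∧ (∃ d, (nx p c d j, v, m) ∈ T') ∧
        ∃ d, (nx p d c j, v, m) ∈ T' := by
      intro c j
      set K := max c j + 1 with hK
      have hle : (ω * γ + 1) + (K : Ordinal.{0}) ≤ ω * β := by
        have h1 : (1 : Ordinal.{0}) + (K : Ordinal.{0}) < ω := by
          have := Ordinal.natCast_lt_omega0 (1 + K)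
          push_cast at this
          exact this
        have h2 : ω * γ + (1 + (K : Ordinal.{0})) ≤ ω * γ + ω := by
          exact add_le_add_right h1.le _
        have h3 : ω * γ + ω = ω * (γ + 1) := by rw [mul_add, mul_one]
        have h4 : ω * (γ + 1) ≤ ω * β := by
          apply mul_le_mul_right
          exact Order.add_one_le_of_lt hγ
        rw [add_assoc]
        exact h2.trans (h3.le.trans h4)
      obtain ⟨T, hT, hrT⟩ := rg2b_steps hv _ K S n h (rg_anti hle hr)
      have hlt : ω * γ < ω * γ + 1 := by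
        exact Order.lt_add_one_iff.2 le_rfl
      obtain ⟨T', hT', hrT'⟩ := (rg_iff.1 hrT).2 _ hlt
      have ha := (hT'.2 _ hT).1 hv
      have hc : c < n + K := by omega
      have hj : j < n + K := by omega
      exact ⟨T', n + K + 1, hrT', (ha.2 c hc j hj).1, (ha.2 c hc j hj).2⟩
    obtain ⟨j, hj⟩ := exists_nat_one_div_lt (sub_pos.2 hε')
    have herr : (((p.2.2.2 + 1 / ((j : ℚ) + 1) : ℚ)) : ℝ) ≤ ε' := by
      push_cast
      linarith
    constructor
    · intro x
      obtain ⟨T', m, hrT', ⟨d, hd⟩, _⟩ := key x j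
      have := ih γ hγ hd hrT'
      unfold PV nx at this
      exact ⟨d, W_mono herr this⟩
    · intro x
      obtain ⟨T', m, hrT', _, ⟨d, hd⟩⟩ := key x j
      have := ih γ hγ hd hrT'
      unfold PV nx at this
      exact ⟨d, W_mono herr this⟩

theorem rg_upper1 (h : (p, v, n) ∈ S) (hn : ¬ PV H (β + 1) p) (hr : rg H τ S) :
    τ ≤ ω * (β + 1) + fu v := by
  have main : ∀ (φ : Ordinal.{0}) (v : ℕ) (S : St) (τ : Ordinal.{0}), fu v = φ → (p, v, n) ∈ S →
      rg H τ S → τ ≤ ω * (β + 1) + fu v := by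
    intro φ
    induction φ using WellFoundedLT.induction with
    | ind φ ih =>
      intro v S τ hφ h hr
      by_contra hlt
      push Not at hlt
      by_cases h0 : fu v = 0
      · apply hn
        refine rg_claim h0 h (rg_anti ?_ hr)
        rw [h0, add_zero] at hlt
        exact hlt.le
      · obtain ⟨T, hT, hrT⟩ := (rg_iff.1 hr).2 _ hlt
        obtain ⟨v', hv', hmem⟩ := (hT.2 _ h).2 h0
        have := ih (fu v') (hφ ▸ hv') v' T _ rfl hmem hrT
        exact absurd this (not_le.2 ((add_lt_add_iff_left _).2 hv'))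
  exact main _ v S τ rfl h hr

theorem rg_upper (h : (p, v, n) ∈ S) (hn : ¬ PV H (β + 1) p) (hr : rg H τ S) :
    τ < β + ω ^ ω :=
  (rg_upper1 h hn hr).trans_lt (om_lt β (fu v) (fu_lt v))

end Pool.Agent.H7.GH
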